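import Mathlib

/-!
Rank two Chebyshev type sequences.
-/

namespace CxA

open Real

/-- The sequence `0, 1, κ, κ^2 - 1, ...`. -/
def Uc (κ : ℝ) : ℕ → ℝ
  | 0 => 0
  | 1 => 1
  | n + 2 => κ * Uc κ (n + 1) - Uc κ n

@[simp] theorem Uc_zero (κ : ℝ) : Uc κ 0 = 0 := rfl
@[simp] theorem Uc_one (κ : ℝ) : Uc κ 1 = 1 := rfl
theorem Uc_add_two (κ : ℝ) (n : ℕ) : Uc κ (n + 2) = κ * Uc κ (n + 1) - Uc κ n := rfl

theorem Uc_two_eq (n : ℕ) : Uc 2 n = n := by
  induction n using Nat.strong_induction_on with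
  | _ n ih =>
    match n, ih with
    | 0, _ => simp
    | 1, _ => simp
    | n + 2, ih =>
      rw [Uc_add_two, ih (n + 1) (by omega), ih n (by omega)]
      push_cast
      ring

theorem sin_mul_Uc (θ : ℝ) (n : ℕ) : sin θ * Uc (2 * cos θ) n = sin (n * θ) := by
  induction n using Nat.strong_induction_on with
  | _ n ih =>
    match n, ih with
    | 0, _ => simp
    | 1, _ => simp
    | n + 2, ih =>
      rw [Uc_add_two]
      have h1 := ih (n + 1) (by omega)
      have h2 := ih n (by omega)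
      have h3 : sin θ * (2 * cos θ * Uc (2 * cos θ) (n + 1) - Uc (2 * cos θ) n)
          = 2 * cos θ * (sin θ * Uc (2 * cos θ) (n + 1)) - sin θ * Uc (2 * cos θ) n := by ring
      rw [h3, h1, h2]
      push_cast
      have e1 : ((n : ℝ) + 2) * θ = ((n : ℝ) + 1) * θ + θ := by ring
      have e2 : (n : ℝ) * θ = ((n : ℝ) + 1) * θ - θ := by ring
      rw [e1, e2, sin_add, sin_sub]
      ring

/-- The Coxeter constant `2 cos (π / m)`; for `m = 0` this is `2`. -/
noncomputable def kc (m : ℕ) : ℝ := 2 * cos (π / m)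

theorem kc_zero : kc 0 = 2 := by simp [kc]

theorem kc_one : kc 1 = -2 := by simp [kc]

theorem kc_two : kc 2 = 0 := by
  simp [kc]

theorem kc_nonneg {m : ℕ} (hm : m ≠ 1) : 0 ≤ kc m := by
  unfold kc
  rcases Nat.eq_zero_or_pos m with h | h
  · subst h; simp
  · have h2 : 2 ≤ m := by omega
    have h3 : (2 : ℝ) ≤ m := by exact_mod_cast h2
    have : 0 ≤ cos (π / m) := by
      apply cos_nonneg_of_neg_pi_div_two_le_of_le
      · have : 0 ≤ π / m := by positivity
        linarith [pi_pos]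
      · apply div_le_div_of_nonneg_left pi_pos.le (by norm_num) h3
    linarith

theorem kc_pos {m : ℕ} (hm : m ≠ 1) (hm2 : m ≠ 2) : 0 < kc m := by
  unfold kc
  rcases Nat.eq_zero_or_pos m with h | h
  · subst h; simp
  · have h2 : 3 ≤ m := by omega
    have h3 : (3 : ℝ) ≤ m := by exact_mod_cast h2
    have : 0 < cos (π / m) := by
      apply cos_pos_of_mem_Ioo
      constructor
      · have : 0 ≤ π / m := by positivity
        linarith [pi_pos]
      · have : π / m ≤ π / 3 := div_le_div_of_nonneg_left pi_pos.le (by norm_num) h3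
        have := pi_pos
        linarith
    linarith

theorem sin_pi_div_pos {m : ℕ} (hm : 2 ≤ m) : 0 < sin (π / m) := by
  have h3 : (2 : ℝ) ≤ m := by exact_mod_cast hm
  apply sin_pos_of_pos_of_lt_pi
  · positivity
  · have : π / m ≤ π / 2 := div_le_div_of_nonneg_left pi_pos.le (by norm_num) h3
    have := pi_pos
    linarith

theorem Uc_kc_self {m : ℕ} (hm : 2 ≤ m) : Uc (kc m) m = 0 := by
  have h := sin_mul_Uc (π / m) m
  have hs := sin_pi_div_pos hm
  have hm0 : (m : ℝ) ≠ 0 := by positivity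
  rw [show (m : ℝ) * (π / m) = π by field_simp, sin_pi] at h
  exact (mul_eq_zero.mp h).resolve_left hs.ne'

theorem Uc_kc_pred {m : ℕ} (hm : 2 ≤ m) : Uc (kc m) (m - 1) = 1 := by
  have h := sin_mul_Uc (π / m) (m - 1)
  have hs := sin_pi_div_pos hm
  have hm0 : (m : ℝ) ≠ 0 := by positivity
  rw [Nat.cast_sub (by omega), show ((m : ℝ) - (1 : ℕ)) * (π / m) = π - π / m by
    push_cast; field_simp, sin_pi_sub] at h
  have : sin (π / m) * (Uc (2 * cos (π / m)) (m - 1) - 1) = 0 := by linarith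
  have h2 := (mul_eq_zero.mp this).resolve_left hs.ne'
  unfold kc
  linarith

theorem Uc_kc_pos {m n : ℕ} (hm : m ≠ 1) (hn : 0 < n) (hnm : m = 0 ∨ n < m) :
    0 < Uc (kc m) n := by
  rcases Nat.eq_zero_or_pos m with h | h
  · subst h
    rw [kc_zero, Uc_two_eq]
    exact_mod_cast hn
  · have h2 : 2 ≤ m := by omega
    have hnm' : n < m := by omega
    have h := sin_mul_Uc (π / m) n
    have hs := sin_pi_div_pos h2
    have hm0 : (0 : ℝ) < m := by positivity
    have hn0 : (0 : ℝ) < n := by exact_mod_cast hn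
    have hnm'' : (n : ℝ) < m := by exact_mod_cast hnm'
    have hp : 0 < sin (n * (π / m)) := by
      apply sin_pos_of_pos_of_lt_pi
      · positivity
      · rw [mul_div_assoc', div_lt_iff₀ hm0, mul_comm]
        exact mul_lt_mul_of_pos_left hnm'' pi_pos
    rw [← h] at hp
    exact (pos_iff_pos_of_mul_pos hp).mp hs

theorem Uc_kc_nonneg {m n : ℕ} (hm : m ≠ 1) (hnm : m = 0 ∨ n ≤ m) :
    0 ≤ Uc (kc m) n := by
  rcases Nat.eq_zero_or_pos n with h | h
  · subst h; simp
  · by_cases h2 : n = m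
    · subst h2
      rw [Uc_kc_self (by omega)]
    · exact (Uc_kc_pos hm h (by omega)).le

theorem kc_sq_lt {m : ℕ} (hm : 2 ≤ m) : (kc m) ^ 2 < 4 := by
  have hs := sin_pi_div_pos hm
  have := sin_sq_add_cos_sq (π / m)
  unfold kc
  nlinarith

end CxA
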