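import Mathlib
import Pool.Agent.helper52.Cox.Rank2

/-!
Generic rank one operators and the braid relation.
-/

namespace CxA

open Real

/-- alternating word starting with `a`, of length `k`. -/
def altw {B : Type*} (a b : B) : ℕ → List B
  | 0 => []
  | k + 1 => a :: altw b a k

@[simp] theorem altw_zero {B : Type*} (a b : B) : altw a b 0 = [] := rfl
theorem altw_succ {B : Type*} (a b : B) (k : ℕ) : altw a b (k + 1) = a :: altw b a k := rfl

@[simp] theorem length_altw {B : Type*} (a b : B) (k : ℕ) : (altw a b k).length = k := by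
  induction k generalizing a b with
  | zero => rfl
  | succ k ih => simp [altw_succ, ih]

/-- the letter following `altw a b k`. -/
def nxt {B : Type*} (a b : B) : ℕ → B
  | 0 => a
  | k + 1 => nxt b a k

theorem nxt_zero {B : Type*} (a b : B) : nxt a b 0 = a := rfl
theorem nxt_succ {B : Type*} (a b : B) (k : ℕ) : nxt a b (k + 1) = nxt b a k := rfl

theorem altw_concat {B : Type*} (a b : B) (k : ℕ) :
    altw a b (k + 1) = altw a b k ++ [nxt a b k] := by
  induction k generalizing a b with
  | zero => rfl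
  | succ k ih =>
    rw [altw_succ, ih b a, altw_succ, nxt_succ]
    rfl

theorem nxt_cases {B : Type*} (a b : B) (k : ℕ) :
    (nxt a b k = a ∧ nxt b a k = b) ∨ (nxt a b k = b ∧ nxt b a k = a) := by
  induction k generalizing a b with
  | zero => left; exact ⟨rfl, rfl⟩
  | succ k ih =>
    rw [nxt_succ, nxt_succ]
    rcases ih a b with h | h
    · right; exact ⟨h.2, h.1⟩
    · left; exact ⟨h.2, h.1⟩

theorem altw_add {B : Type*} (a b : B) (k l : ℕ) :
    altw a b (k + l) = altw a b k ++ altw (nxt a b k) (nxt b a k) l := by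
  induction k generalizing a b with
  | zero => simp [nxt_zero]
  | succ k ih =>
    rw [show k + 1 + l = (k + l) + 1 by ring, altw_succ, ih, altw_succ, nxt_succ, nxt_succ]
    rfl

theorem nxt_nxt {B : Type*} (a b : B) (k l : ℕ) :
    nxt (nxt a b k) (nxt b a k) l = nxt a b (k + l) := by
  induction k generalizing a b with
  | zero => simp [nxt_zero]
  | succ k ih =>
    rw [show k + 1 + l = (k + l) + 1 by ring, nxt_succ, nxt_succ, nxt_succ, ih]

/-- reverse of an alternating word -/
theorem altw_reverse {B : Type*} (a b : B) (k : ℕ) :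
    (altw a b (k + 1)).reverse = altw (nxt a b k) (nxt b a k) (k + 1) := by
  induction k generalizing a b with
  | zero => rfl
  | succ k ih =>
    rw [altw_succ, List.reverse_cons, ih b a, nxt_succ, nxt_succ,
      altw_concat (nxt b a k) (nxt a b k) (k + 1)]
    congr 2
    rw [nxt_nxt]
    rcases nxt_cases a b k with h | h
    · have : nxt b a (k + (k + 1)) = a := by
        have h2 := nxt_nxt b a k (k + 1)
        rw [h.1, h.2, nxt_succ, h.1] at h2
        exact h2.symm
      rw [this]
    · have : nxt b a (k + (k + 1)) = a := by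
        have h2 := nxt_nxt b a k (k + 1)
        rw [h.1, h.2, nxt_succ, h.2] at h2
        exact h2.symm
      rw [this]

section Mon

variable {G : Type*} [Monoid G] {B : Type*}

/-- product of `f` along a word -/
def wp (f : B → G) (l : List B) : G := (l.map f).prod

@[simp] theorem wp_nil (f : B → G) : wp f [] = 1 := rfl
@[simp] theorem wp_cons (f : B → G) (a : B) (l : List B) : wp f (a :: l) = f a * wp f l := by
  simp [wp]
theorem wp_append (f : B → G) (l l' : List B) : wp f (l ++ l') = wp f l * wp f l' := by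
  simp [wp]

theorem wp_concat (f : B → G) (l : List B) (a : B) : wp f (l ++ [a]) = wp f l * f a := by
  simp [wp]

theorem altw_pow_mul (f : B → G) (a b : B) (ha : f a * f a = 1) (hb : f b * f b = 1) (k : ℕ) :
    (f a * f b) ^ k * wp f (altw b a k) = wp f (altw a b k) := by
  induction k generalizing a b with
  | zero => simp
  | succ k ih =>
    rw [altw_succ, altw_succ, wp_cons, wp_cons, pow_succ]
    have h1 : (f a * f b) ^ k * (f a * f b) * (f b * wp f (altw a b k))
        = (f a * f b) ^ k * f a * (f b * f b) * wp f (altw a b k) := by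
      simp only [mul_assoc]
    rw [h1, hb, mul_one]
    have h2 : (f a * f b) ^ k * f a = f a * (f b * f a) ^ k := by
      clear ih h1
      induction k with
      | zero => simp
      | succ k ih =>
        rw [pow_succ, pow_succ, mul_assoc, mul_assoc, ← mul_assoc (f a) (f b) (f a), ]
        have : (f a * f b) ^ k * (f a * f b * f a) = ((f a * f b) ^ k * f a) * (f b * f a) := by
          simp only [mul_assoc]
        rw [this, ih, mul_assoc]
    rw [h2, mul_assoc, ih b a hb ha]

theorem wp_mul_reverse (f : B → G) (l : List B) (h : ∀ a ∈ l, f a * f a = 1) :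
    wp f l * wp f l.reverse = 1 := by
  induction l with
  | nil => simp
  | cons a l ih =>
    rw [List.reverse_cons, wp_append, wp_cons, wp_cons, wp_nil, mul_one]
    have : f a * wp f l * (wp f l.reverse * f a) = f a * (wp f l * wp f l.reverse) * f a := by
      simp only [mul_assoc]
    rw [this, ih (fun x hx => h x (List.mem_cons_of_mem _ hx)), mul_one,
      h a List.mem_cons_self]

theorem mem_altw {a b x : B} {k : ℕ} (h : x ∈ altw a b k) : x = a ∨ x = b := by
  induction k generalizing a b with
  | zero => simp at h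
  | succ k ih =>
    rw [altw_succ, List.mem_cons] at h
    rcases h with h | h
    · left; exact h
    · exact (ih h).symm

theorem pow_eq_one_of_braid (f : B → G) (a b : B) (ha : f a * f a = 1) (hb : f b * f b = 1)
    (m : ℕ) (h : wp f (altw a b m) = wp f (altw b a m)) : (f a * f b) ^ m = 1 := by
  have h1 := altw_pow_mul f a b ha hb m
  rw [h] at h1
  have h2 := wp_mul_reverse f (altw b a m) (by
    intro x hx
    rcases mem_altw hx with h | h <;> rw [h]
    · exact hb
    · exact ha)
  calc (f a * f b) ^ m = (f a * f b) ^ m * (wp f (altw b a m) * wp f (altw b a m).reverse) := by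
        rw [h2, mul_one]
    _ = ((f a * f b) ^ m * wp f (altw b a m)) * wp f (altw b a m).reverse := by
        rw [mul_assoc]
    _ = 1 := by rw [h1, h2]

end Mon

section Op

variable {R : Type*} [CommRing R] [Algebra ℝ R] {B : Type*} [Fintype B] [DecidableEq B]

/-- the simple vector -/
def al (R : Type*) [CommRing R] {B : Type*} [DecidableEq B] (s : B) : B → R := Pi.single s 1

/-- linear form attached to a row of `K` -/
def rowf (K : B → B → R) (p : B) : (B → R) →ₗ[R] R :=
  ∑ t, (K p t) • LinearMap.proj t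

theorem rowf_apply (K : B → B → R) (p : B) (v : B → R) : rowf K p v = ∑ t, K p t * v t := by
  simp [rowf]

@[simp] theorem rowf_al (K : B → B → R) (p s : B) : rowf K p (al R s) = K p s := by
  rw [rowf_apply, Finset.sum_eq_single s]
  · simp [al]
  · intro b _ hb; simp [al, hb]
  · simp

/-- the operator `v ↦ v + K_p(v) α_p`. -/
def opK (K : B → B → R) (p : B) : Module.End R (B → R) :=
  LinearMap.id + (rowf K p).smulRight (al R p)

theorem opK_apply (K : B → B → R) (p : B) (v : B → R) :
    opK K p v = v + rowf K p v • al R p := by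
  simp [opK]

theorem opK_al (K : B → B → R) (p s : B) : opK K p (al R s) = al R s + K p s • al R p := by
  rw [opK_apply, rowf_al]

/-- compatibility of a family of vectors `v` with the operators for the ordered pair `(s, t)`. -/
def PairRel (K : B → B → R) (κ : ℝ) (a : R) (v : B → (B → R)) (s t : B) : Prop :=
  opK K s (v s) = -(a ^ 2) • v s ∧ opK K s (v t) = v t + (algebraMap ℝ R κ * a) • v s

/-- alternating formula -/
theorem opK_alt_formula (K : B → B → R) (κ : ℝ) (a : R) (v : B → (B → R)) (k : ℕ) (s t : B)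
    (hs : PairRel K κ a v s t) (ht : PairRel K κ a v t s) :
    wp (opK K) (altw s t (k + 1)) (v (nxt s t (k + 1)))
      = (a ^ (k + 1) * algebraMap ℝ R (Uc κ (k + 2))) • v s
        + (a ^ k * algebraMap ℝ R (Uc κ (k + 1))) • v t := by
  induction k generalizing s t with
  | zero =>
    simp only [altw_succ, altw_zero, nxt_succ, nxt_zero, wp_cons, wp_nil, mul_one]
    rw [hs.2]
    simp only [Uc_add_two, Uc_one, Uc_zero, zero_add, mul_one, sub_zero, pow_one, pow_zero,
      map_one, one_smul]
    rw [add_comm, mul_comm]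
  | succ k ih =>
    rw [altw_succ, nxt_succ, wp_cons, Module.End.mul_apply, ih t s ht hs, map_add, map_smul,
      map_smul, hs.1, hs.2, Uc_add_two κ (k + 1)]
    simp only [smul_add, smul_smul, map_sub, map_mul]
    rw [add_comm (_ • v t) _, add_assoc, add_comm (_ • v t) _, ← add_assoc, ← add_smul]
    congr 1
    congr 1
    ring

theorem opK_alt_zero (K : B → B → R) (κ : ℝ) (a : R) (v : B → (B → R)) (m : ℕ) (s t : B)
    (hs : PairRel K κ a v s t) (ht : PairRel K κ a v t s) (hm2 : 2 ≤ m)
    (h0 : Uc κ m = 0) (h1 : Uc κ (m - 1) = 1) :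
    wp (opK K) (altw s t (m - 1)) (v (nxt s t (m - 1))) = a ^ (m - 2) • v t := by
  obtain ⟨k, rfl⟩ : ∃ k, m = k + 2 := ⟨m - 2, by omega⟩
  have h1' : Uc κ (k + 1) = 1 := h1
  have := opK_alt_formula K κ a v k s t hs ht
  simpa [h0, h1'] using this

/-- braid relation evaluated on the vector `v s'` with `s'` the last letter. -/
theorem opK_braid_aux (K : B → B → R) (κ : ℝ) (a : R) (v : B → (B → R)) (m : ℕ) (s t : B)
    (hs : PairRel K κ a v s t) (ht : PairRel K κ a v t s) (hm2 : 2 ≤ m)
    (h0 : Uc κ m = 0) (h1 : Uc κ (m - 1) = 1) :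
    wp (opK K) (altw s t m) (v (nxt s t m)) = wp (opK K) (altw t s m) (v (nxt s t m)) := by
  obtain ⟨k, rfl⟩ : ∃ k, m = k + 2 := ⟨m - 2, by omega⟩
  have h1' : Uc κ (k + 1) = 1 := h1
  have e1 : wp (opK K) (altw s t (k + 2)) (v (nxt s t (k + 2))) = -(a ^ (k + 2)) • v s := by
    rw [altw_succ, nxt_succ, wp_cons, Module.End.mul_apply]
    have := opK_alt_zero K κ a v (k + 2) t s ht hs hm2 h0 h1
    have e : k + 2 - 1 = k + 1 := rfl
    rw [e] at this
    rw [this, map_smul, hs.1, smul_smul]
    congr 1
    have : k + 2 - 2 = k := rfl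
    rw [this]
    ring
  have e2 : wp (opK K) (altw t s (k + 2)) (v (nxt s t (k + 2))) = -(a ^ (k + 2)) • v s := by
    rw [altw_concat, wp_concat, Module.End.mul_apply, nxt_succ s t (k + 1)]
    have hn : opK K (nxt t s (k + 1)) (v (nxt t s (k + 1))) = -(a ^ 2) • v (nxt t s (k + 1)) := by
      rcases nxt_cases t s (k + 1) with h | h
      · rw [h.1]; exact ht.1
      · rw [h.1]; exact hs.1
    rw [hn, map_smul]
    have := opK_alt_zero K κ a v (k + 2) t s ht hs hm2 h0 h1
    have e : k + 2 - 1 = k + 1 := rfl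
    rw [e] at this
    rw [this, smul_smul]
    congr 1
    have : k + 2 - 2 = k := rfl
    rw [this]
    ring
  rw [e1, e2]

theorem opK_braid_aux2 (K : B → B → R) (κ : ℝ) (a : R) (v : B → (B → R)) (m : ℕ) (s t : B)
    (hs : PairRel K κ a v s t) (ht : PairRel K κ a v t s) (hm2 : 2 ≤ m)
    (h0 : Uc κ m = 0) (h1 : Uc κ (m - 1) = 1) :
    wp (opK K) (altw s t m) (v s) = wp (opK K) (altw t s m) (v s) ∧
    wp (opK K) (altw s t m) (v t) = wp (opK K) (altw t s m) (v t) := by
  have e1 := opK_braid_aux K κ a v m s t hs ht hm2 h0 h1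
  have e2 := opK_braid_aux K κ a v m t s ht hs hm2 h0 h1
  rcases nxt_cases s t m with h | h
  · rw [h.1] at e1
    rw [h.2] at e2
    exact ⟨e1, e2.symm⟩
  · rw [h.1] at e1
    rw [h.2] at e2
    exact ⟨e2.symm, e1⟩

theorem wp_opK_fix (K : B → B → R) (l : List B) (z : B → R) (h : ∀ p ∈ l, rowf K p z = 0) :
    wp (opK K) l z = z := by
  induction l with
  | nil => simp
  | cons p l ih =>
    rw [wp_cons, Module.End.mul_apply, ih (fun x hx => h x (List.mem_cons_of_mem _ hx)),
      opK_apply, h p List.mem_cons_self, zero_smul, add_zero]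

/-- the braid relation -/
theorem opK_braid [IsDomain R] (K : B → B → R) (κ : ℝ) (a cs ct : R) (m : ℕ) (s t : B)
    (hst : s ≠ t)
    (hcs : cs ≠ 0) (hct : ct ≠ 0)
    (hKs : K s s = -(1 + a ^ 2)) (hKt : K t t = -(1 + a ^ 2))
    (hKst : K s t * ct = algebraMap ℝ R κ * a * cs)
    (hKts : K t s * cs = algebraMap ℝ R κ * a * ct)
    (hdet : (1 + a ^ 2) ^ 2 - (algebraMap ℝ R κ * a) ^ 2 ≠ 0) (hm2 : 2 ≤ m)
    (h0 : Uc κ m = 0) (h1 : Uc κ (m - 1) = 1) :
    wp (opK K) (altw s t m) = wp (opK K) (altw t s m) := by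
  obtain ⟨v, hvs, hvt⟩ : ∃ v : B → (B → R), v s = cs • al R s ∧ v t = ct • al R t :=
    ⟨fun b => (if b = s then cs else ct) • al R b, by simp, by simp [hst.symm]⟩
  have hs : PairRel K κ a v s t := by
    refine ⟨?_, ?_⟩
    · rw [hvs, map_smul, opK_al, hKs, smul_add, smul_smul, smul_smul, ← add_smul]
      congr 1; ring
    · rw [hvs, hvt, map_smul, opK_al, smul_add, smul_smul, smul_smul, mul_comm ct, hKst]
  have ht : PairRel K κ a v t s := by
    refine ⟨?_, ?_⟩
    · rw [hvt, map_smul, opK_al, hKt, smul_add, smul_smul, smul_smul, ← add_smul]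
      congr 1; ring
    · rw [hvs, hvt, map_smul, opK_al, smul_add, smul_smul, smul_smul, mul_comm cs, hKts]
  obtain ⟨e1, e2⟩ := opK_braid_aux2 K κ a v m s t hs ht hm2 h0 h1
  apply LinearMap.ext
  intro x
  -- decompose a multiple of `x`
  obtain ⟨D, hD⟩ : ∃ D, D = cs * ct * ((1 + a ^ 2) ^ 2 - (algebraMap ℝ R κ * a) ^ 2) :=
    ⟨_, rfl⟩
  have hD0 : D ≠ 0 := by rw [hD]; exact mul_ne_zero (mul_ne_zero hcs hct) hdet
  obtain ⟨fs, hfs⟩ : ∃ fs, fs = rowf K s x := ⟨_, rfl⟩
  obtain ⟨ft, hft⟩ : ∃ ft, ft = rowf K t x := ⟨_, rfl⟩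
  -- coefficients
  obtain ⟨c, hc⟩ : ∃ c, c = ct * (1 + a ^ 2) * fs + K s t * ct * ft := ⟨_, rfl⟩
  obtain ⟨d, hd⟩ : ∃ d, d = cs * (1 + a ^ 2) * ft + K t s * cs * fs := ⟨_, rfl⟩
  obtain ⟨z, hz⟩ : ∃ z, z = D • x + (c • v s + d • v t) := ⟨_, rfl⟩
  have hzs : rowf K s z = 0 := by
    rw [hz, map_add, map_add, map_smul, map_smul, map_smul, hvs, hvt, map_smul, map_smul,
      rowf_al, rowf_al, hKs, ← hfs]
    simp only [smul_eq_mul]
    rw [hc, hd, hD]
    have e3 : K s t * ct * (K t s * cs) = (algebraMap ℝ R κ * a) ^ 2 * (cs * ct) := by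
      rw [hKst, hKts]; ring
    linear_combination fs * e3
  have hzt : rowf K t z = 0 := by
    rw [hz, map_add, map_add, map_smul, map_smul, map_smul, hvs, hvt, map_smul, map_smul,
      rowf_al, rowf_al, hKt, ← hft]
    simp only [smul_eq_mul]
    rw [hc, hd, hD]
    have e3 : K s t * ct * (K t s * cs) = (algebraMap ℝ R κ * a) ^ 2 * (cs * ct) := by
      rw [hKst, hKts]; ring
    linear_combination ft * e3
  have hz1 : wp (opK K) (altw s t m) z = z := wp_opK_fix K _ z (by
    intro p hp
    rcases mem_altw hp with h | h <;> rw [h]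
    · exact hzs
    · exact hzt)
  have hz2 : wp (opK K) (altw t s m) z = z := wp_opK_fix K _ z (by
    intro p hp
    rcases mem_altw hp with h | h <;> rw [h]
    · exact hzt
    · exact hzs)
  have hx : D • x = z - (c • v s + d • v t) := by rw [hz]; abel
  have key : D • wp (opK K) (altw s t m) x = D • wp (opK K) (altw t s m) x := by
    rw [← map_smul, ← map_smul, hx, map_sub, map_sub, hz1, hz2, map_add, map_add, map_smul,
      map_smul, map_smul, map_smul, e1, e2]
  funext b
  have := congrFun key b
  simp only [Pi.smul_apply, smul_eq_mul] at this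
  exact mul_left_cancel₀ hD0 this

end Op

end CxA
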