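import Mathlib
import Pool.Agent.helper52.Cox.Oper

/-!
The geometric representation of a Coxeter group, sign of roots and descents.
-/

namespace CxA

open Real CoxeterSystem

variable {B : Type*} [Fintype B] [DecidableEq B] {W : Type*} [Group W] {M : CoxeterMatrix B}
  (cs : CoxeterSystem M W)

omit [Fintype B] [DecidableEq B] in
theorem altw_reverse_eq (a b : B) (k : ℕ) : (altw a b k).reverse = alternatingWord b a k := by
  induction k generalizing a b with
  | zero => rfl
  | succ k ih =>
    rw [altw_succ, List.reverse_cons, ih b a, alternatingWord_succ]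
    simp

omit [Fintype B] [DecidableEq B] in
theorem wordProd_altw_inv (a b : B) (k : ℕ) :
    (cs.wordProd (altw a b k))⁻¹ = cs.wordProd (alternatingWord b a k) := by
  rw [← altw_reverse_eq, cs.wordProd_reverse]

omit [Fintype B] [DecidableEq B] in
theorem wordProd_altw_braid (a b : B) :
    cs.wordProd (altw a b (M a b)) = cs.wordProd (altw b a (M a b)) := by
  have h := cs.wordProd_braidWord_eq b a
  unfold braidWord at h
  rw [M.symmetric b a, ← wordProd_altw_inv, ← wordProd_altw_inv] at h
  exact inv_injective h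

omit [Fintype B] [DecidableEq B] in
theorem le_of_isReduced_altw {a b : B} {k : ℕ} (h : cs.IsReduced (altw a b k))
    (hM : M a b ≠ 0) : k ≤ M a b := by
  by_contra hk
  have h1 := cs.not_isReduced_alternatingWord b a (m := k) (by rwa [M.symmetric])
    (by rw [M.symmetric]; omega)
  rw [← altw_reverse_eq, cs.isReduced_reverse_iff] at h1
  exact h1 h

omit [Fintype B] [DecidableEq B] in
theorem wordProd_eq_wp (l : List B) : cs.wordProd l = wp cs.simple l := rfl

omit [Fintype B] [DecidableEq B] in
theorem M_ne_one {s t : B} (h : s ≠ t) : M s t ≠ 1 := M.off_diagonal s t h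

/-- real Coxeter constants, `-2` on the diagonal. -/
noncomputable def Kre (M : CoxeterMatrix B) (s t : B) : ℝ := kc (M s t)

omit [Fintype B] [DecidableEq B] in
theorem Kre_self (s : B) : Kre M s s = -2 := by
  unfold Kre; rw [M.diagonal, kc_one]

omit [Fintype B] [DecidableEq B] in
theorem Kre_symm (s t : B) : Kre M s t = Kre M t s := by
  unfold Kre; rw [M.symmetric]

omit [Fintype B] [DecidableEq B] in
theorem Kre_nonneg {s t : B} (h : s ≠ t) : 0 ≤ Kre M s t := kc_nonneg (M_ne_one h)

/-- the simple reflection of the geometric representation. -/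
noncomputable def sig (M : CoxeterMatrix B) (p : B) : Module.End ℝ (B → ℝ) := opK (Kre M) p

theorem sig_sq (p : B) : sig M p * sig M p = 1 := by
  apply LinearMap.ext
  intro v
  simp only [sig, Module.End.mul_apply, Module.End.one_apply]
  rw [opK_apply, opK_apply, map_add, map_smul, rowf_al, Kre_self, add_assoc, ← add_smul]
  simp only [smul_eq_mul]
  rw [show rowf (Kre M) p v + (rowf (Kre M) p v + rowf (Kre M) p v * -2) = 0 by ring, zero_smul,
    add_zero]

theorem sig_pairRel {s t : B} :
    PairRel (Kre M) (kc (M s t)) (1 : ℝ) (al ℝ) s t := by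
  refine ⟨?_, ?_⟩
  · rw [opK_al, Kre_self]
    module
  · rw [opK_al]
    simp [Kre]

theorem sig_liftable : M.IsLiftable (sig M) := by
  intro s t
  by_cases hst : s = t
  · subst hst
    rw [M.diagonal, sig_sq, one_pow]
  · rcases Nat.eq_zero_or_pos (M s t) with h | h
    · rw [h, pow_zero]
    · have h2 : 2 ≤ M s t := by have := M_ne_one (M := M) hst; omega
      apply pow_eq_one_of_braid
      · exact sig_sq s
      · exact sig_sq t
      · apply opK_braid (R := ℝ) (Kre M) (kc (M s t)) 1 1 1 (M s t) s t hst one_ne_zero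
          one_ne_zero
        · rw [Kre_self]; norm_num
        · rw [Kre_self]; norm_num
        · simp [Kre]
        · simp [Kre, M.symmetric t s]
        · have := kc_sq_lt h2
          simp only [Algebra.algebraMap_self, RingHom.id_apply]
          nlinarith
        · exact h2
        · exact Uc_kc_self h2
        · exact Uc_kc_pred h2

/-- the geometric representation -/
noncomputable def rho : W →* Module.End ℝ (B → ℝ) := cs.lift ⟨sig M, sig_liftable⟩

@[simp] theorem rho_simple (s : B) : rho cs (cs.simple s) = sig M s :=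
  cs.lift_apply_simple sig_liftable s

theorem rho_wordProd (l : List B) : rho cs (cs.wordProd l) = wp (sig M) l := by
  induction l with
  | nil => simp
  | cons a l ih => rw [cs.wordProd_cons, map_mul, ih, rho_simple, wp_cons]

theorem rho_mul_apply (u v : W) (x : B → ℝ) : rho cs (u * v) x = rho cs u (rho cs v x) := by
  rw [map_mul]; rfl

theorem rho_one_apply (x : B → ℝ) : rho cs 1 x = x := by
  rw [map_one]; rfl

theorem rho_inv_apply (u : W) (x : B → ℝ) : rho cs u⁻¹ (rho cs u x) = x := by
  rw [← rho_mul_apply, inv_mul_cancel, rho_one_apply]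

theorem rho_apply_inv (u : W) (x : B → ℝ) : rho cs u (rho cs u⁻¹ x) = x := by
  rw [← rho_mul_apply, mul_inv_cancel, rho_one_apply]

theorem rho_injective (u : W) : Function.Injective (rho cs u) := by
  intro x y h
  rw [← rho_inv_apply cs u x, h, rho_inv_apply]

theorem sig_al_self (s : B) : sig M s (al ℝ s) = -al ℝ s := by
  unfold sig
  rw [opK_al, Kre_self]
  module

theorem sig_al (s t : B) : sig M s (al ℝ t) = al ℝ t + Kre M s t • al ℝ s := by
  unfold sig
  rw [opK_al]

omit [Fintype B] [DecidableEq B] in
/-- descending process. -/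
theorem descending (n : ℕ) : ∀ (w : W) (s t : B), cs.length w = n → s ≠ t →
    ¬ cs.IsRightDescent w s →
    ∃ (v : W) (k : ℕ) (a b : B), ((a = s ∧ b = t) ∨ (a = t ∧ b = s)) ∧ nxt a b k = s ∧
      w = v * cs.wordProd (altw a b k) ∧ cs.length w = cs.length v + k ∧
      ¬ cs.IsRightDescent v s ∧ ¬ cs.IsRightDescent v t := by
  induction n with
  | zero =>
    intro w s t hw hst hs
    have : w = 1 := cs.length_eq_zero_iff.mp hw
    subst this
    exact ⟨1, 0, s, t, Or.inl ⟨rfl, rfl⟩, rfl, by simp, by simp, hs,
      cs.not_isRightDescent_one t⟩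
  | succ n ih =>
    intro w s t hw hst hs
    by_cases ht : cs.IsRightDescent w t
    · have h1 : cs.length (w * cs.simple t) = n := by
        have := cs.isRightDescent_iff.mp ht
        omega
      have h2 : ¬ cs.IsRightDescent (w * cs.simple t) t :=
        cs.isRightDescent_iff_not_isRightDescent_mul.mp ht
      obtain ⟨v, k, a, b, hab, hn, hwv, hl, hvt, hvs⟩ := ih (w * cs.simple t) t s h1 hst.symm h2
      refine ⟨v, k + 1, a, b, hab.symm, ?_, ?_, ?_, hvs, hvt⟩
      · rw [nxt_succ]
        rcases nxt_cases a b k with h | h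
        · rw [h.2]
          rw [h.1] at hn
          rcases hab with ⟨h3, h4⟩ | ⟨h3, h4⟩
          · exact h4
          · exact absurd (h3.symm.trans hn) hst
        · rw [h.2]
          rw [h.1] at hn
          rcases hab with ⟨h3, h4⟩ | ⟨h3, h4⟩
          · exact absurd (h4.symm.trans hn) hst
          · exact h3
      · rw [altw_concat, cs.wordProd_append, ← mul_assoc, ← hwv, hn]
        simp
      · rw [h1] at hl
        omega
    · exact ⟨w, 0, s, t, Or.inl ⟨rfl, rfl⟩, rfl, by simp, by simp, hs, ht⟩

theorem kc_comm {s t a b : B} (hab : (a = s ∧ b = t) ∨ (a = t ∧ b = s)) : M a b = M s t := by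
  rcases hab with ⟨rfl, rfl⟩ | ⟨rfl, rfl⟩
  · rfl
  · exact M.symmetric _ _

/-- the action of an alternating word -/
theorem rho_altw (a b : B) (k : ℕ) :
    rho cs (cs.wordProd (altw a b (k + 1))) (al ℝ (nxt a b (k + 1)))
      = Uc (kc (M a b)) (k + 2) • al ℝ a + Uc (kc (M a b)) (k + 1) • al ℝ b := by
  rw [rho_wordProd]
  have h := opK_alt_formula (R := ℝ) (Kre M) (kc (M a b)) 1 (al ℝ) k a b sig_pairRel (by
    rw [M.symmetric a b]; exact sig_pairRel)
  rw [one_pow, one_mul, one_pow, one_mul] at h
  exact h

theorem rho_altw_nonneg {a b : B} (hab : a ≠ b) (k : ℕ) (hk : M a b = 0 ∨ k + 1 ≤ M a b) :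
    ∃ c d : ℝ, 0 ≤ c ∧ 0 ≤ d ∧
    rho cs (cs.wordProd (altw a b k)) (al ℝ (nxt a b k)) = c • al ℝ a + d • al ℝ b := by
  cases k with
  | zero =>
    refine ⟨1, 0, zero_le_one, le_refl _, ?_⟩
    simp [nxt_zero]
  | succ k =>
    refine ⟨_, _, ?_, ?_, rho_altw cs a b k⟩
    · exact Uc_kc_nonneg (M_ne_one hab) (by omega)
    · exact Uc_kc_nonneg (M_ne_one hab) (by omega)

/-- positivity of roots -/
theorem rho_nonneg_aux (n : ℕ) : ∀ (w : W) (s : B), cs.length w = n →
    ¬ cs.IsRightDescent w s → ∀ b, 0 ≤ rho cs w (al ℝ s) b := by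
  induction n using Nat.strong_induction_on with
  | _ n ih =>
    intro w s hw hs
    by_cases hw1 : w = 1
    · subst hw1
      intro b
      rw [rho_one_apply]
      unfold al
      by_cases hb : b = s
      · subst hb; simp
      · simp [hb]
    · obtain ⟨t, ht⟩ := cs.exists_rightDescent_of_ne_one hw1
      have hst : s ≠ t := by rintro rfl; exact hs ht
      obtain ⟨v, k, a, b, hab, hn, hwv, hl, hvs, hvt⟩ := descending cs n w s t hw hst hs
      have hk0 : k ≠ 0 := by
        rintro rfl
        rw [altw_zero, cs.wordProd_nil, mul_one] at hwv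
        exact hvt (hwv ▸ ht)
      have habne : a ≠ b := by
        rcases hab with ⟨rfl, rfl⟩ | ⟨rfl, rfl⟩
        · exact hst
        · exact hst.symm
      -- reducedness of the alternating word
      have hred : cs.IsReduced (altw a b k) := by
        unfold CoxeterSystem.IsReduced
        apply le_antisymm (cs.length_wordProd_le _)
        have h1 := cs.length_mul_le v (cs.wordProd (altw a b k))
        rw [← hwv, hl] at h1
        rw [length_altw]
        omega
      have hkM : M a b = 0 ∨ k + 1 ≤ M a b := by
        by_contra hcon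
        push Not at hcon
        have h1 := le_of_isReduced_altw cs hred hcon.1
        have hk : k = M a b := by omega
        have h2 : w = v * cs.wordProd (altw b a k) := by
          rw [hwv, hk, wordProd_altw_braid]
        obtain ⟨j, rfl⟩ : ∃ j, k = j + 1 := ⟨k - 1, by omega⟩
        rw [altw_concat b a j, cs.wordProd_append, ← nxt_succ a b j, hn, cs.wordProd_singleton,
          ← mul_assoc] at h2
        apply hs
        unfold IsRightDescent
        rw [h2, cs.simple_mul_simple_cancel_right, ← h2, hl]
        have h3 := cs.length_mul_le v (cs.wordProd (altw b a j))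
        have h4 := cs.length_wordProd_le (altw b a j)
        rw [length_altw] at h4
        omega
      obtain ⟨c, d, hc, hd, hcd⟩ := rho_altw_nonneg cs habne k hkM
      intro x
      rw [hwv, rho_mul_apply]
      rw [hn] at hcd
      rw [hcd, map_add, map_smul, map_smul, Pi.add_apply, Pi.smul_apply, Pi.smul_apply,
        smul_eq_mul, smul_eq_mul]
      have hvlt : cs.length v < n := by omega
      have hva : ¬ cs.IsRightDescent v a := by
        rcases hab with ⟨rfl, rfl⟩ | ⟨rfl, rfl⟩
        · exact hvs
        · exact hvt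
      have hvb : ¬ cs.IsRightDescent v b := by
        rcases hab with ⟨rfl, rfl⟩ | ⟨rfl, rfl⟩
        · exact hvt
        · exact hvs
      have := ih _ hvlt v a rfl hva x
      have := ih _ hvlt v b rfl hvb x
      positivity

theorem rho_nonneg {w : W} {s : B} (h : ¬ cs.IsRightDescent w s) (b : B) :
    0 ≤ rho cs w (al ℝ s) b := rho_nonneg_aux cs _ w s rfl h b

theorem rho_nonpos {w : W} {s : B} (h : cs.IsRightDescent w s) (b : B) :
    rho cs w (al ℝ s) b ≤ 0 := by
  have h1 := rho_nonneg cs (cs.isRightDescent_iff_not_isRightDescent_mul.mp h) b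
  rw [rho_mul_apply, rho_simple, sig_al_self, map_neg, Pi.neg_apply] at h1
  linarith

theorem al_ne_zero (s : B) : al ℝ s ≠ 0 := by
  intro h
  have := congrFun h s
  simp [al] at this

theorem rho_al_ne_zero (w : W) (s : B) : rho cs w (al ℝ s) ≠ 0 := by
  intro h
  apply al_ne_zero s
  apply rho_injective cs w
  rw [h, map_zero]

theorem not_descent_iff_nonneg {w : W} {s : B} :
    ¬ cs.IsRightDescent w s ↔ ∀ b, 0 ≤ rho cs w (al ℝ s) b := by
  constructor
  · exact fun h => rho_nonneg cs h
  · intro h h2
    apply rho_al_ne_zero cs w s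
    funext b
    exact le_antisymm (rho_nonpos cs h2 b) (h b)

theorem descent_iff_nonpos {w : W} {s : B} :
    cs.IsRightDescent w s ↔ ∀ b, rho cs w (al ℝ s) b ≤ 0 := by
  constructor
  · exact fun h => rho_nonpos cs h
  · intro h
    by_contra h2
    apply rho_al_ne_zero cs w s
    funext b
    exact le_antisymm (h b) (rho_nonneg cs h2 b)

/-- polygon decomposition on the right -/
theorem right_polygon {w : W} {s t : B} (hst : s ≠ t) (hs : cs.IsRightDescent w s)
    (ht : cs.IsRightDescent w t) :
    M s t ≠ 0 ∧ ∃ v : W, w = v * cs.wordProd (altw s t (M s t)) ∧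
      cs.length w = cs.length v + M s t ∧ ¬ cs.IsRightDescent v s ∧ ¬ cs.IsRightDescent v t := by
  obtain ⟨v, k, a, b, hab, hn, hwv, hl, hvs, hvt⟩ := descending cs _ (w * cs.simple s) s t rfl hst
    (cs.isRightDescent_iff_not_isRightDescent_mul.mp hs)
  have hMab : M a b = M s t := kc_comm hab
  have habne : a ≠ b := by
    rcases hab with ⟨rfl, rfl⟩ | ⟨rfl, rfl⟩
    · exact hst
    · exact hst.symm
  have hw2 : w = v * cs.wordProd (altw a b (k + 1)) := by
    rw [altw_concat, cs.wordProd_append, ← mul_assoc, ← hwv, hn]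
    simp
  have hl2 : cs.length w = cs.length v + (k + 1) := by
    have := cs.isRightDescent_iff.mp hs
    omega
  have hred : cs.IsReduced (altw a b (k + 1)) := by
    unfold CoxeterSystem.IsReduced
    apply le_antisymm (cs.length_wordProd_le _)
    have h1 := cs.length_mul_le v (cs.wordProd (altw a b (k + 1)))
    rw [← hw2, hl2] at h1
    rw [length_altw]
    omega
  have hnt : nxt a b (k + 1) = t := by
    rw [nxt_succ]
    rcases nxt_cases a b k with h | h
    · rw [h.2]
      rw [h.1] at hn
      rcases hab with ⟨h3, h4⟩ | ⟨h3, h4⟩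
      · exact h4
      · exact absurd (h3.symm.trans hn) hst.symm
    · rw [h.2]
      rw [h.1] at hn
      rcases hab with ⟨h3, h4⟩ | ⟨h3, h4⟩
      · exact absurd (h4.symm.trans hn) hst.symm
      · exact h3
  have hva : ¬ cs.IsRightDescent v a := by
    rcases hab with ⟨rfl, rfl⟩ | ⟨rfl, rfl⟩
    · exact hvs
    · exact hvt
  have hvb : ¬ cs.IsRightDescent v b := by
    rcases hab with ⟨rfl, rfl⟩ | ⟨rfl, rfl⟩
    · exact hvt
    · exact hvs
  have hkM : M a b ≠ 0 ∧ k + 1 = M a b := by
    by_contra hcon
    have hk : M a b = 0 ∨ (k + 1) + 1 ≤ M a b := by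
      by_cases h0 : M a b = 0
      · left; exact h0
      · right
        have := le_of_isReduced_altw cs hred h0
        have : k + 1 ≠ M a b := fun h => hcon ⟨h0, h⟩
        omega
    obtain ⟨c, d, hc, hd, hcd⟩ := rho_altw_nonneg cs habne (k + 1) hk
    apply (not_descent_iff_nonneg cs (w := w) (s := t)).mpr _ ht
    intro x
    rw [hw2, rho_mul_apply]
    rw [hnt] at hcd
    rw [hcd, map_add, map_smul, map_smul, Pi.add_apply, Pi.smul_apply, Pi.smul_apply,
      smul_eq_mul, smul_eq_mul]
    have := rho_nonneg cs hva x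
    have := rho_nonneg cs hvb x
    positivity
  refine ⟨hMab ▸ hkM.1, v, ?_, ?_, hvs, hvt⟩
  · rw [hw2, hkM.2]
    rcases hab with ⟨rfl, rfl⟩ | ⟨rfl, rfl⟩
    · rfl
    · rw [wordProd_altw_braid, M.symmetric a b]
  · rw [hl2, hkM.2, hMab]

/-- lengths along a polygon -/
theorem length_mul_altw {v : W} {s t : B} (hst : s ≠ t) (hs : ¬ cs.IsRightDescent v s)
    (ht : ¬ cs.IsRightDescent v t) (k : ℕ) (hk : M s t = 0 ∨ k ≤ M s t) :
    cs.length (v * cs.wordProd (altw s t k)) = cs.length v + k := by
  induction k with
  | zero => simp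
  | succ k ih =>
    have h1 := ih (by omega)
    have h2 : ¬ cs.IsRightDescent (v * cs.wordProd (altw s t k)) (nxt s t k) := by
      rw [not_descent_iff_nonneg]
      intro x
      obtain ⟨c, d, hc, hd, hcd⟩ := rho_altw_nonneg cs hst k hk
      rw [rho_mul_apply, hcd, map_add, map_smul, map_smul, Pi.add_apply, Pi.smul_apply,
        Pi.smul_apply, smul_eq_mul, smul_eq_mul]
      have := rho_nonneg cs hs x
      have := rho_nonneg cs ht x
      positivity
    rw [cs.not_isRightDescent_iff] at h2
    rw [altw_concat, cs.wordProd_append, ← mul_assoc, cs.wordProd_singleton, h2, h1]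
    ring

theorem isReduced_altw {s t : B} (hst : s ≠ t) (k : ℕ) (hk : M s t = 0 ∨ k ≤ M s t) :
    cs.IsReduced (altw s t k) := by
  have := length_mul_altw cs (v := 1) hst (cs.not_isRightDescent_one s)
    (cs.not_isRightDescent_one t) k hk
  rw [one_mul, cs.length_one, zero_add] at this
  unfold CoxeterSystem.IsReduced
  rw [this, length_altw]

end CxA
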