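import Mathlib
import Pool.Agent.helper52.Cox.Geom

/-!
Invariant form, faithfulness, exchange lemmas, Matsumoto's theorem.
-/

namespace CxA

open Real CoxeterSystem

section Form

variable {B : Type*} [Fintype B] [DecidableEq B] {W : Type*} [Group W] {M : CoxeterMatrix B}
  (cs : CoxeterSystem M W)

/-- twice the invariant form -/
noncomputable def bil (M : CoxeterMatrix B) (u v : B → ℝ) : ℝ := -∑ s, u s * rowf (Kre M) s v

theorem bil_symm (u v : B → ℝ) : bil M u v = bil M v u := by
  unfold bil
  simp only [rowf_apply, Finset.mul_sum]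
  rw [Finset.sum_comm]
  congr 1
  apply Finset.sum_congr rfl
  intro s _
  apply Finset.sum_congr rfl
  intro t _
  rw [Kre_symm t s]
  ring

theorem bil_al_left (s : B) (v : B → ℝ) : bil M (al ℝ s) v = -rowf (Kre M) s v := by
  unfold bil
  rw [Finset.sum_eq_single s]
  · simp [al]
  · intro b _ hb; simp [al, hb]
  · simp

theorem bil_add_right (u v w : B → ℝ) : bil M u (v + w) = bil M u v + bil M u w := by
  unfold bil
  simp only [map_add, mul_add, Finset.sum_add_distrib]
  ring

theorem bil_smul_right (u : B → ℝ) (c : ℝ) (v : B → ℝ) : bil M u (c • v) = c * bil M u v := by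
  unfold bil
  simp only [map_smul, smul_eq_mul]
  rw [mul_neg, Finset.mul_sum]
  congr 1
  apply Finset.sum_congr rfl
  intro s _
  ring

theorem bil_add_left (u v w : B → ℝ) : bil M (u + v) w = bil M u w + bil M v w := by
  rw [bil_symm, bil_add_right, bil_symm w u, bil_symm w v]

theorem bil_smul_left (u : B → ℝ) (c : ℝ) (v : B → ℝ) : bil M (c • u) v = c * bil M u v := by
  rw [bil_symm, bil_smul_right, bil_symm]

theorem sig_eq (p : B) (v : B → ℝ) : sig M p v = v + (-bil M (al ℝ p) v) • al ℝ p := by
  unfold sig
  rw [opK_apply, bil_al_left, neg_neg]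

theorem bil_al_self (s : B) : bil M (al ℝ s) (al ℝ s) = 2 := by
  rw [bil_al_left, rowf_al, Kre_self]; ring

theorem bil_sig (p : B) (u v : B → ℝ) : bil M (sig M p u) (sig M p v) = bil M u v := by
  rw [sig_eq, sig_eq, bil_add_left, bil_add_right, bil_add_right, bil_smul_right,
    bil_smul_left, bil_smul_left, bil_smul_right, bil_al_self, bil_symm u (al ℝ p)]
  ring

theorem bil_rho (w : W) (u v : B → ℝ) : bil M (rho cs w u) (rho cs w v) = bil M u v := by
  obtain ⟨l, rfl⟩ := cs.wordProd_surjective w
  rw [rho_wordProd]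
  induction l with
  | nil => rfl
  | cons a l ih =>
    rw [wp_cons, Module.End.mul_apply, Module.End.mul_apply, bil_sig, ih]

theorem rho_refl (w : W) (s : B) (v : B → ℝ) :
    rho cs (w * cs.simple s * w⁻¹) v
      = v + (-bil M (rho cs w (al ℝ s)) v) • rho cs w (al ℝ s) := by
  rw [rho_mul_apply, rho_mul_apply, rho_simple, sig_eq, map_add, map_smul, rho_apply_inv]
  congr 3
  rw [← bil_rho cs w, rho_apply_inv]

theorem rho_faithful {u v : W} (h : rho cs u = rho cs v) : u = v := by
  have h1 : rho cs (u⁻¹ * v) = 1 := by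
    rw [map_mul, ← h, ← map_mul, inv_mul_cancel, map_one]
  by_contra hne
  have h2 : u⁻¹ * v ≠ 1 := by
    intro h3
    exact hne (inv_mul_eq_one.mp h3)
  obtain ⟨s, hs⟩ := cs.exists_rightDescent_of_ne_one h2
  have h3 := rho_nonpos cs hs s
  rw [h1] at h3
  simp [al] at h3
  linarith

theorem rho_simple_of_root_eq {w w' : W} {s t : B}
    (h : rho cs w (al ℝ s) = rho cs w' (al ℝ t) ∨ rho cs w (al ℝ s) = -rho cs w' (al ℝ t)) :
    w * cs.simple s * w⁻¹ = w' * cs.simple t * w'⁻¹ := by
  apply rho_faithful cs
  apply LinearMap.ext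
  intro v
  rw [rho_refl, rho_refl]
  rcases h with h | h
  · rw [h]
  · rw [h]
    have : -rho cs w' (al ℝ t) = (-1 : ℝ) • rho cs w' (al ℝ t) := by simp
    rw [this, bil_smul_left]
    rw [smul_smul]
    congr 2
    ring

/-- only the simple root changes sign. -/
theorem eq_al_of_sign_change {w : W} {s q : B} (h1 : ∀ b, 0 ≤ rho cs w (al ℝ s) b)
    (h2 : ∀ b, sig M q (rho cs w (al ℝ s)) b ≤ 0) : rho cs w (al ℝ s) = al ℝ q := by
  set δ := rho cs w (al ℝ s) with hδ
  have h3 : ∀ b, b ≠ q → δ b = 0 := by
    intro b hb
    have h4 := h2 b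
    rw [sig_eq, Pi.add_apply, Pi.smul_apply] at h4
    have : (al ℝ q) b = 0 := by simp [al, hb]
    rw [this, smul_zero, add_zero] at h4
    exact le_antisymm h4 (h1 b)
  have h4 : δ = δ q • al ℝ q := by
    funext b
    by_cases hb : b = q
    · subst hb; simp [al]
    · rw [h3 b hb]; simp [al, hb]
  have h5 : bil M δ δ = 2 := by
    rw [hδ, bil_rho, bil_al_self]
  rw [h4, bil_smul_left, bil_smul_right, bil_al_self] at h5
  have h6 : δ q = 1 := by
    have : (δ q - 1) * (δ q + 1) = 0 := by
      linarith
    rcases mul_eq_zero.mp this with h | h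
    · linarith
    · have := h1 q; linarith
  rw [h4, h6, one_smul]

theorem root_eq_of_cross {y : W} {t q : B} (h1 : ¬ cs.IsRightDescent y t)
    (h2 : cs.IsRightDescent (cs.simple q * y) t) : rho cs y (al ℝ t) = al ℝ q := by
  apply eq_al_of_sign_change cs (rho_nonneg cs h1)
  intro b
  have := rho_nonpos cs h2 b
  rwa [rho_mul_apply, rho_simple] at this

theorem exch_right {y : W} {t q : B} (h1 : ¬ cs.IsRightDescent y t)
    (h2 : cs.IsRightDescent (cs.simple q * y) t) : cs.simple q * y = y * cs.simple t := by
  have h := root_eq_of_cross cs h1 h2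
  have h3 : rho cs y (al ℝ t) = rho cs 1 (al ℝ q) := by rw [h, rho_one_apply]
  have h4 := rho_simple_of_root_eq cs (Or.inl h3)
  rw [one_mul, inv_one, mul_one] at h4
  rw [← h4, inv_mul_cancel_right]

theorem exch_left {y : W} {t q : B} (h1 : ¬ cs.IsLeftDescent y q)
    (h2 : cs.IsLeftDescent (y * cs.simple t) q) : cs.simple q * y = y * cs.simple t := by
  have h3 : ¬ cs.IsRightDescent y⁻¹ q := by rwa [cs.isRightDescent_inv_iff]
  have h4 : cs.IsRightDescent (cs.simple t * y⁻¹) q := by
    rw [← cs.isRightDescent_inv_iff] at h2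
    rwa [mul_inv_rev, cs.inv_simple] at h2
  have h5 := exch_right cs h3 h4
  have h6 := congrArg (fun z => z⁻¹) h5
  simp only [mul_inv_rev, inv_inv, cs.inv_simple] at h6
  exact h6.symm

/-- transport of a simple root. -/
theorem root_transport {y : W} {t q : B} (h : cs.simple q * y = y * cs.simple t)
    (h1 : ¬ cs.IsRightDescent y t) : rho cs y (al ℝ t) = al ℝ q := by
  apply root_eq_of_cross cs h1
  rw [h, ← not_not (a := cs.IsRightDescent (y * cs.simple t) t),
    ← cs.isRightDescent_iff_not_isRightDescent_mul]
  exact h1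

theorem transport {y : W} {t q : B} (h : cs.simple q * y = y * cs.simple t)
    (h1 : ¬ cs.IsRightDescent y t) (g : W) :
    cs.IsRightDescent (g * y) t ↔ cs.IsRightDescent g q := by
  rw [descent_iff_nonpos, descent_iff_nonpos, rho_mul_apply, root_transport cs h h1]

theorem transport_left {y : W} {t q : B} (h : cs.simple q * y = y * cs.simple t)
    (h1 : ¬ cs.IsLeftDescent y q) (g : W) :
    cs.IsLeftDescent (y * g) q ↔ cs.IsLeftDescent g t := by
  rw [← cs.isRightDescent_inv_iff, ← cs.isRightDescent_inv_iff, mul_inv_rev]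
  apply transport cs
  · have h6 := congrArg (fun z => z⁻¹) h
    simp only [mul_inv_rev, cs.inv_simple] at h6
    exact h6.symm
  · rwa [cs.isRightDescent_inv_iff]

end Form

section Mats

variable {B : Type*} [Fintype B] [DecidableEq B] {W : Type*} [Group W] {M : CoxeterMatrix B}
  (cs : CoxeterSystem M W) {G : Type*} [Monoid G]

/-- Matsumoto's theorem -/
theorem matsumoto (f : B → G)
    (hf : ∀ s t, s ≠ t → M s t ≠ 0 → wp f (altw s t (M s t)) = wp f (altw t s (M s t))) (n : ℕ) :
    ∀ l l' : List B, l.length = n → cs.IsReduced l → cs.IsReduced l' →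
      cs.wordProd l = cs.wordProd l' → wp f l = wp f l' := by
  induction n with
  | zero =>
    intro l l' hl hr hr' hp
    have h1 : l = [] := List.length_eq_zero_iff.mp hl
    subst h1
    have h2 : l'.length = 0 := by
      rw [← hr'.eq, ← hp]; simp
    have h3 : l' = [] := List.length_eq_zero_iff.mp h2
    rw [h3]
  | succ n ih =>
    have same : ∀ (a b : List B) (s : B), (a ++ [s]).length = n + 1 → cs.IsReduced (a ++ [s]) →
        cs.IsReduced (b ++ [s]) → cs.wordProd (a ++ [s]) = cs.wordProd (b ++ [s]) →
        wp f (a ++ [s]) = wp f (b ++ [s]) := by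
      intro a b s hl hr hr' hp
      rw [wp_concat, wp_concat]
      congr 1
      apply ih
      · simpa using hl
      · have := hr.take a.length
        simpa using this
      · have := hr'.take b.length
        simpa using this
      · rw [cs.wordProd_append, cs.wordProd_append] at hp
        exact mul_right_cancel hp
    intro l l' hl hr hr' hp
    have hl' : l'.length = n + 1 := by rw [← hr'.eq, ← hp, hr.eq, hl]
    obtain ⟨a, s, rfl⟩ : ∃ a s, l = a ++ [s] := by
      rcases List.eq_nil_or_concat l with h | ⟨a, s, h⟩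
      · rw [h] at hl; simp at hl
      · exact ⟨a, s, by simpa using h⟩
    obtain ⟨b, t, rfl⟩ : ∃ b t, l' = b ++ [t] := by
      rcases List.eq_nil_or_concat l' with h | ⟨a, s, h⟩
      · rw [h] at hl'; simp at hl'
      · exact ⟨a, s, by simpa using h⟩
    by_cases hst : s = t
    · subst hst
      exact same a b s hl hr hr' hp
    · set w := cs.wordProd (a ++ [s]) with hw
      have hds : cs.IsRightDescent w s := by
        unfold CoxeterSystem.IsRightDescent
        rw [hr.eq, hw, cs.wordProd_append, cs.wordProd_singleton,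
          cs.simple_mul_simple_cancel_right]
        have := cs.length_wordProd_le a
        simp; omega
      have hdt : cs.IsRightDescent w t := by
        unfold CoxeterSystem.IsRightDescent
        rw [hp, hr'.eq, cs.wordProd_append, cs.wordProd_singleton,
          cs.simple_mul_simple_cancel_right]
        have := cs.length_wordProd_le b
        simp; omega
      obtain ⟨hM, v, hv, hlv, _, _⟩ := right_polygon cs hst hds hdt
      obtain ⟨lv, hlvr, rfl⟩ := cs.exists_isReduced v
      have hM2 : M s t ≠ 1 := M_ne_one hst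
      obtain ⟨k, hk⟩ : ∃ k, M s t = k + 1 := ⟨M s t - 1, by omega⟩
      have hwlen : cs.length w = n + 1 := by rw [hr.eq, hl]
      have r1 : cs.IsReduced (lv ++ altw s t (M s t)) := by
        unfold CoxeterSystem.IsReduced
        rw [cs.wordProd_append, ← hv, hlv, hlvr.eq, List.length_append, length_altw]
      have r2 : cs.IsReduced (lv ++ altw t s (M s t)) := by
        unfold CoxeterSystem.IsReduced
        rw [cs.wordProd_append, ← wordProd_altw_braid, ← hv, hlv, hlvr.eq, List.length_append,
          length_altw]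
      have p1 : w = cs.wordProd (lv ++ altw s t (M s t)) := by rw [cs.wordProd_append, ← hv]
      have p2 : w = cs.wordProd (lv ++ altw t s (M s t)) := by
        rw [cs.wordProd_append, ← wordProd_altw_braid, ← hv]
      have q : wp f (lv ++ altw s t (M s t)) = wp f (lv ++ altw t s (M s t)) := by
        rw [wp_append, wp_append, hf s t hst hM]
      have e1 : lv ++ altw s t (M s t) = (lv ++ altw s t k) ++ [nxt s t k] := by
        rw [hk, altw_concat, List.append_assoc]
      have e2 : lv ++ altw t s (M s t) = (lv ++ altw t s k) ++ [nxt t s k] := by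
        rw [hk, altw_concat, List.append_assoc]
      rcases nxt_cases s t k with h | h
      · rw [h.1] at e1
        rw [h.2] at e2
        rw [e1] at r1 p1 q
        rw [e2] at r2 p2 q
        rw [same a (lv ++ altw s t k) s hl hr r1 (hw ▸ p1), q]
        symm
        apply same b (lv ++ altw t s k) t hl' hr' r2
        rw [← hp, ← p2]
      · rw [h.1] at e1
        rw [h.2] at e2
        rw [e1] at r1 p1 q
        rw [e2] at r2 p2 q
        rw [same a (lv ++ altw t s k) s hl hr r2 (hw ▸ p2), ← q]
        symm
        apply same b (lv ++ altw s t k) t hl' hr' r1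
        rw [← hp, ← p1]

end Mats

end CxA
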