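import Mathlib
import Pool.Agent.helper52.Cox.Geom

/-!
Definitions for the statement about lattice quotients from sorting alternating subword complexes.
-/

namespace SubwordLattice

open CoxeterSystem

section Geometry

variable {B : Type*} [Fintype B] [DecidableEq B]

/-- The simple root `α_s`: the basis vector of `ℝ^B` indexed by `s`. -/
def simpleRoot (s : B) : B → ℝ := Pi.single s 1

/-- The symmetric bilinear form on `ℝ^B` with `(α_s, α_t) = - cos (π / m_st)`. -/
noncomputable def form (M : CoxeterMatrix B) (u v : B → ℝ) : ℝ :=
  ∑ s, ∑ t, u s * v t * (-Real.cos (Real.pi / M s t))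

theorem form_simpleRoot (M : CoxeterMatrix B) (s : B) (v : B → ℝ) :
    2 * form M (simpleRoot s) v = -CxA.rowf (CxA.Kre M) s v := by
  unfold form simpleRoot
  rw [Finset.sum_eq_single s]
  · rw [CxA.rowf_apply, Finset.mul_sum, ← Finset.sum_neg_distrib]
    apply Finset.sum_congr rfl
    intro t _
    unfold CxA.Kre CxA.kc
    simp
    ring
  · intro b _ hb
    apply Finset.sum_eq_zero
    intro t _
    simp [hb]
  · simp

/-- The reflection `σ_s : v ↦ v - 2 (α_s, v) α_s` of the geometric representation. -/
noncomputable def reflection (M : CoxeterMatrix B) (s : B) : Module.End ℝ (B → ℝ) where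
  toFun v := v - (2 * form M (simpleRoot s) v) • simpleRoot s
  map_add' u v := by
    rw [form_simpleRoot, form_simpleRoot, form_simpleRoot, map_add]
    module
  map_smul' c v := by
    rw [form_simpleRoot, form_simpleRoot, map_smul, smul_eq_mul, RingHom.id_apply]
    module

theorem reflection_eq_sig (M : CoxeterMatrix B) (s : B) : reflection M s = CxA.sig M s := by
  apply LinearMap.ext
  intro v
  unfold CxA.sig
  rw [CxA.opK_apply]
  show v - (2 * form M (simpleRoot s) v) • simpleRoot s = _
  rw [form_simpleRoot]
  unfold simpleRoot CxA.al
  module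

theorem reflection_liftable (M : CoxeterMatrix B) : M.IsLiftable (reflection M) := by
  intro s t
  rw [reflection_eq_sig, reflection_eq_sig]
  exact CxA.sig_liftable s t

variable {M : CoxeterMatrix B} {W : Type*} [Group W] (cs : CoxeterSystem M W)

/-- The geometric representation of `W` on `ℝ^B`: the simple reflection `s` acts by `σ_s`. -/
noncomputable def geomRep : W →* Module.End ℝ (B → ℝ) :=
  cs.lift ⟨reflection M, reflection_liftable M⟩

/-- The positive roots: the vectors `w(α_s)` all of whose coordinates are nonnegative. -/
def posRoots : Set (B → ℝ) :=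
  {β | (∃ (w : W) (s : B), β = geomRep cs w (simpleRoot s)) ∧ ∀ b, 0 ≤ β b}

end Geometry

section Facets

variable {B : Type*} [Fintype B] [DecidableEq B] {M : CoxeterMatrix B} {W : Type*} [Group W]
  (cs : CoxeterSystem M W) (Q : List B)

/-- The subword of `Q` formed by the letters in the positions outside `I`. -/
def complementWord (I : Finset (Fin Q.length)) : List B :=
  ((List.finRange Q.length).filter fun x => x ∉ I).map Q.get

/-- The subword of `Q` formed by the letters in the positions before `k` and outside `I`. -/
def beforeWord (I : Finset (Fin Q.length)) (k : Fin Q.length) : List B :=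
  ((List.finRange Q.length).filter fun x => x < k ∧ x ∉ I).map Q.get

/-- `I` is a facet of the subword complex of `Q` and `ω`: its complement spells a reduced
expression of `ω`. -/
def IsFacet (ω : W) (I : Finset (Fin Q.length)) : Prop :=
  cs.IsReduced (complementWord Q I) ∧ cs.wordProd (complementWord Q I) = ω

/-- The root function `r(I, k)`. -/
noncomputable def rootFunction (I : Finset (Fin Q.length)) (k : Fin Q.length) : B → ℝ :=
  geomRep cs (cs.wordProd (beforeWord Q I k)) (simpleRoot (Q.get k))

/-- The root configuration `R(I)`. -/
noncomputable def rootConfiguration (I : Finset (Fin Q.length)) : Multiset (B → ℝ) :=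
  I.val.map (rootFunction cs Q I)

/-- The set `L(I)` of linear extensions: the `π` in `W` with `R(I) ⊆ π(Φ⁺)`. -/
def linearExtensions (I : Finset (Fin Q.length)) : Set W :=
  {π | ∀ β ∈ rootConfiguration cs Q I, β ∈ (geomRep cs π) '' posRoots cs}

/-- The acyclic facets of the subword complex of `Q` and `ω`. -/
def AcyclicFacet (ω : W) : Type :=
  {I : Finset (Fin Q.length) // IsFacet cs Q ω I ∧ (linearExtensions cs Q I).Nonempty}

/-- The cone generated by the root configuration `R(I)`. -/
noncomputable def rootCone (I : Finset (Fin Q.length)) : PointedCone ℝ (B → ℝ) :=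
  PointedCone.hull ℝ {β | β ∈ rootConfiguration cs Q I}

/-- An increasing flip from `I` to `J` (exchanging `i ∈ I` with `j ∈ J`, where `i < j`) which is
extremal: `r(I, i)` spans a ray of the cone generated by `R(I)`. -/
def ExtremalIncreasingFlip (I J : Finset (Fin Q.length)) : Prop :=
  ∃ i ∈ I, ∃ j ∈ J, I.erase i = J.erase j ∧ i < j ∧
    (PointedCone.hull ℝ {rootFunction cs Q I i}).IsFaceOf (rootCone cs Q I)

/-- `Q` is sorting: it contains a reduced expression of the longest element as a subword. -/
def IsSorting : Prop :=
  ∃ w₀ : W, (∀ w, cs.length w ≤ cs.length w₀) ∧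
    ∃ l : List B, l.Sublist Q ∧ cs.IsReduced l ∧ cs.wordProd l = w₀

/-- `Q` is alternating: the occurrences in `Q` of any two letters that do not commute
alternate. -/
def IsAlternating : Prop :=
  ∀ s t : B, cs.simple s * cs.simple t ≠ cs.simple t * cs.simple s →
    (Q.filter fun u => u = s ∨ u = t).IsChain (· ≠ ·)

/-- The right weak order. -/
def WeakLE (u v : W) : Prop := cs.length u + cs.length (u⁻¹ * v) = cs.length v

/-- The interval `[e, ω]` of the right weak order. -/
def WeakInterval (ω : W) : Type _ := {x : W // WeakLE cs x ω}

end Facets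

section Quotient

variable {α : Type*} [Lattice α] (c : LatticeCon α)

/-- The set of classes of a lattice congruence. -/
def CongruenceClasses : Type _ := Quotient c.toSetoid

/-- The class of an element. -/
def classOf (x : α) : CongruenceClasses c := Quotient.mk c.toSetoid x

/-- The join of two classes, computed on representatives. -/
instance : Max (CongruenceClasses c) :=
  ⟨Quotient.map₂ (fun x y => x ⊔ y) (fun _ _ h _ _ h' => c.sup h h')⟩

/-- The meet of two classes, computed on representatives. -/
instance : Min (CongruenceClasses c) :=
  ⟨Quotient.map₂ (fun x y => x ⊓ y) (fun _ _ h _ _ h' => c.inf h h')⟩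

/-- The quotient lattice of a lattice by a lattice congruence: its operations are the two
above, and its order is given by `X ≤ Y` if and only if `X ⊔ Y = Y`. -/
instance quotientLattice : Lattice (CongruenceClasses c) :=
  Lattice.mk'
    (by
      rintro ⟨x⟩ ⟨y⟩
      exact congrArg (classOf c) (sup_comm x y))
    (by
      rintro ⟨x⟩ ⟨y⟩ ⟨z⟩
      exact congrArg (classOf c) (sup_assoc x y z))
    (by
      rintro ⟨x⟩ ⟨y⟩
      exact congrArg (classOf c) (inf_comm x y))
    (by
      rintro ⟨x⟩ ⟨y⟩ ⟨z⟩
      exact congrArg (classOf c) (inf_assoc x y z))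
    (by
      rintro ⟨x⟩ ⟨y⟩
      exact congrArg (classOf c) (sup_inf_self (a := x) (b := y)))
    (by
      rintro ⟨x⟩ ⟨y⟩
      exact congrArg (classOf c) (inf_sup_self (a := x) (b := y)))

end Quotient

end SubwordLattice
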