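import Mathlib
import Pool.Agent.helper52.Cox.Root

/-!
Graded operators attached to an orientation.
-/

namespace CxA

open Real CoxeterSystem Polynomial

section NN

/-- polynomials with nonnegative coefficients -/
def NN (p : ℝ[X]) : Prop := ∀ n, 0 ≤ p.coeff n

theorem NN.add {p q : ℝ[X]} (hp : NN p) (hq : NN q) : NN (p + q) := by
  intro n
  rw [coeff_add]
  exact add_nonneg (hp n) (hq n)

theorem NN.mul {p q : ℝ[X]} (hp : NN p) (hq : NN q) : NN (p * q) := by
  intro n
  rw [coeff_mul]
  exact Finset.sum_nonneg fun x _ => mul_nonneg (hp _) (hq _)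

theorem NN_C {a : ℝ} (ha : 0 ≤ a) : NN (C a) := by
  intro n
  rw [coeff_C]
  split_ifs
  · exact ha
  · exact le_refl _

theorem NN_zero : NN 0 := fun n => by simp

theorem NN_one : NN 1 := by
  have := NN_C (a := 1) zero_le_one
  rwa [C_1] at this

theorem NN_X_pow (k : ℕ) : NN (X ^ k) := by
  intro n
  rw [coeff_X_pow]
  split_ifs <;> norm_num

theorem NN_of_X_pow_mul {p : ℝ[X]} {k : ℕ} (h : NN (X ^ k * p)) : NN p := by
  intro n
  have := h (n + k)
  rwa [mul_comm, coeff_mul_X_pow] at this

theorem NN.eval_one {p : ℝ[X]} (hp : NN p) : 0 ≤ p.eval 1 := by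
  rw [eval_eq_sum_range]
  exact Finset.sum_nonneg fun i _ => by simpa using hp i

/-- coefficientwise comparison of degrees -/
theorem natDegree_le_of_coeff_le {p q : ℝ[X]} (hp : NN p) (h : ∀ n, p.coeff n ≤ q.coeff n) :
    p.natDegree ≤ q.natDegree := by
  by_cases h0 : p = 0
  · rw [h0]; simp
  · apply le_natDegree_of_ne_zero
    have h1 : 0 < p.coeff p.natDegree := by
      apply lt_of_le_of_ne (hp _)
      intro h2
      exact h0 (leadingCoeff_eq_zero.mp h2.symm)
    have := h p.natDegree
    intro h2
    linarith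

end NN

section Ori

variable {B : Type*}

/-- antisymmetric orientation -/
def Anti (o : B → B → Bool) : Prop := ∀ s t, s ≠ t → o t s = !o s t

variable [DecidableEq B]

/-- move `q` after everything else. -/
def flip (q : B) (o : B → B → Bool) : B → B → Bool :=
  fun s t => if s = q then false else if t = q then true else o s t

theorem Anti.flip {o : B → B → Bool} (ho : Anti o) (q : B) : Anti (flip q o) := by
  intro s t hst
  unfold CxA.flip
  by_cases h1 : s = q
  · have h2 : t ≠ q := fun h => hst (h1.trans h.symm)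
    simp [h1, h2]
  · by_cases h2 : t = q
    · simp [h1, h2]
    · simp [h1, h2, ho s t hst]

/-- `q` is before all its neighbours. -/
def Src (M : CoxeterMatrix B) (o : B → B → Bool) (q : B) : Prop :=
  ∀ t, t ≠ q → M q t ≠ 2 → o q t = true

end Ori

section Op

variable {B : Type*} [Fintype B] [DecidableEq B] {W : Type*} [Group W] {M : CoxeterMatrix B}
  (cs : CoxeterSystem M W)

/-- graded constants -/
noncomputable def Kg (M : CoxeterMatrix B) (o : B → B → Bool) (p t : B) : ℝ[X] :=
  if p = t then -(1 + X ^ 2) else C (kc (M p t)) * (if o p t then 1 else X ^ 2)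

/-- graded simple operator -/
noncomputable def Tg (M : CoxeterMatrix B) (o : B → B → Bool) (p : B) :
    Module.End ℝ[X] (B → ℝ[X]) := opK (Kg M o) p

/-- normalisation exponent of `s` relative to `t`. -/
def ne' (o : B → B → Bool) (s t : B) : ℕ := if o s t then 0 else 1

/-- normalised vectors -/
noncomputable def vf (o : B → B → Bool) (s t : B) : B → (B → ℝ[X]) :=
  fun c => (X ^ (if c = s then ne' o s t else ne' o t s) : ℝ[X]) • al ℝ[X] c

omit [Fintype B] in
theorem vf_left (o : B → B → Bool) (s t : B) :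
    vf o s t s = (X ^ (ne' o s t) : ℝ[X]) • al ℝ[X] s := by simp [vf]

omit [Fintype B] in
theorem vf_right (o : B → B → Bool) {s t : B} (h : s ≠ t) :
    vf o s t t = (X ^ (ne' o t s) : ℝ[X]) • al ℝ[X] t := by simp [vf, h.symm]

omit [Fintype B] in
theorem Kg_self (o : B → B → Bool) (s : B) : Kg M o s s = -(1 + X ^ 2) := by simp [Kg]

omit [Fintype B] in
theorem Kg_mul {o : B → B → Bool} (ho : Anti o) {s t : B} (h : s ≠ t) :
    Kg M o s t * X ^ (ne' o t s) = C (kc (M s t)) * X * X ^ (ne' o s t) := by
  have h1 := ho s t h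
  unfold Kg ne'
  rw [if_neg h, h1]
  cases o s t
  · simp; ring
  · simp

theorem Tg_pairRel {o : B → B → Bool} (ho : Anti o) {s t : B} (h : s ≠ t) :
    PairRel (Kg M o) (kc (M s t)) (X : ℝ[X]) (vf o s t) s t := by
  refine ⟨?_, ?_⟩
  · rw [vf_left, map_smul, opK_al, Kg_self, smul_add, smul_smul, smul_smul, ← add_smul]
    congr 1; ring
  · rw [vf_right o h, vf_left, map_smul, opK_al, smul_add, smul_smul, smul_smul,
      mul_comm (X ^ (ne' o t s)), Kg_mul ho h]
    rfl

omit [Fintype B] in
theorem vf_swap (o : B → B → Bool) {s t : B} (h : s ≠ t) (c : B) (hc : c = s ∨ c = t) :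
    vf o t s c = vf o s t c := by
  rcases hc with rfl | rfl
  · rw [vf_left, vf_right o h.symm]
  · rw [vf_left, vf_right o h]

theorem Tg_pairRel' {o : B → B → Bool} (ho : Anti o) {s t : B} (h : s ≠ t) :
    PairRel (Kg M o) (kc (M s t)) (X : ℝ[X]) (vf o s t) t s := by
  have := Tg_pairRel (M := M) ho h.symm
  rw [M.symmetric t s] at this
  unfold PairRel at this ⊢
  rw [vf_swap o h _ (Or.inr rfl), vf_swap o h _ (Or.inl rfl)] at this
  exact this

theorem Tg_alt_formula {o : B → B → Bool} (ho : Anti o) {s t : B} (h : s ≠ t) (k : ℕ) :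
    wp (Tg M o) (altw s t (k + 1)) (vf o s t (nxt s t (k + 1)))
      = (X ^ (k + 1) * C (Uc (kc (M s t)) (k + 2))) • vf o s t s
        + (X ^ k * C (Uc (kc (M s t)) (k + 1))) • vf o s t t :=
  opK_alt_formula (Kg M o) (kc (M s t)) X (vf o s t) k s t (Tg_pairRel ho h) (Tg_pairRel' ho h)

theorem Tg_braid {o : B → B → Bool} (ho : Anti o) (s t : B) (h : s ≠ t) (hM : M s t ≠ 0) :
    wp (Tg M o) (altw s t (M s t)) = wp (Tg M o) (altw t s (M s t)) := by
  have h2 : 2 ≤ M s t := by have := M_ne_one (M := M) h; omega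
  apply opK_braid (R := ℝ[X]) (Kg M o) (kc (M s t)) X (X ^ (ne' o s t)) (X ^ (ne' o t s))
    (M s t) s t h
  · exact pow_ne_zero _ X_ne_zero
  · exact pow_ne_zero _ X_ne_zero
  · exact Kg_self o s
  · exact Kg_self o t
  · exact Kg_mul ho h
  · have := Kg_mul (M := M) ho h.symm
    rw [M.symmetric t s] at this
    exact this
  · intro h0
    have := congrArg (eval 0) h0
    simp at this
  · exact h2
  · exact Uc_kc_self h2
  · exact Uc_kc_pred h2

/-- graded representation of the monoid -/
noncomputable def tau (o : B → B → Bool) (w : W) : Module.End ℝ[X] (B → ℝ[X]) :=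
  wp (Tg M o) (cs.exists_isReduced w).choose

theorem tau_wordProd {o : B → B → Bool} (ho : Anti o) {l : List B} (hl : cs.IsReduced l) :
    tau cs o (cs.wordProd l) = wp (Tg M o) l := by
  have h := (cs.exists_isReduced (cs.wordProd l)).choose_spec
  exact matsumoto cs (Tg M o) (Tg_braid ho) _ _ _ rfl h.1 hl h.2.symm

theorem tau_one {o : B → B → Bool} (ho : Anti o) : tau cs o 1 = 1 := by
  have : cs.IsReduced [] := by simp [CoxeterSystem.IsReduced]
  rw [← cs.wordProd_nil, tau_wordProd cs ho this, wp_nil]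

theorem tau_mul {o : B → B → Bool} (ho : Anti o) {u v : W}
    (h : cs.length (u * v) = cs.length u + cs.length v) :
    tau cs o (u * v) = tau cs o u * tau cs o v := by
  obtain ⟨l, hl, rfl⟩ := cs.exists_isReduced u
  obtain ⟨l', hl', rfl⟩ := cs.exists_isReduced v
  have : cs.IsReduced (l ++ l') := by
    unfold CoxeterSystem.IsReduced
    rw [cs.wordProd_append, h, hl.eq, hl'.eq, List.length_append]
  rw [← cs.wordProd_append, tau_wordProd cs ho this, tau_wordProd cs ho hl,
    tau_wordProd cs ho hl', wp_append]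

theorem tau_simple {o : B → B → Bool} (ho : Anti o) (s : B) :
    tau cs o (cs.simple s) = Tg M o s := by
  have : cs.IsReduced [s] := by simp [CoxeterSystem.IsReduced]
  rw [← cs.wordProd_singleton, tau_wordProd cs ho this]
  simp

theorem tau_altw {o : B → B → Bool} (ho : Anti o) {s t : B} (k : ℕ)
    (h : cs.IsReduced (altw s t k)) :
    tau cs o (cs.wordProd (altw s t k)) = wp (Tg M o) (altw s t k) := tau_wordProd cs ho h

theorem Tg_alt_NN {o : B → B → Bool} (ho : Anti o) {s t : B} (h : s ≠ t) (k : ℕ)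
    (hk : M s t = 0 ∨ k + 1 ≤ M s t) :
    ∃ c d : ℝ[X], NN c ∧ NN d ∧
    wp (Tg M o) (altw s t k) (vf o s t (nxt s t k)) = c • vf o s t s + d • vf o s t t := by
  cases k with
  | zero =>
    refine ⟨1, 0, NN_one, NN_zero, ?_⟩
    simp [nxt_zero]
  | succ k =>
    refine ⟨_, _, ?_, ?_, Tg_alt_formula ho h k⟩
    · exact (NN_X_pow _).mul (NN_C (Uc_kc_nonneg (M_ne_one h) (by omega)))
    · exact (NN_X_pow _).mul (NN_C (Uc_kc_nonneg (M_ne_one h) (by omega)))

/-- graded positivity -/
theorem tau_NN_aux {o : B → B → Bool} (ho : Anti o) (n : ℕ) : ∀ (w : W) (s : B),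
    cs.length w = n → ¬ cs.IsRightDescent w s → ∀ b, NN (tau cs o w (al ℝ[X] s) b) := by
  induction n using Nat.strong_induction_on with
  | _ n ih =>
    intro w s hw hs
    by_cases hw1 : w = 1
    · subst hw1
      intro b
      rw [tau_one cs ho]
      unfold al
      by_cases hb : b = s
      · subst hb; simp [NN_one]
      · simp [hb, NN_zero]
    · obtain ⟨t, ht⟩ := cs.exists_rightDescent_of_ne_one hw1
      have hst : s ≠ t := by rintro rfl; exact hs ht
      obtain ⟨v, k, a, b, hab, hn, hwv, hl, hvs, hvt⟩ := descending cs n w s t hw hst hs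
      have hk0 : k ≠ 0 := by
        rintro rfl
        rw [altw_zero, cs.wordProd_nil, mul_one] at hwv
        exact hvt (hwv ▸ ht)
      have habne : a ≠ b := by
        rcases hab with ⟨rfl, rfl⟩ | ⟨rfl, rfl⟩
        · exact hst
        · exact hst.symm
      -- reducedness of the alternating word
      have hred : cs.IsReduced (altw a b k) := by
        unfold CoxeterSystem.IsReduced
        apply le_antisymm (cs.length_wordProd_le _)
        have h1 := cs.length_mul_le v (cs.wordProd (altw a b k))
        rw [← hwv, hl] at h1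
        rw [length_altw]
        omega
      have hkM : M a b = 0 ∨ k + 1 ≤ M a b := by
        by_contra hcon
        push Not at hcon
        have h1 := le_of_isReduced_altw cs hred hcon.1
        have hk : k = M a b := by omega
        have h2 : w = v * cs.wordProd (altw b a k) := by
          rw [hwv, hk, wordProd_altw_braid]
        obtain ⟨j, rfl⟩ : ∃ j, k = j + 1 := ⟨k - 1, by omega⟩
        rw [altw_concat b a j, cs.wordProd_append, ← nxt_succ a b j, hn, cs.wordProd_singleton,
          ← mul_assoc] at h2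
        apply hs
        unfold IsRightDescent
        rw [h2, cs.simple_mul_simple_cancel_right, ← h2, hl]
        have h3 := cs.length_mul_le v (cs.wordProd (altw b a j))
        have h4 := cs.length_wordProd_le (altw b a j)
        rw [length_altw] at h4
        omega
      obtain ⟨c, d, hc, hd, hcd⟩ := Tg_alt_NN ho habne k hkM
      intro x
      have hlen : cs.length (v * cs.wordProd (altw a b k))
          = cs.length v + cs.length (cs.wordProd (altw a b k)) := by
        rw [← hwv, hl, hred.eq, length_altw]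
      rw [hn] at hcd
      have hvlt : cs.length v < n := by omega
      have hva : ¬ cs.IsRightDescent v a := by
        rcases hab with ⟨rfl, rfl⟩ | ⟨rfl, rfl⟩
        · exact hvs
        · exact hvt
      have hvb : ¬ cs.IsRightDescent v b := by
        rcases hab with ⟨rfl, rfl⟩ | ⟨rfl, rfl⟩
        · exact hvt
        · exact hvs
      obtain ⟨e, he⟩ : ∃ e : ℕ, vf o a b s = (X ^ e : ℝ[X]) • al ℝ[X] s := ⟨_, rfl⟩
      apply NN_of_X_pow_mul (k := e)
      have h1 : (X ^ e : ℝ[X]) * tau cs o w (al ℝ[X] s) x = (tau cs o w (vf o a b s)) x := by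
        rw [he, map_smul, Pi.smul_apply, smul_eq_mul]
      rw [h1, hwv, tau_mul cs ho hlen, tau_altw cs ho k hred, Module.End.mul_apply, hcd, map_add,
        map_smul, map_smul, vf_left, vf_right o habne, map_smul, map_smul]
      simp only [Pi.add_apply, Pi.smul_apply, smul_eq_mul]
      exact (hc.mul ((NN_X_pow _).mul (ih _ hvlt v a rfl hva x))).add
        (hd.mul ((NN_X_pow _).mul (ih _ hvlt v b rfl hvb x)))

theorem tau_NN {o : B → B → Bool} (ho : Anti o) {w : W} {s : B}
    (h : ¬ cs.IsRightDescent w s) (b : B) : NN (tau cs o w (al ℝ[X] s) b) :=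
  tau_NN_aux cs ho _ w s rfl h b

/-- evaluation at `1` -/
noncomputable def ev1 (v : B → ℝ[X]) : B → ℝ := fun b => (v b).eval 1

omit [Fintype B] in
theorem ev1_al (s : B) : ev1 (al ℝ[X] s) = al ℝ s := by
  funext b
  unfold ev1 al
  by_cases hb : b = s
  · subst hb; simp
  · simp [hb]

omit [Fintype B] in
theorem eval_Kg (o : B → B → Bool) (p t : B) : (Kg M o p t).eval 1 = Kre M p t := by
  unfold Kg
  by_cases h : p = t
  · subst h
    rw [if_pos rfl, Kre_self]
    simp; norm_num
  · rw [if_neg h]
    unfold Kre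
    split_ifs <;> simp

theorem ev1_Tg (o : B → B → Bool) (p : B) (v : B → ℝ[X]) :
    ev1 (Tg M o p v) = sig M p (ev1 v) := by
  funext b
  unfold Tg sig
  rw [opK_apply, opK_apply]
  have h1 : (rowf (Kg M o) p v).eval 1 = rowf (Kre M) p (ev1 v) := by
    rw [rowf_apply, rowf_apply, eval_finsetSum]
    apply Finset.sum_congr rfl
    intro t _
    rw [eval_mul, eval_Kg]
    rfl
  have h2 : ev1 (al ℝ[X] p) b = al ℝ p b := by rw [ev1_al]
  unfold ev1 at h2 ⊢
  simp only [Pi.add_apply, Pi.smul_apply, smul_eq_mul, eval_add, eval_mul]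
  rw [h1, h2]
  rfl

theorem ev1_tau (o : B → B → Bool) (w : W) (v : B → ℝ[X]) :
    ev1 (tau cs o w v) = rho cs w (ev1 v) := by
  have h := (cs.exists_isReduced w).choose_spec
  have h2 : rho cs w = wp (sig M) (cs.exists_isReduced w).choose := by
    conv_lhs => rw [h.2]
    rw [rho_wordProd]
  rw [h2]
  unfold tau
  induction (cs.exists_isReduced w).choose with
  | nil => rfl
  | cons a l ih => rw [wp_cons, wp_cons, Module.End.mul_apply, Module.End.mul_apply, ev1_Tg, ih]

theorem tau_al_ne_zero (o : B → B → Bool) (w : W) (s : B) : tau cs o w (al ℝ[X] s) ≠ 0 := by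
  intro h
  have h1 := ev1_tau cs o w (al ℝ[X] s)
  rw [h, ev1_al] at h1
  apply rho_al_ne_zero cs w s
  rw [← h1]
  funext b
  simp [ev1]

end Op

end CxA
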