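import Mathlib
import Pool.Agent.helper52.Cox.Grad

/-!
Degrees of graded roots.
-/

namespace CxA

open Real CoxeterSystem Polynomial

section Vdeg

variable {B : Type*} [Fintype B]

/-- degree of a vector of polynomials -/
noncomputable def vdeg (v : B → ℝ[X]) : ℕ := Finset.univ.sup fun b => (v b).natDegree

theorem vdeg_le {v : B → ℝ[X]} {n : ℕ} : vdeg v ≤ n ↔ ∀ b, (v b).natDegree ≤ n := by
  unfold vdeg
  simp

theorem natDegree_le_vdeg (v : B → ℝ[X]) (b : B) : (v b).natDegree ≤ vdeg v :=
  vdeg_le.mp le_rfl b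

theorem vdeg_X_pow_smul {v : B → ℝ[X]} (hv : v ≠ 0) (k : ℕ) :
    vdeg ((X ^ k : ℝ[X]) • v) = k + vdeg v := by
  apply le_antisymm
  · rw [vdeg_le]
    intro b
    rw [Pi.smul_apply, smul_eq_mul]
    have h1 := natDegree_mul_le (p := (X ^ k : ℝ[X])) (q := v b)
    rw [natDegree_X_pow] at h1
    have h2 := natDegree_le_vdeg v b
    omega
  · obtain ⟨b, hb, hb2⟩ : ∃ b, v b ≠ 0 ∧ (v b).natDegree = vdeg v := by
      obtain ⟨b0, hb0⟩ : ∃ b, v b ≠ 0 := by
        by_contra h
        push Not at h
        exact hv (funext h)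
      obtain ⟨b, -, hb⟩ := Finset.exists_mem_eq_sup Finset.univ ⟨b0, Finset.mem_univ _⟩
        (fun b => (v b).natDegree)
      by_cases h0 : v b = 0
      · refine ⟨b0, hb0, ?_⟩
        have : vdeg v = 0 := by
          unfold vdeg
          rw [hb, h0, natDegree_zero]
        have h2 := natDegree_le_vdeg v b0
        omega
      · exact ⟨b, h0, hb.symm⟩
    have h1 := natDegree_le_vdeg ((X ^ k : ℝ[X]) • v) b
    rw [Pi.smul_apply, smul_eq_mul, natDegree_mul (pow_ne_zero _ X_ne_zero) hb,
      natDegree_X_pow, hb2] at h1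
    exact h1

/-- monotonicity for coefficientwise comparison -/
theorem vdeg_le_of_coeff_le {u v : B → ℝ[X]} (hu : ∀ b, NN (u b))
    (h : ∀ b n, (u b).coeff n ≤ (v b).coeff n) : vdeg u ≤ vdeg v := by
  rw [vdeg_le]
  intro b
  exact (natDegree_le_of_coeff_le (hu b) (h b)).trans (natDegree_le_vdeg v b)

end Vdeg

section Op

variable {B : Type*} [Fintype B] [DecidableEq B] {W : Type*} [Group W] {M : CoxeterMatrix B}
  (cs : CoxeterSystem M W)

/-- constant reflection on vectors of polynomials -/
noncomputable def sC (M : CoxeterMatrix B) (p : B) : Module.End ℝ[X] (B → ℝ[X]) :=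
  opK (fun s t => C (Kre M s t)) p

theorem sC_sq (p : B) (v : B → ℝ[X]) : sC M p (sC M p v) = v := by
  unfold sC
  rw [opK_apply, opK_apply, map_add, map_smul, rowf_al, Kre_self, add_assoc, ← add_smul]
  simp only [smul_eq_mul]
  have : (C (-2) : ℝ[X]) = -2 := by
    rw [C_neg]; rfl
  rw [this, show ∀ r : ℝ[X], r + (r + r * -2) = 0 by intro r; ring, zero_smul, add_zero]

theorem vdeg_sC_le (p : B) (v : B → ℝ[X]) : vdeg (sC M p v) ≤ vdeg v := by
  rw [vdeg_le]
  intro b
  unfold sC
  rw [opK_apply]
  have h1 : (rowf (fun s t => C (Kre M s t)) p v : ℝ[X]).natDegree ≤ vdeg v := by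
    rw [rowf_apply]
    apply natDegree_sum_le_of_forall_le
    intro t _
    exact (natDegree_C_mul_le _ _).trans (natDegree_le_vdeg v t)
  rw [Pi.add_apply, Pi.smul_apply, smul_eq_mul]
  apply (natDegree_add_le _ _).trans
  apply max_le (natDegree_le_vdeg v b)
  apply natDegree_mul_le.trans
  have : (al ℝ[X] p b).natDegree = 0 := by
    unfold al
    by_cases hb : b = p
    · subst hb; simp
    · simp [hb]
  omega

theorem vdeg_sC (p : B) (v : B → ℝ[X]) : vdeg (sC M p v) = vdeg v := by
  apply le_antisymm (vdeg_sC_le p v)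
  conv_lhs => rw [← sC_sq (M := M) p v]
  exact vdeg_sC_le p _

/-- multiplication of the `q`-coordinate by `X^2`. -/
noncomputable def uq (q : B) (v : B → ℝ[X]) : B → ℝ[X] :=
  fun b => if b = q then X ^ 2 * v b else v b

omit [Fintype B] in
theorem uq_al (q s : B) :
    uq q (al ℝ[X] s) = (X ^ (if s = q then 2 else 0) : ℝ[X]) • al ℝ[X] s := by
  funext b
  unfold uq al
  by_cases h1 : b = q
  · subst h1
    by_cases h2 : s = b
    · subst h2; simp
    · simp [h2, Ne.symm h2]
  · by_cases h2 : s = q
    · subst h2; simp [h1]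
    · simp [h1, h2]

theorem Tg_eq_sC_uq {o : B → B → Bool} {q : B} (hq : Src M o q) (v : B → ℝ[X]) :
    Tg M o q v = sC M q (uq q v) := by
  funext b
  unfold Tg sC
  rw [opK_apply, opK_apply, Pi.add_apply, Pi.add_apply, Pi.smul_apply, Pi.smul_apply]
  by_cases hb : b = q
  · subst hb
    have h1 : (al ℝ[X] b) b = 1 := by simp [al]
    rw [h1, smul_eq_mul, smul_eq_mul, mul_one, mul_one, rowf_apply, rowf_apply]
    have h2 : ∑ t, Kg M o b t * v t - ∑ t, C (Kre M b t) * uq b v t = (X ^ 2 - 1) * v b := by
      rw [← Finset.sum_sub_distrib, Finset.sum_eq_single b]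
      · rw [Kg_self, Kre_self]
        unfold uq
        rw [if_pos rfl]
        have : (C (-2) : ℝ[X]) = -2 := by
          rw [C_neg]; rfl
        rw [this]
        ring
      · intro t _ ht
        unfold uq Kg Kre
        rw [if_neg ht, if_neg (Ne.symm ht)]
        by_cases h2 : M b t = 2
        · rw [h2, kc_two]; simp
        · rw [hq t ht h2]; simp
      · simp
    unfold uq at h2 ⊢
    rw [if_pos rfl]
    linear_combination h2
  · have h1 : (al ℝ[X] q) b = 0 := by simp [al, hb]
    rw [h1, smul_zero, smul_zero, add_zero, add_zero]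
    unfold uq
    rw [if_neg hb]

theorem Tg_flip_uq {o : B → B → Bool} (ho : Anti o) {q : B} (hq : Src M o q) (p : B)
    (v : B → ℝ[X]) : Tg M (flip q o) p (uq q v) = uq q (Tg M o p v) := by
  funext b
  have hrow : rowf (Kg M (flip q o)) p (uq q v)
      = (X ^ (if p = q then 2 else 0) : ℝ[X]) * rowf (Kg M o) p v := by
    rw [rowf_apply, rowf_apply, Finset.mul_sum]
    apply Finset.sum_congr rfl
    intro t _
    by_cases hp : p = q
    · subst hp
      by_cases ht : t = p
      · subst ht
        rw [Kg_self, Kg_self]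
        unfold uq
        rw [if_pos rfl, if_pos rfl]
        ring
      · unfold uq Kg flip
        rw [if_neg (Ne.symm ht), if_neg (Ne.symm ht), if_neg ht, if_pos rfl]
        by_cases h2 : M p t = 2
        · rw [h2, kc_two]; simp
        · rw [hq t ht h2]; simp [ht]; ring
    · rw [if_neg hp, pow_zero, one_mul]
      by_cases ht : t = q
      · subst ht
        unfold uq Kg flip
        rw [if_neg hp, if_neg hp, if_neg hp]
        by_cases h2 : M p t = 2
        · rw [h2, kc_two]; simp
        · have h3 : o p t = false := by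
            rw [ho t p (Ne.symm hp), hq p hp (by rwa [M.symmetric])]
            rfl
          rw [h3]; simp; ring
      · unfold uq Kg flip
        rw [if_neg ht, if_neg hp, if_neg ht]
  unfold Tg
  rw [opK_apply, Pi.add_apply, Pi.smul_apply, smul_eq_mul, hrow]
  by_cases hb : b = q
  · subst hb
    unfold uq
    rw [if_pos rfl, if_pos rfl, opK_apply, Pi.add_apply, Pi.smul_apply, smul_eq_mul]
    by_cases hp : p = b
    · subst hp; simp; ring
    · have : (al ℝ[X] p) b = 0 := by simp [al, Ne.symm hp]
      rw [this]; ring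
  · unfold uq
    rw [if_neg hb, if_neg hb, opK_apply, Pi.add_apply, Pi.smul_apply, smul_eq_mul]
    by_cases hp : p = q
    · subst hp
      have : (al ℝ[X] p) b = 0 := by simp [al, hb]
      rw [this]; ring
    · rw [if_neg hp]; ring

theorem tau_flip_uq {o : B → B → Bool} (ho : Anti o) {q : B} (hq : Src M o q) (w : W)
    (v : B → ℝ[X]) : tau cs (flip q o) w (uq q v) = uq q (tau cs o w v) := by
  unfold tau
  induction (cs.exists_isReduced w).choose with
  | nil => rfl
  | cons a l ih =>
    rw [wp_cons, wp_cons, Module.End.mul_apply, Module.End.mul_apply, ih, Tg_flip_uq ho hq]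

theorem tau_flip_al {o : B → B → Bool} (ho : Anti o) {q : B} (hq : Src M o q) (w : W) (s : B) :
    uq q (tau cs o w (al ℝ[X] s))
      = (X ^ (if s = q then 2 else 0) : ℝ[X]) • tau cs (flip q o) w (al ℝ[X] s) := by
  rw [← tau_flip_uq cs ho hq, uq_al, map_smul]

/-- degree rule for a first letter which is a left descent. -/
theorem vdeg_tau_fire {o : B → B → Bool} (ho : Anti o) {q : B} (hq : Src M o q) {x : W} (s : B)
    (h : cs.IsLeftDescent x q) :
    vdeg (tau cs o x (al ℝ[X] s))
      = (if s = q then 2 else 0) + vdeg (tau cs (flip q o) (cs.simple q * x) (al ℝ[X] s)) := by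
  have hx : x = cs.simple q * (cs.simple q * x) := by simp
  have hl : cs.length (cs.simple q * (cs.simple q * x))
      = cs.length (cs.simple q) + cs.length (cs.simple q * x) := by
    rw [← hx, cs.length_simple]
    have := cs.isLeftDescent_iff.mp h
    omega
  conv_lhs => rw [hx]
  rw [tau_mul cs ho hl, tau_simple cs ho, Module.End.mul_apply, Tg_eq_sC_uq hq, vdeg_sC,
    tau_flip_al cs ho hq, vdeg_X_pow_smul (tau_al_ne_zero cs _ _ _)]

theorem vdeg_le_vdeg_uq (q : B) (v : B → ℝ[X]) : vdeg v ≤ vdeg (uq q v) := by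
  rw [vdeg_le]
  intro b
  by_cases hb : b = q
  · have h1 := natDegree_le_vdeg (uq q v) b
    unfold uq at h1
    rw [if_pos hb] at h1
    by_cases h0 : v b = 0
    · rw [h0]; simp
    · rw [natDegree_mul (pow_ne_zero _ X_ne_zero) h0] at h1
      unfold uq
      omega
  · have h1 := natDegree_le_vdeg (uq q v) b
    unfold uq at h1
    rw [if_neg hb] at h1
    exact h1

/-- if `T_q G ≥ 0` then multiplying the `q` coordinate by `X ^ 2` does not change the degree. -/
theorem vdeg_uq_eq {o : B → B → Bool} {q : B} (hq : Src M o q) {G : B → ℝ[X]}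
    (hG : ∀ b, NN (G b)) (hT : ∀ b, NN (Tg M o q G b)) : vdeg (uq q G) = vdeg G := by
  apply le_antisymm _ (vdeg_le_vdeg_uq q G)
  rw [vdeg_le]
  intro b
  by_cases hb : b = q
  · subst hb
    unfold uq
    rw [if_pos rfl]
    -- compare with the sum of the other coordinates
    have h1 : ∀ n, (X ^ 2 * G b).coeff n
        ≤ (∑ t ∈ Finset.univ.erase b, C (Kre M b t) * G t).coeff n := by
      intro n
      have h2 := hT b n
      have h3 : Tg M o b G b
          = -(X ^ 2 * G b) + ∑ t ∈ Finset.univ.erase b, C (Kre M b t) * G t := by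
        rw [Tg_eq_sC_uq hq]
        unfold sC
        rw [opK_apply, Pi.add_apply, Pi.smul_apply, smul_eq_mul, rowf_apply]
        have h4 : (al ℝ[X] b) b = 1 := by simp [al]
        rw [h4, mul_one, ← Finset.add_sum_erase _ _ (Finset.mem_univ b), Kre_self]
        have h5 : (C (-2) : ℝ[X]) = -2 := by
          rw [C_neg]; rfl
        rw [h5]
        have h6 : ∑ t ∈ Finset.univ.erase b, C (Kre M b t) * uq b G t
            = ∑ t ∈ Finset.univ.erase b, C (Kre M b t) * G t := by
          apply Finset.sum_congr rfl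
          intro t ht
          unfold uq
          rw [if_neg (Finset.ne_of_mem_erase ht)]
        rw [h6]
        unfold uq
        rw [if_pos rfl]
        ring
      rw [h3, coeff_add, coeff_neg] at h2
      linarith
    have h2 : (X ^ 2 * G b).natDegree
        ≤ (∑ t ∈ Finset.univ.erase b, C (Kre M b t) * G t).natDegree :=
      natDegree_le_of_coeff_le ((NN_X_pow 2).mul (hG b)) h1
    apply h2.trans
    apply natDegree_sum_le_of_forall_le
    intro t _
    exact (natDegree_C_mul_le _ _).trans (natDegree_le_vdeg G t)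
  · unfold uq
    rw [if_neg hb]
    exact natDegree_le_vdeg G b

/-- degree rule for a first letter which is not a left descent of `x s`. -/
theorem vdeg_tau_skip {o : B → B → Bool} (ho : Anti o) {q : B} (hq : Src M o q) {x : W} {s : B}
    (h : ¬ cs.IsLeftDescent x q) (hs : ¬ cs.IsRightDescent x s)
    (h2 : ¬ cs.IsLeftDescent (x * cs.simple s) q) :
    vdeg (tau cs o x (al ℝ[X] s))
      = (if s = q then 2 else 0) + vdeg (tau cs (flip q o) x (al ℝ[X] s)) := by
  have hl : cs.length (cs.simple q * x) = cs.length (cs.simple q) + cs.length x := by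
    rw [cs.length_simple, cs.not_isLeftDescent_iff.mp h, add_comm]
  have h3 : ¬ cs.IsRightDescent (cs.simple q * x) s := by
    rw [cs.not_isRightDescent_iff, mul_assoc, cs.not_isLeftDescent_iff.mp h2,
      cs.not_isRightDescent_iff.mp hs, cs.not_isLeftDescent_iff.mp h]
  have h4 : ∀ b, NN (Tg M o q (tau cs o x (al ℝ[X] s)) b) := by
    intro b
    have := tau_NN cs ho h3 b
    rwa [tau_mul cs ho hl, tau_simple cs ho, Module.End.mul_apply] at this
  rw [← vdeg_uq_eq hq (tau_NN cs ho hs) h4, tau_flip_al cs ho hq,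
    vdeg_X_pow_smul (tau_al_ne_zero cs _ _ _)]

/-- degree rule for a first letter in the crossing case. -/
theorem vdeg_tau_cross {o : B → B → Bool} (ho : Anti o) {q : B} (hq : Src M o q) {x : W} {s : B}
    (h : ¬ cs.IsLeftDescent x q) (hs : ¬ cs.IsRightDescent x s)
    (h2 : cs.IsLeftDescent (x * cs.simple s) q) :
    vdeg (tau cs o x (al ℝ[X] s)) + 2
      = (if s = q then 2 else 0) + vdeg (tau cs (flip q o) x (al ℝ[X] s)) := by
  have hex := exch_left cs h h2
  have hl : cs.length (cs.simple q * x) = cs.length (cs.simple q) + cs.length x := by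
    rw [cs.length_simple, cs.not_isLeftDescent_iff.mp h, add_comm]
  have hl2 : cs.length (x * cs.simple s) = cs.length x + cs.length (cs.simple s) := by
    rw [cs.length_simple, cs.not_isRightDescent_iff.mp hs]
  set G := tau cs o x (al ℝ[X] s) with hG
  have hT : Tg M o q G = -(X ^ 2 : ℝ[X]) • G := by
    have e1 : Tg M o q G = tau cs o (cs.simple q * x) (al ℝ[X] s) := by
      rw [tau_mul cs ho hl, tau_simple cs ho, Module.End.mul_apply]
    rw [e1, hex, tau_mul cs ho hl2, tau_simple cs ho, Module.End.mul_apply]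
    have e2 : Tg M o s (al ℝ[X] s) = -(X ^ 2 : ℝ[X]) • al ℝ[X] s := by
      unfold Tg
      rw [opK_al, Kg_self]
      have : al ℝ[X] s = (1 : ℝ[X]) • al ℝ[X] s := by simp
      conv_lhs => rw [this]
      rw [smul_smul, ← add_smul]
      congr 1
      ring
    rw [e2, map_smul]
  have h0 : ∀ b, b ≠ q → G b = 0 := by
    intro b hb
    have h3 := congrFun hT b
    unfold Tg at h3
    rw [opK_apply, Pi.add_apply, Pi.smul_apply, Pi.smul_apply] at h3
    have h4 : (al ℝ[X] q) b = 0 := by simp [al, hb]
    rw [h4, smul_zero, add_zero, smul_eq_mul] at h3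
    have h5 : (1 + X ^ 2 : ℝ[X]) * G b = 0 := by linear_combination h3
    rcases mul_eq_zero.mp h5 with h6 | h6
    · exfalso
      have := congrArg (eval 0) h6
      simp at this
    · exact h6
  have h5 : uq q G = (X ^ 2 : ℝ[X]) • G := by
    funext b
    unfold uq
    by_cases hb : b = q
    · rw [if_pos hb]; rfl
    · rw [if_neg hb, Pi.smul_apply, h0 b hb, smul_zero]
  rw [← vdeg_X_pow_smul (tau_al_ne_zero cs (flip q o) x s), ← tau_flip_al cs ho hq, ← hG, h5,
    vdeg_X_pow_smul (tau_al_ne_zero cs o x s)]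
  ring

end Op

end CxA
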