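import Mathlib
import Pool.Agent.helper52.Cox.Root

/-!
The right weak order, joins and meets in lower intervals, closed chains.
-/

namespace CxA

open CoxeterSystem

section Basic

variable {B : Type*} {W : Type*} [Group W] {M : CoxeterMatrix B} (cs : CoxeterSystem M W)

/-- right weak order -/
def wle (u v : W) : Prop := cs.length v = cs.length u + cs.length (u⁻¹ * v)

theorem wle_refl (u : W) : wle cs u u := by simp [wle]

theorem one_wle (u : W) : wle cs 1 u := by simp [wle]

theorem wle_length {u v : W} (h : wle cs u v) : cs.length u ≤ cs.length v := by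
  unfold wle at h; omega

theorem wle_trans {u v w : W} (h1 : wle cs u v) (h2 : wle cs v w) : wle cs u w := by
  unfold wle at *
  have h3 := cs.length_mul_le u (u⁻¹ * w)
  rw [mul_inv_cancel_left] at h3
  have h4 := cs.length_mul_le (u⁻¹ * v) (v⁻¹ * w)
  rw [mul_assoc, mul_inv_cancel_left] at h4
  omega

theorem wle_antisymm {u v : W} (h1 : wle cs u v) (h2 : wle cs v u) : u = v := by
  unfold wle at *
  have h3 : cs.length (u⁻¹ * v) = 0 := by omega
  rw [cs.length_eq_zero_iff] at h3
  exact inv_mul_eq_one.mp h3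

theorem wle_one {u : W} (h : wle cs u 1) : u = 1 := wle_antisymm cs h (one_wle cs u)

theorem wle_mul_iff {u g : W} :
    wle cs u (u * g) ↔ cs.length (u * g) = cs.length u + cs.length g := by
  unfold wle
  rw [inv_mul_cancel_left]

theorem wle_simple {x : W} {s : B} (h : ¬ cs.IsRightDescent x s) : wle cs x (x * cs.simple s) := by
  rw [wle_mul_iff, cs.length_simple, cs.not_isRightDescent_iff.mp h]

theorem wle_simple_iff {x v : W} {s : B} (h : wle cs x v) (hs : ¬ cs.IsRightDescent x s) :
    wle cs (x * cs.simple s) v ↔ cs.IsLeftDescent (x⁻¹ * v) s := by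
  unfold wle at *
  rw [cs.isLeftDescent_iff, mul_inv_rev, cs.inv_simple, mul_assoc,
    cs.not_isRightDescent_iff.mp hs]
  omega

theorem exists_step {x v : W} (h : wle cs x v) (hne : x ≠ v) :
    ∃ s, ¬ cs.IsRightDescent x s ∧ wle cs (x * cs.simple s) v := by
  have h1 : x⁻¹ * v ≠ 1 := fun h2 => hne (inv_mul_eq_one.mp h2)
  obtain ⟨s, hs⟩ := cs.exists_leftDescent_of_ne_one h1
  have h2 : ¬ cs.IsRightDescent x s := by
    intro h3
    have h4 := cs.isRightDescent_iff.mp h3
    have h5 := cs.isLeftDescent_iff.mp hs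
    have h6 := cs.length_mul_le (x * cs.simple s) (cs.simple s * (x⁻¹ * v))
    have h7 : x * cs.simple s * (cs.simple s * (x⁻¹ * v)) = v := by
      rw [← mul_assoc, cs.simple_mul_simple_cancel_right, mul_inv_cancel_left]
    rw [h7] at h6
    unfold wle at h
    omega
  exact ⟨s, h2, (wle_simple_iff cs h h2).mpr hs⟩

theorem exists_step_down {x v : W} (h : wle cs x v) (hne : x ≠ v) :
    ∃ (s : B) (u : W), v = u * cs.simple s ∧ ¬ cs.IsRightDescent u s ∧ wle cs x u := by
  have h1 : x⁻¹ * v ≠ 1 := fun h2 => hne (inv_mul_eq_one.mp h2)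
  obtain ⟨s, hs⟩ := cs.exists_rightDescent_of_ne_one h1
  have h5 := cs.isRightDescent_iff.mp hs
  refine ⟨s, v * cs.simple s, by simp, ?_, ?_⟩
  · intro h3
    have h4 := cs.isRightDescent_iff.mp h3
    rw [cs.simple_mul_simple_cancel_right] at h4
    have h6 := cs.length_mul_le x (x⁻¹ * v * cs.simple s)
    have h7 : x * (x⁻¹ * v * cs.simple s) = v * cs.simple s := by
      group
    rw [h7] at h6
    unfold wle at h
    omega
  · unfold wle at *
    have h6 := cs.length_mul_le x (x⁻¹ * v * cs.simple s)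
    have h7 : x * (x⁻¹ * v * cs.simple s) = v * cs.simple s := by
      group
    rw [h7] at h6
    rcases cs.length_mul_simple v s with h8 | h8
    · omega
    · rw [← mul_assoc]
      omega

theorem leftDescent_mono {x v : W} {q : B} (h : wle cs x v) (hq : cs.IsLeftDescent x q) :
    cs.IsLeftDescent v q := by
  unfold wle at h
  unfold CoxeterSystem.IsLeftDescent
  have h1 := cs.isLeftDescent_iff.mp hq
  have h2 := cs.length_mul_le (cs.simple q * x) (x⁻¹ * v)
  have h3 : cs.simple q * x * (x⁻¹ * v) = cs.simple q * v := by group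
  rw [h3] at h2
  omega

theorem wle_fire {x v : W} {q : B} (hx : cs.IsLeftDescent x q) (hv : cs.IsLeftDescent v q) :
    wle cs (cs.simple q * x) (cs.simple q * v) ↔ wle cs x v := by
  unfold wle
  have h1 := cs.isLeftDescent_iff.mp hx
  have h2 := cs.isLeftDescent_iff.mp hv
  have h3 : (cs.simple q * x)⁻¹ * (cs.simple q * v) = x⁻¹ * v := by
    rw [mul_inv_rev, cs.inv_simple, mul_assoc, cs.simple_mul_simple_cancel_left]
  rw [h3]
  omega

theorem simple_wle_iff {x : W} {q : B} : wle cs (cs.simple q) x ↔ cs.IsLeftDescent x q := by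
  unfold wle
  rw [cs.isLeftDescent_iff, cs.length_simple, cs.inv_simple]
  omega

/-- anti-automorphism -/
theorem wle_rev {v x y : W} (hx : wle cs x v) (hy : wle cs y v) :
    wle cs (v⁻¹ * y) (v⁻¹ * x) ↔ wle cs x y := by
  unfold wle at *
  have h3 : (v⁻¹ * y)⁻¹ * (v⁻¹ * x) = (x⁻¹ * y)⁻¹ := by group
  rw [h3, cs.length_inv]
  have h1 : cs.length (v⁻¹ * x) = cs.length (x⁻¹ * v) := by
    rw [← cs.length_inv]; congr 1; group
  have h2 : cs.length (v⁻¹ * y) = cs.length (y⁻¹ * v) := by
    rw [← cs.length_inv]; congr 1; group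
  rw [h1, h2]
  omega

theorem wle_rev_top {v x : W} (hx : wle cs x v) : wle cs (v⁻¹ * x) v⁻¹ := by
  unfold wle at *
  have h3 : (v⁻¹ * x)⁻¹ * v⁻¹ = x⁻¹ := by group
  rw [h3, cs.length_inv, cs.length_inv]
  have h1 : cs.length (v⁻¹ * x) = cs.length (x⁻¹ * v) := by
    rw [← cs.length_inv]; congr 1; group
  rw [h1]
  omega

/-- least upper bound -/
def IsJ (x y j : W) : Prop := wle cs x j ∧ wle cs y j ∧ ∀ h, wle cs x h → wle cs y h → wle cs j h

/-- greatest lower bound -/
def IsM (x y m : W) : Prop := wle cs m x ∧ wle cs m y ∧ ∀ h, wle cs h x → wle cs h y → wle cs h m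

theorem IsJ.symm {x y j : W} (h : IsJ cs x y j) : IsJ cs y x j :=
  ⟨h.2.1, h.1, fun k h1 h2 => h.2.2 k h2 h1⟩

theorem IsM.symm {x y j : W} (h : IsM cs x y j) : IsM cs y x j :=
  ⟨h.2.1, h.1, fun k h1 h2 => h.2.2 k h2 h1⟩

theorem IsJ.unique {x y j j' : W} (h : IsJ cs x y j) (h' : IsJ cs x y j') : j = j' :=
  wle_antisymm cs (h.2.2 _ h'.1 h'.2.1) (h'.2.2 _ h.1 h.2.1)

theorem IsM.unique {x y j j' : W} (h : IsM cs x y j) (h' : IsM cs x y j') : j = j' :=
  wle_antisymm cs (h'.2.2 _ h.1 h.2.1) (h.2.2 _ h'.1 h'.2.1)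

theorem isJ_of_wle {x y : W} (h : wle cs x y) : IsJ cs x y y :=
  ⟨h, wle_refl cs y, fun _ _ h2 => h2⟩

theorem isM_of_wle {x y : W} (h : wle cs x y) : IsM cs x y x :=
  ⟨wle_refl cs x, h, fun _ h2 _ => h2⟩

end Basic

section Lattice

variable {B : Type*} [Fintype B] [DecidableEq B] {W : Type*} [Group W] {M : CoxeterMatrix B}
  (cs : CoxeterSystem M W)

/-- polygon decomposition on the left -/
theorem left_polygon {g : W} {s t : B} (hst : s ≠ t) (hs : cs.IsLeftDescent g s)
    (ht : cs.IsLeftDescent g t) :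
    M s t ≠ 0 ∧ ∃ h : W, g = cs.wordProd (altw s t (M s t)) * h ∧
      cs.length g = M s t + cs.length h := by
  have hs' : cs.IsRightDescent g⁻¹ s := cs.isRightDescent_inv_iff.mpr hs
  have ht' : cs.IsRightDescent g⁻¹ t := cs.isRightDescent_inv_iff.mpr ht
  obtain ⟨hM, v, hv, hl, _, _⟩ := right_polygon cs hst hs' ht'
  refine ⟨hM, v⁻¹, ?_, ?_⟩
  · have h1 := congrArg (fun z => z⁻¹) hv
    simp only [inv_inv, mul_inv_rev] at h1
    rw [h1]
    congr 1
    obtain ⟨k, hk⟩ : ∃ k, M s t = k + 1 := ⟨M s t - 1, by omega⟩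
    rw [← cs.wordProd_reverse, hk, altw_reverse]
    rcases nxt_cases s t k with h | h
    · rw [h.1, h.2]
    · rw [h.1, h.2, ← hk, wordProd_altw_braid]
  · rw [cs.length_inv] at hl
    rw [hl, cs.length_inv, add_comm]

/-- the polygon above `x` -/
theorem polygon_wle {x v : W} {s t : B} (hst : s ≠ t) (hs : ¬ cs.IsRightDescent x s)
    (ht : ¬ cs.IsRightDescent x t) (hsv : wle cs (x * cs.simple s) v)
    (htv : wle cs (x * cs.simple t) v) :
    M s t ≠ 0 ∧ wle cs (x * cs.wordProd (altw s t (M s t))) v := by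
  have hxv : wle cs x v := wle_trans cs (wle_simple cs hs) hsv
  obtain ⟨hM, h, hg, hl⟩ := left_polygon cs hst ((wle_simple_iff cs hxv hs).mp hsv)
    ((wle_simple_iff cs hxv ht).mp htv)
  refine ⟨hM, ?_⟩
  have h1 := length_mul_altw cs hst hs ht (M s t) (Or.inr le_rfl)
  unfold wle at *
  have h2 : (x * cs.wordProd (altw s t (M s t)))⁻¹ * v = h := by
    rw [mul_inv_rev, mul_assoc, hg, inv_mul_cancel_left]
  rw [h2, h1, hxv, hl]
  ring

theorem wle_altw {x : W} {s t : B} (hst : s ≠ t) (hs : ¬ cs.IsRightDescent x s)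
    (ht : ¬ cs.IsRightDescent x t) {j k : ℕ} (hjk : j ≤ k) (hk : M s t = 0 ∨ k ≤ M s t) :
    wle cs (x * cs.wordProd (altw s t j)) (x * cs.wordProd (altw s t k)) := by
  obtain ⟨l, rfl⟩ : ∃ l, k = j + l := ⟨k - j, by omega⟩
  rw [altw_add, cs.wordProd_append, ← mul_assoc, wle_mul_iff, mul_assoc, ← cs.wordProd_append,
    ← altw_add, length_mul_altw cs hst hs ht _ hk, length_mul_altw cs hst hs ht j (by omega)]
  have h1 : cs.IsReduced (altw (nxt s t j) (nxt t s j) l) := by
    have h2 := (isReduced_altw cs hst (j + l) hk).drop j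
    rw [altw_add, List.drop_left' (length_altw s t j)] at h2
    exact h2
  rw [h1.eq, length_altw]
  ring

/-- uniqueness of upper bounds in a polygon -/
theorem polygon_isJ {x : W} {s t : B} (hst : s ≠ t) (hs : ¬ cs.IsRightDescent x s)
    (ht : ¬ cs.IsRightDescent x t) (hM : M s t ≠ 0) :
    IsJ cs (x * cs.simple s) (x * cs.simple t) (x * cs.wordProd (altw s t (M s t))) := by
  have hM1 : M s t ≠ 1 := M_ne_one hst
  refine ⟨?_, ?_, fun h h1 h2 => (polygon_wle cs hst hs ht h1 h2).2⟩
  · have := wle_altw cs hst hs ht (j := 1) (k := M s t) (by omega) (by omega)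
    simpa [altw_succ] using this
  · have := wle_altw cs hst.symm ht hs (j := 1) (k := M t s) (by rw [M.symmetric]; omega)
      (by omega)
    rw [M.symmetric t s, ← wordProd_altw_braid] at this
    simpa [altw_succ] using this

theorem exists_join_aux (ω : W) (n : ℕ) : ∀ z x y : W, cs.length ω - cs.length z = n →
    wle cs z x → wle cs z y → wle cs x ω → wle cs y ω → ∃ j, IsJ cs x y j := by
  induction n using Nat.strong_induction_on with
  | _ n ih =>
    intro z x y hn hzx hzy hx hy
    by_cases hx0 : z = x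
    · exact ⟨y, isJ_of_wle cs (hx0 ▸ hzy)⟩
    by_cases hy0 : z = y
    · exact ⟨x, (isJ_of_wle cs (hy0 ▸ hzx)).symm⟩
    obtain ⟨s, hs, hsx⟩ := exists_step cs hzx hx0
    obtain ⟨t, ht, hty⟩ := exists_step cs hzy hy0
    have hls := cs.not_isRightDescent_iff.mp hs
    have hlt := cs.not_isRightDescent_iff.mp ht
    have hsω := wle_trans cs hsx hx
    have htω := wle_trans cs hty hy
    have h1 := wle_length cs hsω
    by_cases hst : s = t
    · subst hst
      exact ih _ (by omega) (z * cs.simple s) x y rfl hsx hty hx hy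
    · obtain ⟨hM, hp⟩ := polygon_wle cs hst hs ht hsω htω
      have hpJ := polygon_isJ cs hst hs ht hM
      obtain ⟨u, hu⟩ := ih _ (by omega) (z * cs.simple s) x _ rfl hsx hpJ.1 hx hp
      have huω : wle cs u ω := hu.2.2 ω hx hp
      obtain ⟨j, hj⟩ := ih _ (by omega) (z * cs.simple t) u y rfl
        (wle_trans cs hpJ.2.1 hu.2.1) hty huω hy
      refine ⟨j, wle_trans cs hu.1 hj.1, hj.2.1, ?_⟩
      intro h hxh hyh
      apply hj.2.2 h _ hyh
      apply hu.2.2 h hxh
      exact hpJ.2.2 h (wle_trans cs hsx hxh) (wle_trans cs hty hyh)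

theorem exists_join {ω x y : W} (hx : wle cs x ω) (hy : wle cs y ω) : ∃ j, IsJ cs x y j :=
  exists_join_aux cs ω _ 1 x y rfl (one_wle cs x) (one_wle cs y) hx hy

omit [Fintype B] [DecidableEq B] in
/-- joins and meets are exchanged by the anti-automorphism -/
theorem isM_of_rev {ω x y j : W} (hx : wle cs x ω) (hy : wle cs y ω)
    (hj : IsJ cs (ω⁻¹ * x) (ω⁻¹ * y) j) : IsM cs x y (ω * j) ∧ wle cs (ω * j) ω := by
  have hjω : wle cs j ω⁻¹ := hj.2.2 _ (wle_rev_top cs hx) (wle_rev_top cs hy)
  have hjω2 : wle cs (ω * j) ω := by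
    have := wle_rev_top cs hjω
    rwa [inv_inv] at this
  have key : ∀ h, wle cs h ω → (wle cs j (ω⁻¹ * h) ↔ wle cs h (ω * j)) := by
    intro h hh
    rw [← wle_rev cs hh hjω2, inv_mul_cancel_left]
  refine ⟨⟨?_, ?_, ?_⟩, hjω2⟩
  · rw [← wle_rev cs hjω2 hx, inv_mul_cancel_left]
    exact hj.1
  · rw [← wle_rev cs hjω2 hy, inv_mul_cancel_left]
    exact hj.2.1
  · intro h hhx hhy
    have hhω := wle_trans cs hhx hx
    rw [← key h hhω]
    apply hj.2.2
    · rwa [wle_rev cs hhω hx]
    · rwa [wle_rev cs hhω hy]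

theorem exists_meet {ω x y : W} (hx : wle cs x ω) (hy : wle cs y ω) : ∃ m, IsM cs x y m := by
  obtain ⟨j, hj⟩ := exists_join cs (wle_rev_top cs hx) (wle_rev_top cs hy)
  exact ⟨_, (isM_of_rev cs hx hy hj).1⟩

theorem isJ_rev {ω x y m : W} (hx : wle cs x ω) (hy : wle cs y ω) (hm : IsM cs x y m) :
    IsJ cs (ω⁻¹ * x) (ω⁻¹ * y) (ω⁻¹ * m) := by
  obtain ⟨j, hj⟩ := exists_join cs (wle_rev_top cs hx) (wle_rev_top cs hy)
  have h1 := hm.unique cs (isM_of_rev cs hx hy hj).1
  rw [h1, inv_mul_cancel_left]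
  exact hj

end Lattice

section Chain

variable {B : Type*} {W : Type*} [Group W] {M : CoxeterMatrix B} (cs : CoxeterSystem M W)

/-- one step along a closed edge -/
def CStep (C : W → B → Prop) (u v : W) : Prop :=
  ∃ s, v = u * cs.simple s ∧ ¬ cs.IsRightDescent u s ∧ C u s

/-- closed chains -/
def Ch (C : W → B → Prop) : W → W → Prop := Relation.ReflTransGen (CStep cs C)

theorem Ch.wle {C : W → B → Prop} {u v : W} (h : Ch cs C u v) : wle cs u v := by
  unfold Ch at h
  induction h with
  | refl => exact wle_refl cs u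
  | tail _ h2 ih =>
    obtain ⟨s, rfl, hs, _⟩ := h2
    exact wle_trans cs ih (wle_simple cs hs)

/-- the polygon property of a set of closed edges -/
def PolyP (C : W → B → Prop) (ω : W) : Prop :=
  ∀ (x : W) (s t : B), s ≠ t → ¬ cs.IsRightDescent x s → ¬ cs.IsRightDescent x t →
    wle cs (x * cs.simple s) ω → wle cs (x * cs.simple t) ω → C x s →
    ∀ k, 1 ≤ k → k + 1 ≤ M s t → C (x * cs.wordProd (altw t s k)) (nxt t s k)

/-- reversed set of edges -/
def revC (ω : W) (C : W → B → Prop) : W → B → Prop := fun y s => C (ω * y * cs.simple s) s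

theorem Ch_rev {ω : W} {C : W → B → Prop} {u v : W} (h : Ch cs (revC cs ω C) u v)
    (hv : wle cs v ω⁻¹) : Ch cs C (ω * v) (ω * u) := by
  unfold Ch at h
  induction h with
  | refl => exact Relation.ReflTransGen.refl
  | @tail b c h1 h2 ih =>
    obtain ⟨s, rfl, hs, hC⟩ := h2
    have hb : wle cs b ω⁻¹ := wle_trans cs (wle_simple cs hs) hv
    refine Relation.ReflTransGen.head ?_ (ih hb)
    refine ⟨s, ?_, ?_, ?_⟩
    · rw [← mul_assoc, cs.simple_mul_simple_cancel_right]
    · rw [cs.not_isRightDescent_iff, ← mul_assoc, cs.simple_mul_simple_cancel_right]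
      have h3 := wle_rev_top cs hb
      have h4 := wle_rev_top cs hv
      rw [inv_inv] at h3 h4
      have h5 := (wle_rev cs hb hv).mpr (wle_simple cs hs)
      rw [inv_inv] at h5
      unfold wle at h5
      have h6 : (ω * (b * cs.simple s))⁻¹ * (ω * b) = cs.simple s := by
        rw [mul_inv_rev, mul_assoc, inv_mul_cancel_left, mul_inv_rev, mul_assoc, inv_mul_cancel,
          mul_one, cs.inv_simple]
      rw [h6, cs.length_simple] at h5
      rw [h5, mul_assoc]
    · unfold revC at hC
      rw [← mul_assoc]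
      exact hC

end Chain

section JC

variable {B : Type*} [Fintype B] [DecidableEq B] {W : Type*} [Group W] {M : CoxeterMatrix B}
  (cs : CoxeterSystem M W)

theorem join_chain_aux {C : W → B → Prop} {ω : W} (hC : PolyP cs C ω) (n : ℕ) :
    ∀ (z x j : W) (s : B), cs.length ω - cs.length z = n → ¬ cs.IsRightDescent z s →
    wle cs (z * cs.simple s) ω → C z s → wle cs z x → wle cs x ω →
    IsJ cs x (z * cs.simple s) j → Ch cs C x j := by
  induction n using Nat.strong_induction_on with
  | _ n ih =>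
    intro z x j s hn hs hsω hCz hzx hx hj
    have hls := cs.not_isRightDescent_iff.mp hs
    have hlω := wle_length cs hsω
    by_cases hx0 : z = x
    · subst hx0
      have h1 : j = z * cs.simple s := hj.unique cs (isJ_of_wle cs (wle_simple cs hs))
      rw [h1]
      exact Relation.ReflTransGen.single ⟨s, rfl, hs, hCz⟩
    obtain ⟨t, ht, htx⟩ := exists_step cs hzx hx0
    have htω := wle_trans cs htx hx
    by_cases hst : s = t
    · subst hst
      have h1 : j = x := hj.unique cs (isJ_of_wle cs htx).symm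
      rw [h1]
      exact Relation.ReflTransGen.refl
    · obtain ⟨hM, hp⟩ := polygon_wle cs hst hs ht hsω htω
      have hM1 : M s t ≠ 1 := M_ne_one hst
      have hpJ := polygon_isJ cs hst hs ht hM
      have hM' : M t s = M s t := M.symmetric t s
      have hpeq : z * cs.wordProd (altw t s (M s t)) = z * cs.wordProd (altw s t (M s t)) := by
        rw [wordProd_altw_braid]
      have hlk : ∀ k, k ≤ M s t → cs.length (z * cs.wordProd (altw t s k)) = cs.length z + k :=
        fun k hk => length_mul_altw cs (Ne.symm hst) ht hs k (by omega)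
      have hkp : ∀ k, k ≤ M s t →
          wle cs (z * cs.wordProd (altw t s k)) (z * cs.wordProd (altw s t (M s t))) := by
        intro k hk
        rw [← hpeq]
        exact wle_altw cs (Ne.symm hst) ht hs hk (by omega)
      have claim : ∀ k, 1 ≤ k → k ≤ M s t →
          ∃ jk, IsJ cs x (z * cs.wordProd (altw t s k)) jk ∧ Ch cs C x jk := by
        intro k hk1
        induction k, hk1 using Nat.le_induction with
        | base =>
          intro _
          refine ⟨x, ?_, Relation.ReflTransGen.refl⟩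
          have : z * cs.wordProd (altw t s 1) = z * cs.simple t := by simp [altw_succ]
          rw [this]
          exact (isJ_of_wle cs htx).symm
        | succ k hk1 ihk =>
          intro hkM
          obtain ⟨jk, hjk, hch⟩ := ihk (by omega)
          have hzk := hkp k (by omega)
          have hstep : z * cs.wordProd (altw t s (k + 1))
              = z * cs.wordProd (altw t s k) * cs.simple (nxt t s k) := by
            rw [altw_concat, cs.wordProd_append, cs.wordProd_singleton, mul_assoc]
          have hnd : ¬ cs.IsRightDescent (z * cs.wordProd (altw t s k)) (nxt t s k) := by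
            rw [cs.not_isRightDescent_iff, ← hstep, hlk _ hkM, hlk k (by omega)]
            ring
          have hclosed := hC z s t hst hs ht hsω htω hCz k hk1 hkM
          have hjkω : wle cs jk ω := hjk.2.2 ω hx (wle_trans cs hzk hp)
          have hzk1ω : wle cs (z * cs.wordProd (altw t s k) * cs.simple (nxt t s k)) ω := by
            rw [← hstep]
            exact wle_trans cs (hkp _ hkM) hp
          obtain ⟨j', hj'⟩ := exists_join cs hjkω hzk1ω
          refine ⟨j', ?_, ?_⟩
          · rw [hstep]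
            refine ⟨wle_trans cs hjk.1 hj'.1, hj'.2.1, ?_⟩
            intro h h1 h2
            apply hj'.2.2 h _ h2
            exact hjk.2.2 h h1 (wle_trans cs (wle_simple cs hnd) h2)
          · refine Relation.ReflTransGen.trans hch ?_
            apply ih _ _ (z * cs.wordProd (altw t s k)) jk j' (nxt t s k) rfl hnd hzk1ω hclosed
              hjk.2.1 hjkω hj'
            rw [hlk k (by omega)]
            omega
      obtain ⟨jm, hjm, hch⟩ := claim (M s t) (by omega) le_rfl
      have : j = jm := by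
        rw [hpeq] at hjm
        apply wle_antisymm cs
        · exact hj.2.2 _ hjm.1 (wle_trans cs hpJ.1 hjm.2.1)
        · apply hjm.2.2 _ hj.1
          apply hpJ.2.2 _ hj.2.1
          exact wle_trans cs htx hj.1
      rw [this]
      exact hch

/-- joining a closed edge -/
theorem join_chain {C : W → B → Prop} {ω : W} (hC : PolyP cs C ω) {z x j : W} {s : B}
    (hs : ¬ cs.IsRightDescent z s) (hsω : wle cs (z * cs.simple s) ω) (hCz : C z s)
    (hzx : wle cs z x) (hx : wle cs x ω) (hj : IsJ cs x (z * cs.simple s) j) : Ch cs C x j :=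
  join_chain_aux cs hC _ z x j s rfl hs hsω hCz hzx hx hj

/-- meeting a closed edge -/
theorem meet_chain {C : W → B → Prop} {ω : W} (hC : PolyP cs (revC cs ω C) ω⁻¹) {x z m : W} {s : B}
    (hs : ¬ cs.IsRightDescent x s) (hsω : wle cs (x * cs.simple s) ω) (hCx : C x s)
    (hz : wle cs z (x * cs.simple s)) (hm : IsM cs z x m) : Ch cs C m z := by
  have hxω := wle_trans cs (wle_simple cs hs) hsω
  have hzω := wle_trans cs hz hsω
  have hmω := wle_trans cs hm.1 hzω
  have h1 : Ch cs (revC cs ω C) (ω⁻¹ * z) (ω⁻¹ * m) := by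
    have e1 : ω⁻¹ * (x * cs.simple s) * cs.simple s = ω⁻¹ * x := by
      rw [mul_assoc, cs.simple_mul_simple_cancel_right]
    apply join_chain cs hC (z := ω⁻¹ * (x * cs.simple s)) (s := s)
    · rw [cs.not_isRightDescent_iff, e1]
      have h5 := (wle_rev cs hxω hsω).mpr (wle_simple cs hs)
      unfold wle at h5
      have h6 : (ω⁻¹ * (x * cs.simple s))⁻¹ * (ω⁻¹ * x) = cs.simple s := by
        rw [mul_inv_rev, mul_assoc, inv_mul_cancel_left, mul_inv_rev, mul_assoc, inv_mul_cancel,
          mul_one, cs.inv_simple]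
      rw [h6, cs.length_simple] at h5
      exact h5
    · rw [e1]
      exact wle_rev_top cs hxω
    · unfold revC
      rw [mul_inv_cancel_left, cs.simple_mul_simple_cancel_right]
      exact hCx
    · exact (wle_rev cs hzω hsω).mpr hz
    · exact wle_rev_top cs hzω
    · rw [e1]
      exact isJ_rev cs hzω hxω hm
  have h2 := Ch_rev cs h1 (wle_rev_top cs hmω)
  rw [mul_inv_cancel_left, mul_inv_cancel_left] at h2
  exact h2

/-- meeting a closed chain -/
theorem meet_closed_chain {C : W → B → Prop} {ω : W} (hC : PolyP cs (revC cs ω C) ω⁻¹)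
    {a b w : W} (h : Ch cs C a b) (hb : wle cs b ω) (hw : wle cs w ω) :
    ∀ ma mb, IsM cs a w ma → IsM cs b w mb → Ch cs C ma mb := by
  unfold Ch at h
  induction h with
  | refl =>
    intro ma mb h1 h2
    rw [h1.unique cs h2]
    exact Relation.ReflTransGen.refl
  | @tail b c h1 h2 ih =>
    intro ma mc hma hmc
    obtain ⟨s, rfl, hs, hCb⟩ := h2
    have hbω : wle cs b ω := wle_trans cs (wle_simple cs hs) hb
    obtain ⟨mb, hmb⟩ := exists_meet cs hbω hw
    refine Relation.ReflTransGen.trans (ih hbω ma mb hma hmb) ?_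
    apply meet_chain cs hC hs hb hCb hmc.1
    -- `mc ∧ b = b ∧ w`
    refine ⟨?_, hmb.1, ?_⟩
    · exact hmc.2.2 _ (wle_trans cs hmb.1 (wle_simple cs hs)) hmb.2.1
    · intro h h1 h2
      exact hmb.2.2 h h2 (wle_trans cs h1 hmc.2.1)

end JC

end CxA
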