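import Mathlib
import Pool.Agent.helper52.Cox.Weak

/-!
Subwords, facets and toggles.
-/

namespace CxA

open CoxeterSystem

section Basic

variable {B : Type*} {W : Type*} [Group W] {M : CoxeterMatrix B} (cs : CoxeterSystem M W)

/-- `Q` contains a reduced word of `v` as a subword -/
def Contains (Q : List B) (v : W) : Prop :=
  ∃ l : List B, l.Sublist Q ∧ cs.IsReduced l ∧ cs.wordProd l = v

theorem Contains.reverse {Q : List B} {v : W} (h : Contains cs Q v) :
    Contains cs Q.reverse v⁻¹ := by
  obtain ⟨l, h1, h2, h3⟩ := h
  exact ⟨l.reverse, h1.reverse, h2.reverse, by rw [cs.wordProd_reverse, h3]⟩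

theorem contains_reverse_iff {Q : List B} {v : W} :
    Contains cs Q.reverse v⁻¹ ↔ Contains cs Q v := by
  constructor
  · intro h
    have := h.reverse
    rwa [List.reverse_reverse, inv_inv] at this
  · exact fun h => h.reverse

/-- letters that are fired -/
def fired : List B → List Bool → List B
  | q :: Q, true :: c => q :: fired Q c
  | _ :: Q, false :: c => fired Q c
  | [], _ => []
  | _ :: _, [] => []

/-- skip conditions -/
def Sk : List B → List Bool → W → Prop
  | q :: Q, true :: c, y => Sk Q c (cs.simple q * y)
  | q :: Q, false :: c, y => ¬ cs.IsLeftDescent y q ∧ Sk Q c y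
  | [], [], _ => True
  | [], _ :: _, _ => False
  | _ :: _, [], _ => False

@[simp] theorem fired_true (q : B) (Q : List B) (c : List Bool) :
    fired (q :: Q) (true :: c) = q :: fired Q c := rfl
@[simp] theorem fired_false (q : B) (Q : List B) (c : List Bool) :
    fired (q :: Q) (false :: c) = fired Q c := rfl
@[simp] theorem fired_nil (c : List Bool) : fired ([] : List B) c = [] := by
  cases c <;> rfl
@[simp] theorem fired_nil_right (Q : List B) : fired Q [] = [] := by
  cases Q <;> rfl
@[simp] theorem Sk_true (q : B) (Q : List B) (c : List Bool) (y : W) :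
    Sk cs (q :: Q) (true :: c) y ↔ Sk cs Q c (cs.simple q * y) := Iff.rfl
@[simp] theorem Sk_false (q : B) (Q : List B) (c : List Bool) (y : W) :
    Sk cs (q :: Q) (false :: c) y ↔ ¬ cs.IsLeftDescent y q ∧ Sk cs Q c y := Iff.rfl
@[simp] theorem Sk_nil (y : W) : Sk cs [] [] y ↔ True := Iff.rfl
@[simp] theorem Sk_nil_cons (b : Bool) (c : List Bool) (y : W) :
    Sk cs [] (b :: c) y ↔ False := Iff.rfl
@[simp] theorem Sk_cons_nil (q : B) (Q : List B) (y : W) :
    Sk cs (q :: Q) [] y ↔ False := Iff.rfl

theorem Sk.length {Q : List B} {c : List Bool} {y : W} (h : Sk cs Q c y) :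
    c.length = Q.length := by
  induction Q generalizing c y with
  | nil => cases c with
    | nil => rfl
    | cons b c => exact absurd h (by simp)
  | cons q Q ih => cases c with
    | nil => exact absurd h (by simp)
    | cons b c => cases b with
      | false => simp [ih h.2]
      | true => simp [ih h]

theorem fired_append (Q Q' : List B) (c c' : List Bool) (h : c.length = Q.length) :
    fired (Q ++ Q') (c ++ c') = fired Q c ++ fired Q' c' := by
  induction Q generalizing c with
  | nil =>
    have : c = [] := List.length_eq_zero_iff.mp h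
    subst this; simp
  | cons q Q ih => cases c with
    | nil => simp at h
    | cons b c =>
      have h' : c.length = Q.length := by simpa using h
      cases b with
      | false => simp [ih c h']
      | true => simp [ih c h']

theorem Sk_append (Q Q' : List B) (c c' : List Bool) (y : W) (h : c.length = Q.length) :
    Sk cs (Q ++ Q') (c ++ c') y ↔
      Sk cs Q c y ∧ Sk cs Q' c' ((cs.wordProd (fired Q c))⁻¹ * y) := by
  induction Q generalizing c y with
  | nil =>
    have : c = [] := List.length_eq_zero_iff.mp h
    subst this; simp
  | cons q Q ih => cases c with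
    | nil => simp at h
    | cons b c =>
      have h' : c.length = Q.length := by simpa using h
      cases b with
      | false => simp [ih c _ h', and_assoc]
      | true =>
        simp only [List.cons_append, Sk_true, fired_true, ih c _ h', cs.wordProd_cons,
          mul_inv_rev, cs.inv_simple, mul_assoc]

/-- facets `c` with `x` in their root cone region -/
def Fac (Q : List B) (v x : W) (c : List Bool) : Prop :=
  Sk cs Q c x ∧ cs.IsReduced (fired Q c) ∧ cs.wordProd (fired Q c) = v

theorem Fac_true {q : B} {Q : List B} {v x : W} {c : List Bool} :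
    Fac cs (q :: Q) v x (true :: c) ↔
      cs.IsLeftDescent v q ∧ Fac cs Q (cs.simple q * v) (cs.simple q * x) c := by
  unfold Fac
  simp only [Sk_true, fired_true, cs.wordProd_cons]
  constructor
  · rintro ⟨h1, h2, h3⟩
    have h4 : cs.IsReduced (fired Q c) := by simpa using h2.drop 1
    have h5 : cs.wordProd (fired Q c) = cs.simple q * v := by rw [← h3]; simp
    refine ⟨?_, h1, h4, h5⟩
    rw [cs.isLeftDescent_iff, ← h5, h4.eq, ← h3, ← cs.wordProd_cons, h2.eq]
    simp
  · rintro ⟨h0, h1, h2, h3⟩
    have h5 : cs.simple q * cs.wordProd (fired Q c) = v := by rw [h3]; simp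
    refine ⟨h1, ?_, h5⟩
    unfold CoxeterSystem.IsReduced
    rw [cs.wordProd_cons, h5, ← cs.isLeftDescent_iff.mp h0, ← h3, h2.eq]
    simp

theorem Fac_false {q : B} {Q : List B} {v x : W} {c : List Bool} :
    Fac cs (q :: Q) v x (false :: c) ↔ ¬ cs.IsLeftDescent x q ∧ Fac cs Q v x c := by
  unfold Fac
  simp only [Sk_false, fired_false]
  tauto

theorem Fac_nil {v x : W} {c : List Bool} : Fac cs [] v x c ↔ c = [] ∧ v = 1 := by
  unfold Fac
  cases c with
  | nil =>
    simp only [Sk_nil, fired_nil, cs.wordProd_nil, true_and]
    constructor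
    · rintro ⟨_, h⟩; exact h.symm
    · rintro h; exact ⟨by simp [CoxeterSystem.IsReduced], h.symm⟩
  | cons b c => simp

theorem Fac_snoc_true {q : B} {Q : List B} {v x : W} {c : List Bool} (hc : c.length = Q.length) :
    Fac cs (Q ++ [q]) v x (c ++ [true]) ↔
      cs.IsRightDescent v q ∧ Fac cs Q (v * cs.simple q) x c := by
  unfold Fac
  rw [Sk_append _ _ _ _ _ _ hc, fired_append _ _ _ _ hc]
  simp only [Sk_true, Sk_nil, and_true, fired_true, fired_nil, cs.wordProd_append,
    cs.wordProd_singleton]
  constructor
  · rintro ⟨h1, h2, h3⟩
    have h4 : cs.IsReduced (fired Q c) := by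
      have := h2.take (fired Q c).length
      simpa using this
    have h5 : cs.wordProd (fired Q c) = v * cs.simple q := by rw [← h3]; simp
    refine ⟨?_, h1, h4, h5⟩
    rw [cs.isRightDescent_iff, ← h5, h4.eq, ← h3, ← cs.wordProd_singleton, ← cs.wordProd_append,
      h2.eq]
    simp
  · rintro ⟨h0, h1, h2, h3⟩
    have h5 : cs.wordProd (fired Q c) * cs.simple q = v := by rw [h3]; simp
    refine ⟨h1, ?_, h5⟩
    unfold CoxeterSystem.IsReduced
    rw [cs.wordProd_append, cs.wordProd_singleton, h5, ← cs.isRightDescent_iff.mp h0, ← h3, h2.eq]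
    simp

theorem Fac_snoc_false {q : B} {Q : List B} {v x : W} {c : List Bool} (hc : c.length = Q.length) :
    Fac cs (Q ++ [q]) v x (c ++ [false]) ↔
      ¬ cs.IsLeftDescent (v⁻¹ * x) q ∧ Fac cs Q v x c := by
  unfold Fac
  rw [Sk_append _ _ _ _ _ _ hc, fired_append _ _ _ _ hc]
  simp only [Sk_false, Sk_nil, and_true, fired_false, fired_nil, List.append_nil]
  constructor
  · rintro ⟨⟨h1, h4⟩, h2, h3⟩
    rw [h3] at h4
    exact ⟨h4, h1, h2, h3⟩
  · rintro ⟨h4, h1, h2, h3⟩
    rw [h3]
    exact ⟨⟨h1, h4⟩, h2, rfl⟩

theorem Fac.length {Q : List B} {v x : W} {c : List Bool} (h : Fac cs Q v x c) :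
    c.length = Q.length := h.1.length

/-- reversal of facets -/
theorem Fac_reverse {Q : List B} {v x : W} {c : List Bool} :
    Fac cs Q.reverse v⁻¹ (v⁻¹ * x) c.reverse ↔ Fac cs Q v x c := by
  induction Q generalizing v x c with
  | nil =>
    rw [List.reverse_nil, Fac_nil, Fac_nil]
    simp
  | cons q Q ih =>
    cases c with
    | nil =>
      constructor
      · intro h
        have := h.length
        simp at this
      · intro h
        have := h.length
        simp at this
    | cons b c =>
      by_cases hc : c.length = Q.length
      · have hc' : c.reverse.length = Q.reverse.length := by simpa using hc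
        cases b with
        | true =>
          rw [List.reverse_cons, List.reverse_cons, Fac_snoc_true cs hc', Fac_true,
            cs.isRightDescent_inv_iff, ← ih]
          rw [mul_inv_rev, cs.inv_simple, mul_assoc, cs.simple_mul_simple_cancel_left]
        | false =>
          rw [List.reverse_cons, List.reverse_cons, Fac_snoc_false cs hc', Fac_false,
            ih, inv_inv, mul_inv_cancel_left]
      · constructor
        · intro h
          have := h.length
          simp at this
          exact absurd this hc
        · intro h
          have := h.length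
          simp at this
          exact absurd this hc

end Basic

section Cont

variable {B : Type*} [Fintype B] [DecidableEq B] {W : Type*} [Group W] {M : CoxeterMatrix B}
  (cs : CoxeterSystem M W)

theorem exch_word (l : List B) (q : B) (h : cs.IsLeftDescent (cs.wordProd l) q) :
    ∃ l1 a l2, l = l1 ++ a :: l2 ∧ cs.simple q * cs.wordProd l = cs.wordProd (l1 ++ l2) := by
  induction l using List.reverseRecOn with
  | nil =>
    rw [cs.wordProd_nil] at h
    exact absurd h (cs.not_isLeftDescent_one q)
  | append_singleton l a ih =>
    by_cases h1 : cs.IsLeftDescent (cs.wordProd l) q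
    · obtain ⟨l1, b, l2, h2, h3⟩ := ih h1
      refine ⟨l1, b, l2 ++ [a], by rw [h2]; simp, ?_⟩
      rw [cs.wordProd_append, ← mul_assoc, h3, ← cs.wordProd_append]
      simp
    · rw [cs.wordProd_append, cs.wordProd_singleton] at h
      have h2 := exch_left cs h1 h
      refine ⟨l, a, [], rfl, ?_⟩
      rw [cs.wordProd_append, ← mul_assoc, h2, cs.wordProd_singleton,
        cs.simple_mul_simple_cancel_right]
      simp

/-- going down by a left descent -/
theorem Contains.down {Q : List B} {v : W} (h : Contains cs Q v) {q : B}
    (hq : cs.IsLeftDescent v q) : Contains cs Q (cs.simple q * v) := by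
  obtain ⟨l, h1, h2, h3⟩ := h
  rw [← h3] at hq
  obtain ⟨l1, a, l2, h4, h5⟩ := exch_word cs l q hq
  refine ⟨l1 ++ l2, ?_, ?_, ?_⟩
  · apply List.Sublist.trans _ h1
    rw [h4]
    simp
  · unfold CoxeterSystem.IsReduced
    have h6 := cs.isLeftDescent_iff.mp hq
    rw [h2.eq] at h6
    have h8 : l.length = l1.length + (l2.length + 1) := by rw [h4]; simp
    rw [← h5, List.length_append]
    omega
  · rw [← h5, h3]

theorem contains_cons_desc {q : B} {Q : List B} {v : W} (hq : cs.IsLeftDescent v q) :
    Contains cs (q :: Q) v ↔ Contains cs Q (cs.simple q * v) := by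
  constructor
  · rintro ⟨l, h1, h2, h3⟩
    cases h1 with
    | cons _ h1 => exact Contains.down cs ⟨l, h1, h2, h3⟩ hq
    | cons_cons _ h1 =>
      rename_i l'
      refine ⟨l', h1, by simpa using h2.drop 1, ?_⟩
      rw [← h3, cs.wordProd_cons, cs.simple_mul_simple_cancel_left]
  · rintro ⟨l, h1, h2, h3⟩
    refine ⟨q :: l, h1.cons_cons q, ?_, ?_⟩
    · unfold CoxeterSystem.IsReduced
      rw [cs.wordProd_cons, h3, cs.simple_mul_simple_cancel_left, ← cs.isLeftDescent_iff.mp hq,
        ← h3, h2.eq]
      simp
    · rw [cs.wordProd_cons, h3, cs.simple_mul_simple_cancel_left]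

theorem contains_cons_not_desc {q : B} {Q : List B} {v : W} (hq : ¬ cs.IsLeftDescent v q) :
    Contains cs (q :: Q) v ↔ Contains cs Q v := by
  constructor
  · rintro ⟨l, h1, h2, h3⟩
    cases h1 with
    | cons _ h1 => exact ⟨l, h1, h2, h3⟩
    | cons_cons _ h1 =>
      rename_i l'
      exfalso
      apply hq
      unfold CoxeterSystem.IsLeftDescent
      rw [← h3, h2.eq, cs.wordProd_cons, cs.simple_mul_simple_cancel_left]
      have := cs.length_wordProd_le l'
      simp; omega
  · rintro ⟨l, h1, h2, h3⟩
    exact ⟨l, h1.cons q, h2, h3⟩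

theorem Contains.cons {q : B} {Q : List B} {v : W} (h : Contains cs Q v) :
    Contains cs (q :: Q) v := by
  obtain ⟨l, h1, h2, h3⟩ := h
  exact ⟨l, h1.cons q, h2, h3⟩

theorem contains_snoc_desc {q : B} {Q : List B} {v : W} (hq : cs.IsRightDescent v q) :
    Contains cs (Q ++ [q]) v ↔ Contains cs Q (v * cs.simple q) := by
  rw [← contains_reverse_iff, ← contains_reverse_iff cs (Q := Q), List.reverse_append,
    List.reverse_singleton, List.singleton_append,
    contains_cons_desc cs (cs.isLeftDescent_inv_iff.mpr hq), mul_inv_rev, cs.inv_simple]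

theorem contains_snoc_not_desc {q : B} {Q : List B} {v : W} (hq : ¬ cs.IsRightDescent v q) :
    Contains cs (Q ++ [q]) v ↔ Contains cs Q v := by
  rw [← contains_reverse_iff, ← contains_reverse_iff cs (Q := Q), List.reverse_append,
    List.reverse_singleton, List.singleton_append,
    contains_cons_not_desc cs (by rwa [cs.isLeftDescent_inv_iff])]

theorem contains_nil_iff {v : W} : Contains cs [] v ↔ v = 1 := by
  constructor
  · rintro ⟨l, h1, h2, h3⟩
    have : l = [] := List.sublist_nil.mp h1
    rw [← h3, this, cs.wordProd_nil]
  · rintro rfl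
    exact ⟨[], List.Sublist.refl _, by simp [CoxeterSystem.IsReduced], cs.wordProd_nil⟩

end Cont

section Toggle

variable {B : Type*} [Fintype B] [DecidableEq B] {W : Type*} [Group W] {M : CoxeterMatrix B}
  (cs : CoxeterSystem M W)

omit [Fintype B] [DecidableEq B] in
theorem not_rd_mul {x : W} {s : B} (h : ¬ cs.IsRightDescent x s) :
    cs.IsRightDescent (x * cs.simple s) s := by
  by_contra h2
  apply h
  rw [cs.isRightDescent_iff_not_isRightDescent_mul]
  exact h2

omit [Fintype B] [DecidableEq B] in
theorem not_ld_of_eq {x : W} {s q : B} (h : ¬ cs.IsRightDescent x s)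
    (he : cs.simple q * x = x * cs.simple s) : ¬ cs.IsLeftDescent x q := by
  rw [cs.not_isLeftDescent_iff, he, cs.not_isRightDescent_iff.mp h]

omit [Fintype B] [DecidableEq B] in
theorem ld_of_eq {x : W} {s q : B} (h : ¬ cs.IsRightDescent x s)
    (he : cs.simple q * x = x * cs.simple s) : cs.IsLeftDescent (x * cs.simple s) q := by
  rw [cs.isLeftDescent_iff, ← he, cs.simple_mul_simple_cancel_left, he,
    cs.not_isRightDescent_iff.mp h]

/-- no violation beyond the wall -/
theorem after_toggle {Q : List B} {c : List Bool} {z : W} {t : B} (hS : Sk cs Q c z)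
    (hr : cs.IsReduced (fired Q c)) (h1 : cs.IsRightDescent z t)
    (h2 : cs.IsRightDescent ((cs.wordProd (fired Q c))⁻¹ * z) t) :
    Sk cs Q c (z * cs.simple t) := by
  induction Q generalizing c z with
  | nil => cases c with
    | nil => trivial
    | cons b c => exact absurd hS (by simp)
  | cons q Q ih => cases c with
    | nil => exact absurd hS (by simp)
    | cons b c =>
      cases b with
      | false =>
        rw [Sk_false] at hS ⊢
        rw [fired_false] at hr h2
        refine ⟨?_, ih hS.2 hr h1 h2⟩
        intro h3
        have h4 := exch_left cs hS.1 h3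
        have h5 := cs.not_isLeftDescent_iff.mp hS.1
        rw [h4] at h5
        have h6 := cs.isRightDescent_iff.mp h1
        omega
      | true =>
        rw [Sk_true] at hS ⊢
        rw [fired_true] at hr h2
        have hr' : cs.IsReduced (fired Q c) := by simpa using hr.drop 1
        have e : (cs.wordProd (q :: fired Q c))⁻¹ * z
            = (cs.wordProd (fired Q c))⁻¹ * (cs.simple q * z) := by
          rw [cs.wordProd_cons, mul_inv_rev, cs.inv_simple, mul_assoc]
        rw [e] at h2
        rw [← mul_assoc]
        refine ih hS hr' ?_ h2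
        by_contra h3
        have h4 : cs.simple q * (cs.simple q * z) = cs.simple q * z * cs.simple t :=
          exch_right cs h3 (by simpa using h1)
        have h5 := (transport cs h4 h3 (cs.wordProd (fired Q c))⁻¹).mp h2
        rw [cs.isRightDescent_inv_iff] at h5
        have h6 := cs.isLeftDescent_iff.mp h5
        have h7 := hr.eq
        rw [cs.wordProd_cons] at h7
        simp only [List.length_cons] at h7
        have h8 := cs.length_wordProd_le (fired Q c)
        omega

/-- unfire the letter crossing the wall -/
theorem unfire {Q : List B} {c : List Bool} {y : W} {t : B} (hS : Sk cs Q c y)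
    (hr : cs.IsReduced (fired Q c)) (h1 : ¬ cs.IsRightDescent y t)
    (h2 : cs.IsRightDescent ((cs.wordProd (fired Q c))⁻¹ * y) t) :
    ∃ c', Sk cs Q c' y ∧ ¬ Sk cs Q c' (y * cs.simple t) ∧
      cs.wordProd (fired Q c') = y * cs.simple t * y⁻¹ * cs.wordProd (fired Q c) ∧
      (fired Q c').length + 1 = (fired Q c).length := by
  induction Q generalizing c y with
  | nil => cases c with
    | nil => simp at h2; exact absurd h2 h1
    | cons b c => exact absurd hS (by simp)
  | cons q Q ih => cases c with
    | nil => exact absurd hS (by simp)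
    | cons b c =>
      cases b with
      | false =>
        rw [Sk_false] at hS
        rw [fired_false] at hr h2
        obtain ⟨c', hc1, hc2, hc3, hc4⟩ := ih hS.2 hr h1 h2
        refine ⟨false :: c', ⟨hS.1, hc1⟩, ?_, ?_, ?_⟩
        · rw [Sk_false]
          exact fun h => hc2 h.2
        · simpa using hc3
        · simpa using hc4
      | true =>
        rw [Sk_true] at hS
        rw [fired_true] at hr h2
        have hr' : cs.IsReduced (fired Q c) := by simpa using hr.drop 1
        have e : (cs.wordProd (q :: fired Q c))⁻¹ * y
            = (cs.wordProd (fired Q c))⁻¹ * (cs.simple q * y) := by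
          rw [cs.wordProd_cons, mul_inv_rev, cs.inv_simple, mul_assoc]
        rw [e] at h2
        by_cases h3 : cs.IsRightDescent (cs.simple q * y) t
        · have h4 := exch_right cs h1 h3
          have h5 : Sk cs Q c y := by
            have := after_toggle cs hS hr' h3 h2
            rwa [h4, cs.simple_mul_simple_cancel_right] at this
          refine ⟨false :: c, ⟨not_ld_of_eq cs h1 h4, h5⟩, ?_, ?_, ?_⟩
          · rw [Sk_false]
            exact fun h => h.1 (ld_of_eq cs h1 h4)
          · rw [fired_false, fired_true, cs.wordProd_cons, ← h4]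
            simp
          · simp
        · obtain ⟨c', hc1, hc2, hc3, hc4⟩ := ih hS hr' h3 h2
          refine ⟨true :: c', hc1, ?_, ?_, ?_⟩
          · rw [Sk_true, ← mul_assoc]
            exact hc2
          · rw [fired_true, fired_true, cs.wordProd_cons, cs.wordProd_cons, hc3]
            simp [mul_assoc]
          · simpa using hc4

/-- toggle up -/
theorem toggle_up {Q : List B} {c : List Bool} {y : W} {t : B} (hS : Sk cs Q c y)
    (hr : cs.IsReduced (fired Q c)) (h1 : ¬ cs.IsRightDescent y t)
    (h2 : cs.IsRightDescent ((cs.wordProd (fired Q c))⁻¹ * y) t)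
    (hn : ¬ Sk cs Q c (y * cs.simple t)) :
    ∃ c', Sk cs Q c' (y * cs.simple t) ∧
      cs.wordProd (fired Q c') = cs.wordProd (fired Q c) ∧
      (fired Q c').length = (fired Q c).length := by
  induction Q generalizing c y with
  | nil => cases c with
    | nil => exact absurd trivial hn
    | cons b c => exact absurd hS (by simp)
  | cons q Q ih => cases c with
    | nil => exact absurd hS (by simp)
    | cons b c =>
      cases b with
      | false =>
        rw [Sk_false] at hS hn
        rw [fired_false] at hr h2
        by_cases h3 : cs.IsLeftDescent (y * cs.simple t) q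
        · have h4 := exch_left cs hS.1 h3
          obtain ⟨c', hc1, hc2, hc3, hc4⟩ := unfire cs hS.2 hr h1 h2
          refine ⟨true :: c', ?_, ?_, ?_⟩
          · rw [Sk_true, ← h4, cs.simple_mul_simple_cancel_left]
            exact hc1
          · rw [fired_true, fired_false, cs.wordProd_cons, hc3, ← h4]
            simp
          · simpa using hc4
        · have h4 : ¬ Sk cs Q c (y * cs.simple t) := fun h => hn ⟨h3, h⟩
          obtain ⟨c', hc1, hc2, hc3⟩ := ih hS.2 hr h1 h2 h4
          exact ⟨false :: c', ⟨h3, hc1⟩, by simpa using hc2, by simpa using hc3⟩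
      | true =>
        rw [Sk_true] at hS hn
        rw [fired_true] at hr h2
        have hr' : cs.IsReduced (fired Q c) := by simpa using hr.drop 1
        have e : (cs.wordProd (q :: fired Q c))⁻¹ * y
            = (cs.wordProd (fired Q c))⁻¹ * (cs.simple q * y) := by
          rw [cs.wordProd_cons, mul_inv_rev, cs.inv_simple, mul_assoc]
        rw [e] at h2
        rw [← mul_assoc] at hn
        by_cases h3 : cs.IsRightDescent (cs.simple q * y) t
        · exfalso
          exact hn (after_toggle cs hS hr' h3 h2)
        · obtain ⟨c', hc1, hc2, hc3⟩ := ih hS hr' h3 h2 hn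
          refine ⟨true :: c', ?_, ?_, ?_⟩
          · rw [Sk_true, ← mul_assoc]; exact hc1
          · rw [fired_true, fired_true, cs.wordProd_cons, cs.wordProd_cons, hc2]
          · simpa using hc3

/-- relation between a subword and its unfired version -/
inductive UF : List B → W → B → List Bool → List Bool → Prop
  | skip {q : B} {Q : List B} {y : W} {t : B} {c c' : List Bool} (h : UF Q y t c c') :
      UF (q :: Q) y t (false :: c) (false :: c')
  | fire {q : B} {Q : List B} {y : W} {t : B} {c c' : List Bool}
      (h1 : ¬ cs.IsRightDescent (cs.simple q * y) t) (h : UF Q (cs.simple q * y) t c c') :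
      UF (q :: Q) y t (true :: c) (true :: c')
  | unf {q : B} {Q : List B} {y : W} {t : B} {c : List Bool}
      (h1 : cs.IsRightDescent (cs.simple q * y) t) :
      UF (q :: Q) y t (true :: c) (false :: c)

/-- relation between a subword and its toggled version -/
inductive TU : List B → W → B → List Bool → List Bool → Prop
  | skip {q : B} {Q : List B} {y : W} {t : B} {c c' : List Bool}
      (h1 : ¬ cs.IsLeftDescent (y * cs.simple t) q) (h : TU Q y t c c') :
      TU (q :: Q) y t (false :: c) (false :: c')
  | fire {q : B} {Q : List B} {y : W} {t : B} {c c' : List Bool}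
      (h1 : ¬ cs.IsRightDescent (cs.simple q * y) t) (h : TU Q (cs.simple q * y) t c c') :
      TU (q :: Q) y t (true :: c) (true :: c')
  | tog {q : B} {Q : List B} {y : W} {t : B} {c c' : List Bool}
      (h1 : cs.IsLeftDescent (y * cs.simple t) q) (h : UF cs Q y t c c') :
      TU (q :: Q) y t (false :: c) (true :: c')

omit [Fintype B] [DecidableEq B] in
theorem UF.functional {Q : List B} {y : W} {t : B} {c c' c'' : List Bool}
    (h : UF cs Q y t c c') (h' : UF cs Q y t c c'') : c' = c'' := by
  induction h generalizing c'' with
  | skip _ ih => cases h' with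
    | skip h => rw [ih h]
  | fire h1 _ ih => cases h' with
    | fire _ h => rw [ih h]
    | unf h => exact absurd h h1
  | unf h1 => cases h' with
    | fire h _ => exact absurd h1 h
    | unf _ => rfl

omit [Fintype B] [DecidableEq B] in
theorem TU.functional {Q : List B} {y : W} {t : B} {c c' c'' : List Bool}
    (h : TU cs Q y t c c') (h' : TU cs Q y t c c'') : c' = c'' := by
  induction h generalizing c'' with
  | skip h1 _ ih => cases h' with
    | skip _ h => rw [ih h]
    | tog h _ => exact absurd h h1
  | fire h1 _ ih => cases h' with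
    | fire _ h => rw [ih h]
  | tog h1 h2 => cases h' with
    | skip h _ => exact absurd h1 h
    | tog _ h => rw [h2.functional cs h]

omit [Fintype B] [DecidableEq B] in
theorem TU.not_Sk {Q : List B} {y : W} {t : B} {c c' : List Bool}
    (h : TU cs Q y t c c') : ¬ Sk cs Q c (y * cs.simple t) := by
  induction h with
  | skip h1 _ ih => rw [Sk_false]; exact fun h => ih h.2
  | fire h1 _ ih => rw [Sk_true, ← mul_assoc]; exact ih
  | tog h1 _ => rw [Sk_false]; exact fun h => h.1 h1

/-- fire the last violated skip -/
theorem refire {Q : List B} {c : List Bool} {y : W} {t : B} (hS : Sk cs Q c y)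
    (hr : cs.IsReduced (fired Q c)) (h1 : ¬ cs.IsRightDescent y t)
    (h2 : ¬ cs.IsRightDescent ((cs.wordProd (fired Q c))⁻¹ * y) t)
    (hn : ¬ Sk cs Q c (y * cs.simple t)) :
    ∃ u, Sk cs Q u y ∧ UF cs Q y t u c ∧
      cs.wordProd (fired Q u) = y * cs.simple t * y⁻¹ * cs.wordProd (fired Q c) ∧
      (fired Q u).length = (fired Q c).length + 1 := by
  induction Q generalizing c y with
  | nil => cases c with
    | nil => exact absurd trivial hn
    | cons b c => exact absurd hS (by simp)
  | cons q Q ih => cases c with
    | nil => exact absurd hS (by simp)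
    | cons b c =>
      cases b with
      | false =>
        rw [Sk_false] at hS hn
        rw [fired_false] at hr h2
        by_cases h3 : Sk cs Q c (y * cs.simple t)
        · have h4 : cs.IsLeftDescent (y * cs.simple t) q := by
            by_contra h5
            exact hn ⟨h5, h3⟩
          have h5 := exch_left cs hS.1 h4
          refine ⟨true :: c, ?_, ?_, ?_, ?_⟩
          · rw [Sk_true, h5]; exact h3
          · apply UF.unf
            rw [h5]
            exact not_rd_mul cs h1
          · rw [fired_true, fired_false, cs.wordProd_cons, ← h5]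
            simp
          · simp
        · obtain ⟨u, hu1, hu2, hu3, hu4⟩ := ih hS.2 hr h1 h2 h3
          exact ⟨false :: u, ⟨hS.1, hu1⟩, UF.skip hu2, by simpa using hu3, by simpa using hu4⟩
      | true =>
        rw [Sk_true] at hS hn
        rw [fired_true] at hr h2
        have hr' : cs.IsReduced (fired Q c) := by simpa using hr.drop 1
        have e : (cs.wordProd (q :: fired Q c))⁻¹ * y
            = (cs.wordProd (fired Q c))⁻¹ * (cs.simple q * y) := by
          rw [cs.wordProd_cons, mul_inv_rev, cs.inv_simple, mul_assoc]
        have h3 : ¬ cs.IsRightDescent (cs.simple q * y) t := by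
          intro h3
          have h4 := exch_right cs h1 h3
          rw [transport cs h4 h1, cs.isRightDescent_inv_iff] at h2
          apply h2
          unfold CoxeterSystem.IsLeftDescent
          rw [hr.eq, cs.wordProd_cons, cs.simple_mul_simple_cancel_left]
          have := cs.length_wordProd_le (fired Q c)
          simp; omega
        rw [e] at h2
        rw [← mul_assoc] at hn
        obtain ⟨u, hu1, hu2, hu3, hu4⟩ := ih hS hr' h3 h2 hn
        refine ⟨true :: u, hu1, UF.fire h3 hu2, ?_, ?_⟩
        · rw [fired_true, fired_true, cs.wordProd_cons, cs.wordProd_cons, hu3]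
          simp [mul_assoc]
        · simpa using hu4

/-- toggle down -/
theorem toggle_down {Q : List B} {c : List Bool} {y : W} {t : B}
    (hS : Sk cs Q c (y * cs.simple t))
    (hr : cs.IsReduced (fired Q c)) (h1 : ¬ cs.IsRightDescent y t)
    (hn : ¬ Sk cs Q c y) :
    ∃ u, Sk cs Q u y ∧ TU cs Q y t u c ∧
      cs.wordProd (fired Q u) = cs.wordProd (fired Q c) ∧
      (fired Q u).length = (fired Q c).length := by
  induction Q generalizing c y with
  | nil => cases c with
    | nil => exact absurd trivial hn
    | cons b c => exact absurd hS (by simp)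
  | cons q Q ih => cases c with
    | nil => exact absurd hS (by simp)
    | cons b c =>
      cases b with
      | false =>
        rw [Sk_false] at hS hn
        rw [fired_false] at hr
        have h3 : ¬ cs.IsLeftDescent y q := fun h => hS.1 (leftDescent_mono cs (wle_simple cs h1) h)
        obtain ⟨u, hu1, hu2, hu3, hu4⟩ := ih hS.2 hr h1 (fun h => hn ⟨h3, h⟩)
        exact ⟨false :: u, ⟨h3, hu1⟩, TU.skip hS.1 hu2, by simpa using hu3, by simpa using hu4⟩
      | true =>
        rw [Sk_true] at hS hn
        rw [fired_true] at hr
        have hr' : cs.IsReduced (fired Q c) := by simpa using hr.drop 1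
        rw [← mul_assoc] at hS
        by_cases h3 : cs.IsRightDescent (cs.simple q * y) t
        · have h4 := exch_right cs h1 h3
          rw [h4, cs.simple_mul_simple_cancel_right] at hS
          rw [h4] at hn
          have h2 : ¬ cs.IsRightDescent ((cs.wordProd (fired Q c))⁻¹ * y) t := by
            rw [transport cs h4 h1, cs.isRightDescent_inv_iff, cs.not_isLeftDescent_iff,
              ← cs.wordProd_cons, hr.eq, hr'.eq]
            simp
          obtain ⟨u, hu1, hu2, hu3, hu4⟩ := refire cs hS hr' h1 h2 hn
          refine ⟨false :: u, ⟨not_ld_of_eq cs h1 h4, hu1⟩, TU.tog (ld_of_eq cs h1 h4) hu2, ?_, ?_⟩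
          · rw [fired_false, fired_true, cs.wordProd_cons, hu3, ← h4]
            simp
          · simp [hu4]
        · obtain ⟨u, hu1, hu2, hu3, hu4⟩ := ih hS hr' h3 hn
          refine ⟨true :: u, hu1, TU.fire h3 hu2, ?_, ?_⟩
          · rw [fired_true, fired_true, cs.wordProd_cons, cs.wordProd_cons, hu3]
          · simpa using hu4

end Toggle

end CxA
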