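import Mathlib
import Pool.Agent.helper52.Cox.Word

/-!
Existence and uniqueness of facets, the sorting case, convexity.
-/

namespace CxA

open CoxeterSystem

variable {B : Type*} [Fintype B] [DecidableEq B] {W : Type*} [Group W] {M : CoxeterMatrix B}
  (cs : CoxeterSystem M W)

omit [Fintype B] [DecidableEq B] in
theorem fac_one_unique {Q : List B} : ∀ {v : W} {c d : List Bool},
    Fac cs Q v 1 c → Fac cs Q v 1 d → c = d := by
  induction Q using List.reverseRecOn with
  | nil =>
    intro v c d hc hd
    rw [Fac_nil] at hc hd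
    rw [hc.1, hd.1]
  | append_singleton Q q ih =>
    intro v c d hc hd
    have hlc := hc.length
    have hld := hd.length
    have snoc : ∀ e : List Bool, e.length = (Q ++ [q]).length →
        ∃ e' b, e = e' ++ [b] ∧ e'.length = Q.length := by
      intro e he
      rcases List.eq_nil_or_concat e with h | ⟨a, s, h⟩
      · rw [h] at he; simp at he
      · refine ⟨a, s, by simpa using h, ?_⟩
        rw [h] at he
        simpa using he
    obtain ⟨c', b, rfl, hc'⟩ := snoc c hlc
    obtain ⟨d', b', rfl, hd'⟩ := snoc d hld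
    cases b with
    | true =>
      rw [Fac_snoc_true cs hc'] at hc
      cases b' with
      | true =>
        rw [Fac_snoc_true cs hd'] at hd
        rw [ih hc.2 hd.2]
      | false =>
        rw [Fac_snoc_false cs hd', mul_one, cs.isLeftDescent_inv_iff] at hd
        exact absurd hc.1 hd.1
    | false =>
      rw [Fac_snoc_false cs hc', mul_one, cs.isLeftDescent_inv_iff] at hc
      cases b' with
      | true =>
        rw [Fac_snoc_true cs hd'] at hd
        exact absurd hd.1 hc.1
      | false =>
        rw [Fac_snoc_false cs hd'] at hd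
        rw [ih hc.2 hd.2]

/-- uniqueness of facets -/
theorem fac_unique_aux {Q : List B} {v : W} (n : ℕ) : ∀ {x : W} {c d : List Bool},
    cs.length x = n → Fac cs Q v x c → Fac cs Q v x d → c = d := by
  induction n with
  | zero =>
    intro x c d hx hc hd
    rw [cs.length_eq_zero_iff] at hx
    subst hx
    exact fac_one_unique cs hc hd
  | succ n ih =>
    intro x c d hx hc hd
    have hx1 : x ≠ 1 := by
      rintro rfl
      simp at hx
    obtain ⟨t, ht⟩ := cs.exists_rightDescent_of_ne_one hx1
    obtain ⟨y, hy⟩ : ∃ y, y = x * cs.simple t := ⟨_, rfl⟩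
    have hxy : x = y * cs.simple t := by rw [hy]; simp
    have hyt : ¬ cs.IsRightDescent y t := by
      rw [hy]
      exact cs.isRightDescent_iff_not_isRightDescent_mul.mp ht
    have hyn : cs.length y = n := by
      have := cs.not_isRightDescent_iff.mp hyt
      rw [← hxy] at this
      omega
    subst hxy
    -- toggle down
    have down : ∀ e, Fac cs Q v (y * cs.simple t) e → ¬ Sk cs Q e y →
        ∃ u, Fac cs Q v y u ∧ TU cs Q y t u e := by
      intro e he hne
      obtain ⟨u, hu1, hu2, hu3, hu4⟩ := toggle_down cs he.1 he.2.1 hyt hne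
      refine ⟨u, ⟨hu1, ?_, ?_⟩, hu2⟩
      · unfold CoxeterSystem.IsReduced
        rw [hu3, hu4, he.2.1.eq]
      · rw [hu3, he.2.2]
    by_cases h1 : Sk cs Q c y
    · by_cases h2 : Sk cs Q d y
      · exact ih hyn ⟨h1, hc.2⟩ ⟨h2, hd.2⟩
      · obtain ⟨u, hu1, hu2⟩ := down d hd h2
        have h3 := ih hyn hu1 ⟨h1, hc.2⟩
        rw [h3] at hu2
        exact absurd hc.1 (hu2.not_Sk cs)
    · obtain ⟨u, hu1, hu2⟩ := down c hc h1
      by_cases h2 : Sk cs Q d y
      · have h3 := ih hyn hu1 ⟨h2, hd.2⟩
        rw [h3] at hu2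
        exact absurd hd.1 (hu2.not_Sk cs)
      · obtain ⟨u', hu1', hu2'⟩ := down d hd h2
        have h3 := ih hyn hu1 hu1'
        rw [← h3] at hu2'
        exact hu2.functional cs hu2'

theorem fac_unique {Q : List B} {v x : W} {c d : List Bool}
    (hc : Fac cs Q v x c) (hd : Fac cs Q v x d) : c = d :=
  fac_unique_aux cs _ rfl hc hd

/-- the toggle relation between facets of adjacent elements. -/
theorem fac_TU {Q : List B} {v x : W} {t : B} {c d : List Bool} (ht : ¬ cs.IsRightDescent x t)
    (hc : Fac cs Q v x c) (hd : Fac cs Q v (x * cs.simple t) d) (hne : c ≠ d) :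
    TU cs Q x t c d := by
  have h1 : ¬ Sk cs Q d x := fun h => hne (fac_unique cs hc ⟨h, hd.2⟩)
  obtain ⟨u, hu1, hu2, hu3, hu4⟩ := toggle_down cs hd.1 hd.2.1 ht h1
  have h2 : Fac cs Q v x u := by
    refine ⟨hu1, ?_, ?_⟩
    · unfold CoxeterSystem.IsReduced
      rw [hu3, hu4, hd.2.1.eq]
    · rw [hu3, hd.2.2]
  rw [fac_unique cs hc h2]
  exact hu2

theorem fac_one_exists {Q : List B} : ∀ {v : W}, Contains cs Q v → ∃ c, Fac cs Q v 1 c := by
  induction Q using List.reverseRecOn with
  | nil =>
    intro v h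
    rw [contains_nil_iff] at h
    exact ⟨[], (Fac_nil cs).mpr ⟨rfl, h⟩⟩
  | append_singleton Q q ih =>
    intro v h
    by_cases hq : cs.IsRightDescent v q
    · rw [contains_snoc_desc cs hq] at h
      obtain ⟨c, hc⟩ := ih h
      exact ⟨c ++ [true], (Fac_snoc_true cs hc.length).mpr ⟨hq, hc⟩⟩
    · rw [contains_snoc_not_desc cs hq] at h
      obtain ⟨c, hc⟩ := ih h
      refine ⟨c ++ [false], (Fac_snoc_false cs hc.length).mpr ⟨?_, hc⟩⟩
      rw [mul_one, cs.isLeftDescent_inv_iff]
      exact hq

/-- existence of facets -/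
theorem fac_exists_aux {Q : List B} {v : W} (hQ : Contains cs Q v) (n : ℕ) : ∀ {x : W},
    cs.length x = n → wle cs x v → ∃ c, Fac cs Q v x c := by
  induction n with
  | zero =>
    intro x hx _
    rw [cs.length_eq_zero_iff] at hx
    subst hx
    exact fac_one_exists cs hQ
  | succ n ih =>
    intro x hx hxv
    have hx1 : 1 ≠ x := by
      rintro rfl
      simp at hx
    obtain ⟨t, y, rfl, hyt, -⟩ := exists_step_down cs (one_wle cs x) hx1
    have hyn : cs.length y = n := by
      have := cs.not_isRightDescent_iff.mp hyt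
      omega
    have hyv : wle cs y v := wle_trans cs (wle_simple cs hyt) hxv
    obtain ⟨c, hc⟩ := ih hyn hyv
    by_cases h1 : Sk cs Q c (y * cs.simple t)
    · exact ⟨c, h1, hc.2⟩
    · have h2 : cs.IsRightDescent ((cs.wordProd (fired Q c))⁻¹ * y) t := by
        rw [hc.2.2]
        have := (wle_simple_iff cs hyv hyt).mp hxv
        rw [← cs.isRightDescent_inv_iff] at this
        rwa [mul_inv_rev, inv_inv] at this
      obtain ⟨c', h3, h4, h5⟩ := toggle_up cs hc.1 hc.2.1 hyt h2 h1
      refine ⟨c', h3, ?_, ?_⟩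
      · unfold CoxeterSystem.IsReduced
        rw [h4, h5, hc.2.1.eq]
      · rw [h4, hc.2.2]

theorem fac_exists {Q : List B} {v x : W} (hQ : Contains cs Q v) (hx : wle cs x v) :
    ∃ c, Fac cs Q v x c := fac_exists_aux cs hQ _ rfl hx

/-- reflections shorten elements whose inverse makes the root negative. -/
theorem refl_length {x v : W} {s : B} (h1 : ¬ cs.IsRightDescent x s)
    (h2 : cs.IsRightDescent (v⁻¹ * x) s) :
    cs.length (x * cs.simple s * x⁻¹ * v) < cs.length v := by
  obtain ⟨l, hl, rfl⟩ := cs.exists_isReduced v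
  induction l generalizing x with
  | nil => simp at h2; exact absurd h2 h1
  | cons a l ih =>
    have hl' : cs.IsReduced l := by simpa using hl.drop 1
    have hlen : cs.length (cs.wordProd (a :: l)) = cs.length (cs.wordProd l) + 1 := by
      rw [hl.eq, hl'.eq]; simp
    have e : (cs.wordProd (a :: l))⁻¹ * x = (cs.wordProd l)⁻¹ * (cs.simple a * x) := by
      rw [cs.wordProd_cons, mul_inv_rev, cs.inv_simple, mul_assoc]
    rw [e] at h2
    by_cases h3 : cs.IsRightDescent (cs.simple a * x) s
    · have h4 := exch_right cs h1 h3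
      rw [← h4, hlen, cs.wordProd_cons]
      simp
    · have h4 := ih h3 hl' h2
      rw [hlen]
      have h5 := cs.length_mul_le (cs.simple a)
        (cs.simple a * x * cs.simple s * (cs.simple a * x)⁻¹ * cs.wordProd l)
      have h6 : cs.simple a * (cs.simple a * x * cs.simple s * (cs.simple a * x)⁻¹ * cs.wordProd l)
          = x * cs.simple s * x⁻¹ * cs.wordProd (a :: l) := by
        rw [cs.wordProd_cons, mul_inv_rev, cs.inv_simple]
        simp only [mul_assoc, cs.simple_mul_simple_cancel_left]
      rw [h6, cs.length_simple] at h5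
      omega

/-- in the sorting case, no facet for covers leaving the interval. -/
theorem fac_empty_cover {Q : List B} (hQ : ∀ v, Contains cs Q v) {v x : W} {s : B}
    (hx : wle cs x v) (hs : ¬ cs.IsRightDescent x s) (hn : ¬ wle cs (x * cs.simple s) v)
    {d : List Bool} (hd : Fac cs Q v (x * cs.simple s) d) : False := by
  rw [wle_simple_iff cs hx hs] at hn
  have hn' : ¬ cs.IsRightDescent (v⁻¹ * x) s := by
    rw [← cs.isLeftDescent_inv_iff, mul_inv_rev, inv_inv]; exact hn
  obtain ⟨v', hv'⟩ : ∃ v', v' = x * cs.simple s * x⁻¹ * v := ⟨_, rfl⟩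
  have e1 : v'⁻¹ * x = v⁻¹ * x * cs.simple s := by
    rw [hv']; simp [mul_assoc]
  have h1 : cs.IsRightDescent (v'⁻¹ * x) s := by
    rw [e1]; exact not_rd_mul cs hn'
  have h2 := refl_length cs hs h1
  have e2 : x * cs.simple s * x⁻¹ * v' = v := by
    rw [hv']; simp [mul_assoc]
  rw [e2] at h2
  have h3 : cs.length (cs.simple s * (x⁻¹ * v)) = cs.length (x⁻¹ * v) + 1 :=
    cs.not_isLeftDescent_iff.mp hn
  have h4 : v' = x * (cs.simple s * (x⁻¹ * v)) := by rw [hv']; simp [mul_assoc]
  have h5 := cs.length_mul_le x (cs.simple s * (x⁻¹ * v))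
  rw [← h4, h3] at h5
  have hxv := hx
  unfold wle at hx
  have h6 : wle cs x v' := by
    unfold wle
    rw [h4, inv_mul_cancel_left, ← h4, h3]
    omega
  obtain ⟨u, hu⟩ := fac_exists cs (hQ v') h6
  obtain ⟨c', hc1, hc2, hc3, hc4⟩ := unfire cs hu.1 hu.2.1 hs (by rw [hu.2.2]; exact h1)
  have h7 : Fac cs Q v x c' := by
    refine ⟨hc1, ?_, ?_⟩
    · unfold CoxeterSystem.IsReduced
      rw [hc3, hu.2.2, e2]
      have := hu.2.1.eq
      rw [hu.2.2] at this
      omega
    · rw [hc3, hu.2.2, e2]
  have h8 : Sk cs Q d x := by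
    have h9 := after_toggle cs (z := x * cs.simple s) (t := s) hd.1 hd.2.1 (not_rd_mul cs hs) (by
      rw [hd.2.2, ← mul_assoc]; exact not_rd_mul cs hn')
    rwa [cs.simple_mul_simple_cancel_right] at h9
  have h9 : d = c' := fac_unique cs ⟨h8, hd.2⟩ h7
  rw [h9] at hd
  exact hc2 hd.1

/-- in the sorting case, facets only see the interval. -/
theorem fac_wle_aux {Q : List B} (hQ : ∀ v, Contains cs Q v) {v : W} (n : ℕ) :
    ∀ {y : W} {c : List Bool}, cs.length y = n → Fac cs Q v y c → wle cs y v := by
  induction n with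
  | zero =>
    intro y c hy _
    rw [cs.length_eq_zero_iff] at hy
    subst hy
    exact one_wle cs v
  | succ n ih =>
    intro x c hx hc
    have hx1 : 1 ≠ x := by
      rintro rfl
      simp at hx
    obtain ⟨t, y, rfl, hyt, -⟩ := exists_step_down cs (one_wle cs x) hx1
    have hyn : cs.length y = n := by
      have := cs.not_isRightDescent_iff.mp hyt
      omega
    have hyv : wle cs y v := by
      by_cases h1 : Sk cs Q c y
      · exact ih hyn ⟨h1, hc.2⟩
      · obtain ⟨u, hu1, hu2, hu3, hu4⟩ := toggle_down cs hc.1 hc.2.1 hyt h1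
        apply ih hyn (c := u)
        refine ⟨hu1, ?_, ?_⟩
        · unfold CoxeterSystem.IsReduced
          rw [hu3, hu4, hc.2.1.eq]
        · rw [hu3, hc.2.2]
    by_contra hn
    exact fac_empty_cover cs hQ hyv hyt hn hc

theorem fac_wle {Q : List B} (hQ : ∀ v, Contains cs Q v) {v y : W} {c : List Bool}
    (h : Fac cs Q v y c) : wle cs y v := fac_wle_aux cs hQ _ rfl h

/-- crossing edge between two comparable elements -/
theorem exists_cross {a z : W} (h : wle cs a z) {g : W} {q : B}
    (h1 : ¬ cs.IsLeftDescent (g * a) q) (h2 : cs.IsLeftDescent (g * z) q) :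
    ∃ (u : W) (s : B), wle cs a u ∧ ¬ cs.IsRightDescent u s ∧ wle cs (u * cs.simple s) z ∧
      ¬ cs.IsLeftDescent (g * u) q ∧ cs.IsLeftDescent (g * (u * cs.simple s)) q := by
  obtain ⟨n, hn⟩ : ∃ n, n = cs.length z - cs.length a := ⟨_, rfl⟩
  induction n generalizing a with
  | zero =>
    exfalso
    have h3 : cs.length (a⁻¹ * z) = 0 := by
      unfold wle at h
      omega
    rw [cs.length_eq_zero_iff] at h3
    rw [inv_mul_eq_one.mp h3] at h1
    exact h1 h2
  | succ n ih =>
    have hne : a ≠ z := by
      rintro rfl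
      exact h1 h2
    obtain ⟨s, hs, hsz⟩ := exists_step cs h hne
    by_cases h3 : cs.IsLeftDescent (g * (a * cs.simple s)) q
    · exact ⟨a, s, wle_refl cs a, hs, hsz, h1, h3⟩
    · have hl := cs.not_isRightDescent_iff.mp hs
      obtain ⟨u, s', h4, h5, h6, h7, h8⟩ := ih hsz h3 (by omega)
      exact ⟨u, s', wle_trans cs (wle_simple cs hs) h4, h5, h6, h7, h8⟩

theorem exists_cross' {a z : W} (h : wle cs a z) {g : W} {q : B}
    (h1 : cs.IsLeftDescent (g * a) q) (h2 : ¬ cs.IsLeftDescent (g * z) q) :
    ∃ (u : W) (s : B), wle cs a u ∧ ¬ cs.IsRightDescent u s ∧ wle cs (u * cs.simple s) z ∧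
      cs.IsLeftDescent (g * u) q ∧ ¬ cs.IsLeftDescent (g * (u * cs.simple s)) q := by
  obtain ⟨n, hn⟩ : ∃ n, n = cs.length z - cs.length a := ⟨_, rfl⟩
  induction n generalizing a with
  | zero =>
    exfalso
    have h3 : cs.length (a⁻¹ * z) = 0 := by
      unfold wle at h
      omega
    rw [cs.length_eq_zero_iff] at h3
    rw [inv_mul_eq_one.mp h3] at h1
    exact h2 h1
  | succ n ih =>
    have hne : a ≠ z := by
      rintro rfl
      exact h2 h1
    obtain ⟨s, hs, hsz⟩ := exists_step cs h hne
    by_cases h3 : cs.IsLeftDescent (g * (a * cs.simple s)) q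
    · have hl := cs.not_isRightDescent_iff.mp hs
      obtain ⟨u, s', h4, h5, h6, h7, h8⟩ := ih hsz h3 (by omega)
      exact ⟨u, s', wle_trans cs (wle_simple cs hs) h4, h5, h6, h7, h8⟩
    · exact ⟨a, s, wle_refl cs a, hs, hsz, h1, h3⟩

/-- convexity -/
theorem convex_ld {a z b : W} (haz : wle cs a z) (hzb : wle cs z b) {g : W} {q : B}
    (ha : ¬ cs.IsLeftDescent (g * a) q) (hb : ¬ cs.IsLeftDescent (g * b) q) :
    ¬ cs.IsLeftDescent (g * z) q := by
  intro hz
  obtain ⟨u, s, h1, h2, h3, h4, h5⟩ := exists_cross cs haz ha hz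
  obtain ⟨u', s', h1', h2', h3', h4', h5'⟩ := exists_cross' cs hzb hz hb
  rw [← mul_assoc] at h5 h5'
  have e1 := exch_left cs h4 h5
  have e2 : cs.simple q * (g * u' * cs.simple s') = g * u' * cs.simple s' * cs.simple s' :=
    exch_left cs h5' (by rw [cs.simple_mul_simple_cancel_right]; exact h4')
  rw [cs.simple_mul_simple_cancel_right] at e2
  have e3 : cs.simple q * (g * u') = g * u' * cs.simple s' := by
    rw [← e2, cs.simple_mul_simple_cancel_left, e2]
  -- the reflection t = g⁻¹ q g
  obtain ⟨r, hr⟩ : ∃ r, r = g⁻¹ * cs.simple q * g := ⟨_, rfl⟩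
  have f1 : r * (u * cs.simple s) = u := by
    have : g * (r * (u * cs.simple s)) = g * u := by
      rw [hr]
      calc g * (g⁻¹ * cs.simple q * g * (u * cs.simple s))
          = cs.simple q * (g * u * cs.simple s) := by group
        _ = g * u := by rw [← e1, cs.simple_mul_simple_cancel_left]
    exact mul_left_cancel this
  have f2 : r * u' = u' * cs.simple s' := by
    have : g * (r * u') = g * (u' * cs.simple s') := by
      rw [hr]
      calc g * (g⁻¹ * cs.simple q * g * u')
          = cs.simple q * (g * u') := by group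
        _ = g * (u' * cs.simple s') := by rw [e3, mul_assoc]
    exact mul_left_cancel this
  have hle : wle cs (u * cs.simple s) u' := wle_trans cs h3 h1'
  unfold wle at hle
  have h6 := cs.length_mul_le u ((u * cs.simple s)⁻¹ * u')
  have h7 : u * ((u * cs.simple s)⁻¹ * u') = u' * cs.simple s' := by
    rw [← f2]
    calc u * ((u * cs.simple s)⁻¹ * u') = r * (u * cs.simple s) * ((u * cs.simple s)⁻¹ * u') := by
          rw [f1]
      _ = r * u' := by group
  rw [h7] at h6
  have h8 := cs.not_isRightDescent_iff.mp h2'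
  have h9 := cs.not_isRightDescent_iff.mp h2
  omega

theorem Sk_convex {Q : List B} {c : List Bool} {a z b : W} (haz : wle cs a z) (hzb : wle cs z b)
    (g : W) (ha : Sk cs Q c (g * a)) (hb : Sk cs Q c (g * b)) : Sk cs Q c (g * z) := by
  induction Q generalizing c g with
  | nil => cases c with
    | nil => trivial
    | cons b c => exact absurd ha (by simp)
  | cons q Q ih => cases c with
    | nil => exact absurd ha (by simp)
    | cons b c =>
      cases b with
      | false =>
        rw [Sk_false] at *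
        exact ⟨convex_ld cs haz hzb ha.1 hb.1, ih g ha.2 hb.2⟩
      | true =>
        rw [Sk_true, ← mul_assoc] at *
        exact ih _ ha hb

theorem fac_convex {Q : List B} {v a z b : W} {c : List Bool} (haz : wle cs a z)
    (hzb : wle cs z b) (ha : Fac cs Q v a c) (hb : Fac cs Q v b c) : Fac cs Q v z c := by
  refine ⟨?_, ha.2⟩
  have := Sk_convex cs haz hzb 1 (by simpa using ha.1) (by simpa using hb.1)
  simpa using this

end CxA
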