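import Mathlib
import Pool.Agent.helper52.Cox.Deg
import Pool.Agent.helper52.Cox.Facet

/-!
The excess of an edge.
-/

namespace CxA

open Real CoxeterSystem Polynomial

section Comp

variable {B : Type*} [DecidableEq B]

/-- compatibility of a word with initial and (reversed) final orientations -/
def Comp (M : CoxeterMatrix B) : (B → B → Bool) → List B → (B → B → Bool) → Prop
  | o, [], ob => ∀ s t, s ≠ t → M s t ≠ 2 → ob s t = o t s
  | o, q :: Q, ob => Src M o q ∧ Comp M (flip q o) Q ob

variable {M : CoxeterMatrix B}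

theorem Comp_nil {o ob : B → B → Bool} :
    Comp M o [] ob ↔ ∀ s t, s ≠ t → M s t ≠ 2 → ob s t = o t s := Iff.rfl

theorem Comp_cons {o ob : B → B → Bool} {q : B} {Q : List B} :
    Comp M o (q :: Q) ob ↔ Src M o q ∧ Comp M (flip q o) Q ob := Iff.rfl

theorem Comp_snoc {Q : List B} : ∀ {o ob : B → B → Bool} (_ : Anti o) (_ : Anti ob) {q : B},
    Comp M o (Q ++ [q]) ob ↔ Src M ob q ∧ Comp M o Q (flip q ob) := by
  induction Q with
  | nil =>
    intro o ob ho hob q
    rw [List.nil_append, Comp_cons, Comp_nil, Comp_nil]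
    constructor
    · rintro ⟨h1, h2⟩
      have h3 : Src M ob q := by
        intro t ht hM
        rw [h2 q t (Ne.symm ht) hM]
        simp [flip, ht]
      refine ⟨h3, ?_⟩
      intro s t hst hM
      unfold flip
      by_cases hs : s = q
      · subst hs
        rw [if_pos rfl, ho s t hst, h1 t (Ne.symm hst) hM]
        rfl
      · rw [if_neg hs]
        by_cases ht : t = q
        · subst ht
          rw [if_pos rfl, h1 s hs (by rwa [M.symmetric])]
        · rw [if_neg ht, h2 s t hst hM]
          simp [flip, hs, ht]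
    · rintro ⟨h1, h2⟩
      have h3 : Src M o q := by
        intro t ht hM
        rw [← h2 t q ht (by rwa [M.symmetric])]
        simp [flip, ht]
      refine ⟨h3, ?_⟩
      intro s t hst hM
      unfold flip
      by_cases ht : t = q
      · subst ht
        rw [if_pos rfl, hob t s (Ne.symm hst), h1 s hst (by rwa [M.symmetric])]
        rfl
      · rw [if_neg ht]
        by_cases hs : s = q
        · subst hs
          rw [if_pos rfl, h1 t ht hM]
        · rw [if_neg hs, ← h2 s t hst hM]
          simp [flip, hs, ht]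
  | cons p Q ih =>
    intro o ob ho hob q
    rw [List.cons_append, Comp_cons, Comp_cons, ih (ho.flip p) hob]
    tauto

theorem Comp_reverse {Q : List B} : ∀ {o ob : B → B → Bool} (_ : Anti o) (_ : Anti ob),
    Comp M ob Q.reverse o ↔ Comp M o Q ob := by
  induction Q with
  | nil =>
    intro o ob _ _
    rw [List.reverse_nil, Comp_nil, Comp_nil]
    constructor
    · intro h s t hst hM
      rw [h t s hst.symm (by rwa [M.symmetric])]
    · intro h s t hst hM
      rw [h t s hst.symm (by rwa [M.symmetric])]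
  | cons q Q ih =>
    intro o ob ho hob
    rw [List.reverse_cons, Comp_snoc hob ho, Comp_cons, ih (ho.flip q) hob]

theorem Comp_count {Q : List B} {s t : B} (hst : s ≠ t) (hM : M s t ≠ 2) :
    ∀ {o ob : B → B → Bool} (_ : Anti o) (_ : Anti ob), Comp M o Q ob →
    2 * Q.count s + ne' o s t + ne' ob s t = 2 * Q.count t + ne' o t s + ne' ob t s := by
  induction Q with
  | nil =>
    intro o ob ho hob h
    rw [Comp_nil] at h
    have h1 := h s t hst hM
    have h2 := h t s hst.symm (by rwa [M.symmetric])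
    have h3 := ho s t hst
    unfold ne'
    rw [h1, h2, h3]
    cases o s t <;> simp
  | cons q Q ih =>
    intro o ob ho hob h
    rw [Comp_cons] at h
    have h1 := ih (ho.flip q) hob h.2
    by_cases hs : q = s
    · subst hs
      have h2 := h.1 t (Ne.symm hst) hM
      have h3 := ho q t hst
      have h4 : (q :: Q).count q = Q.count q + 1 := by simp
      have h5 : (q :: Q).count t = Q.count t := by simp [hst]
      rw [h4, h5]
      have h6 : ne' (flip q o) q t = 1 := by simp [ne', flip]
      have h7 : ne' (flip q o) t q = 0 := by simp [ne', flip, Ne.symm hst]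
      have h8 : ne' o q t = 0 := by simp [ne', h2]
      have h9 : ne' o t q = 1 := by simp [ne', h3, h2]
      omega
    · by_cases ht : q = t
      · subst ht
        have h2 := h.1 s hst (by rwa [M.symmetric])
        have h3 := ho q s (Ne.symm hst)
        have h4 : (q :: Q).count q = Q.count q + 1 := by simp
        have h5 : (q :: Q).count s = Q.count s := by simp [Ne.symm hst]
        rw [h4, h5]
        have h6 : ne' (flip q o) q s = 1 := by simp [ne', flip]
        have h7 : ne' (flip q o) s q = 0 := by simp [ne', flip, hst]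
        have h8 : ne' o q s = 0 := by simp [ne', h2]
        have h9 : ne' o s q = 1 := by simp [ne', h3, h2]
        omega
      · have h4 : (q :: Q).count s = Q.count s := by simp [hs]
        have h5 : (q :: Q).count t = Q.count t := by simp [ht]
        have h6 : ne' (flip q o) s t = ne' o s t := by simp [ne', flip, Ne.symm hs, Ne.symm ht]
        have h7 : ne' (flip q o) t s = ne' o t s := by simp [ne', flip, Ne.symm hs, Ne.symm ht]
        rw [h4, h5, ← h6, ← h7]
        exact h1

end Comp

section EE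

variable {B : Type*} [Fintype B] [DecidableEq B] {W : Type*} [Group W] {M : CoxeterMatrix B}
  (cs : CoxeterSystem M W)

/-- the excess of the edge `x < x s` -/
noncomputable def EE (Q : List B) (o ob : B → B → Bool) (ω x : W) (s : B) : ℤ :=
  2 * (Q.count s : ℤ) - vdeg (tau cs o x (al ℝ[X] s))
    - vdeg (tau cs ob (ω⁻¹ * x * cs.simple s) (al ℝ[X] s))

theorem EE_rev (Q : List B) (o ob : B → B → Bool) (ω x : W) (s : B) :
    EE cs Q.reverse ob o ω⁻¹ (ω⁻¹ * x * cs.simple s) s = EE cs Q o ob ω x s := by
  unfold EE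
  have : (ω⁻¹)⁻¹ * (ω⁻¹ * x * cs.simple s) * cs.simple s = x := by
    simp [mul_assoc]
  rw [this, List.count_reverse]
  ring

theorem EE_fire {Q : List B} {o ob : B → B → Bool} {ω x : W} {s q : B} (ho : Anti o)
    (hq : Src M o q) (h : cs.IsLeftDescent x q) :
    EE cs (q :: Q) o ob ω x s = EE cs Q (flip q o) ob (cs.simple q * ω) (cs.simple q * x) s := by
  unfold EE
  have h1 : (cs.simple q * ω)⁻¹ * (cs.simple q * x) * cs.simple s = ω⁻¹ * x * cs.simple s := by
    simp [mul_assoc]
  rw [h1, vdeg_tau_fire cs ho hq s h]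
  by_cases hs : s = q
  · subst hs
    rw [if_pos rfl, List.count_cons_self]
    push_cast
    ring
  · rw [if_neg hs, List.count_cons_of_ne (Ne.symm hs)]
    push_cast
    ring

theorem EE_skip {Q : List B} {o ob : B → B → Bool} {ω x : W} {s q : B} (ho : Anti o)
    (hq : Src M o q) (h : ¬ cs.IsLeftDescent x q) (hs : ¬ cs.IsRightDescent x s)
    (h2 : ¬ cs.IsLeftDescent (x * cs.simple s) q) :
    EE cs (q :: Q) o ob ω x s = EE cs Q (flip q o) ob ω x s := by
  unfold EE
  rw [vdeg_tau_skip cs ho hq h hs h2]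
  by_cases hs : s = q
  · subst hs
    rw [if_pos rfl, List.count_cons_self]
    push_cast
    ring
  · rw [if_neg hs, List.count_cons_of_ne (Ne.symm hs)]
    push_cast
    ring

theorem EE_fire' {Q : List B} {o ob : B → B → Bool} {ω x : W} {s q : B} (hob : Anti ob)
    (hq : Src M ob q) (h : cs.IsLeftDescent (ω⁻¹ * x * cs.simple s) q) :
    EE cs (Q ++ [q]) o ob ω x s = EE cs Q o (flip q ob) (ω * cs.simple q) x s := by
  unfold EE
  have h1 : (ω * cs.simple q)⁻¹ * x * cs.simple s
      = cs.simple q * (ω⁻¹ * x * cs.simple s) := by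
    simp [mul_assoc]
  rw [h1, vdeg_tau_fire cs hob hq s h]
  by_cases hs : s = q
  · subst hs
    rw [if_pos rfl, List.count_append, List.count_singleton_self]
    push_cast
    ring
  · rw [if_neg hs, List.count_append, List.count_cons_of_ne (Ne.symm hs)]
    push_cast
    simp

theorem EE_skip' {Q : List B} {o ob : B → B → Bool} {ω x : W} {s q : B} (hob : Anti ob)
    (hq : Src M ob q) (h : ¬ cs.IsLeftDescent (ω⁻¹ * x * cs.simple s) q)
    (hs : ¬ cs.IsRightDescent (ω⁻¹ * x * cs.simple s) s)
    (h2 : ¬ cs.IsLeftDescent (ω⁻¹ * x) q) :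
    EE cs (Q ++ [q]) o ob ω x s = EE cs Q o (flip q ob) ω x s := by
  unfold EE
  rw [vdeg_tau_skip cs hob hq h hs (by rwa [cs.simple_mul_simple_cancel_right])]
  by_cases hs : s = q
  · subst hs
    rw [if_pos rfl, List.count_append, List.count_singleton_self]
    push_cast
    ring
  · rw [if_neg hs, List.count_append, List.count_cons_of_ne (Ne.symm hs)]
    push_cast
    simp

theorem EE_cross' {Q : List B} {o ob : B → B → Bool} {ω x : W} {s q : B} (hob : Anti ob)
    (hq : Src M ob q) (h : ¬ cs.IsLeftDescent (ω⁻¹ * x * cs.simple s) q)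
    (hs : ¬ cs.IsRightDescent (ω⁻¹ * x * cs.simple s) s)
    (h2 : cs.IsLeftDescent (ω⁻¹ * x) q) :
    EE cs (Q ++ [q]) o ob ω x s = EE cs Q o (flip q ob) ω x s + 2 := by
  unfold EE
  have h3 := vdeg_tau_cross cs hob hq h hs (by rwa [cs.simple_mul_simple_cancel_right])
  have h4 : (vdeg (tau cs ob (ω⁻¹ * x * cs.simple s) (al ℝ[X] s)) : ℤ) + 2
      = (if s = q then 2 else 0)
        + vdeg (tau cs (flip q ob) (ω⁻¹ * x * cs.simple s) (al ℝ[X] s)) := by
    exact_mod_cast h3
  by_cases hs : s = q
  · subst hs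
    rw [if_pos rfl] at h4
    rw [List.count_append, List.count_singleton_self]
    push_cast
    linarith
  · rw [if_neg hs] at h4
    rw [List.count_append, List.count_cons_of_ne (Ne.symm hs)]
    push_cast
    simp
    linarith

theorem vdeg_al (s : B) : vdeg (al ℝ[X] s) = 0 := by
  apply Nat.le_zero.mp
  rw [vdeg_le]
  intro b
  unfold al
  by_cases hb : b = s
  · subst hb; simp
  · simp [hb]

/-- the excess of the bottom edge labelled by the first letter. -/
theorem EE_bottom {Q : List B} {q : B} : ∀ {o ob : B → B → Bool} {ω : W} (_ : Anti o)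
    (_ : Anti ob) (_ : Comp M o (q :: Q) ob) (_ : cs.IsLeftDescent ω q)
    (_ : Contains cs (q :: Q) ω),
    2 ≤ EE cs (q :: Q) o ob ω 1 q ∧ (4 ≤ EE cs (q :: Q) o ob ω 1 q ↔ Contains cs Q ω) := by
  induction Q using List.reverseRecOn with
  | nil =>
    intro o ob ω ho hob _ hd hc
    rw [contains_cons_desc cs hd, contains_nil_iff] at hc
    have hω : ω = cs.simple q := by
      have := congrArg (fun z => cs.simple q * z) hc
      simpa using this
    have h1 : EE cs [q] o ob ω 1 q = 2 := by
      unfold EE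
      have h2 : ω⁻¹ * 1 * cs.simple q = 1 := by rw [hω]; simp
      rw [h2, tau_one cs ho, tau_one cs hob, List.count_singleton_self]
      simp [vdeg_al]
    rw [h1]
    refine ⟨le_rfl, ?_⟩
    constructor
    · intro h; norm_num at h
    · intro h
      rw [contains_nil_iff] at h
      rw [h] at hd
      exact absurd hd (cs.not_isLeftDescent_one q)
  | append_singleton Q q' ih =>
    intro o ob ω ho hob hC hd hc
    have e0 : q :: (Q ++ [q']) = (q :: Q) ++ [q'] := rfl
    rw [e0] at hC hc ⊢
    rw [Comp_snoc ho hob] at hC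
    have hob' := hob.flip q'
    have hld := cs.isLeftDescent_iff.mp hd
    have hy : ω⁻¹ * 1 * cs.simple q = (cs.simple q * ω)⁻¹ := by simp
    have hyd : ¬ cs.IsRightDescent (ω⁻¹ * 1 * cs.simple q) q := by
      rw [cs.not_isRightDescent_iff, cs.simple_mul_simple_cancel_right, hy, cs.length_inv,
        mul_one, cs.length_inv]
      omega
    by_cases h1 : cs.IsLeftDescent (ω⁻¹ * 1 * cs.simple q) q'
    · -- case 1R
      rw [EE_fire' cs hob hC.1 h1]
      rw [hy, cs.isLeftDescent_inv_iff] at h1
      have h2 := cs.isRightDescent_iff.mp h1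
      have h3 : cs.IsRightDescent ω q' := by
        by_contra h3
        have h4 := cs.not_isRightDescent_iff.mp h3
        rcases cs.length_simple_mul (ω * cs.simple q') q with h5 | h5
        · rw [mul_assoc] at h2; omega
        · rw [mul_assoc] at h2; omega
      have h3' := cs.isRightDescent_iff.mp h3
      have h4 : cs.IsLeftDescent (ω * cs.simple q') q := by
        rw [cs.isLeftDescent_iff, ← mul_assoc]; omega
      rw [contains_snoc_desc cs h3] at hc
      rw [contains_snoc_desc cs h3]
      exact ih ho hob' hC.2 h4 hc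
    · by_cases h2 : cs.IsRightDescent ω q'
      · -- case 3R
        have h2' : cs.IsLeftDescent (ω⁻¹ * 1) q' := by
          rw [mul_one, cs.isLeftDescent_inv_iff]; exact h2
        rw [EE_cross' cs hob hC.1 h1 hyd h2']
        have h3 := exch_left cs h1 (t := q) (by rw [cs.simple_mul_simple_cancel_right]; exact h2')
        have h4 : ω * cs.simple q' = cs.simple q * ω := by
          have := congrArg (fun z => z⁻¹) h3
          simp only [mul_one, mul_inv_rev, inv_inv, cs.inv_simple] at this
          rw [cs.simple_mul_simple_cancel_left] at this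
          conv_lhs => rw [← this]
          rw [cs.simple_mul_simple_cancel_right]
        have h4' : ω * cs.simple q' = cs.simple q * ω := h4
        rw [contains_snoc_desc cs h2, h4'] at hc
        have h5 : Contains cs Q (cs.simple q * ω) := by
          rwa [contains_cons_not_desc cs (cs.isLeftDescent_iff_not_isLeftDescent_mul.mp hd)] at hc
        have h6 : Contains cs (q :: Q) ω := (contains_cons_desc cs hd).mpr h5
        have h7 := ih ho hob' hC.2 hd h6
        have h8 : Contains cs (Q ++ [q']) ω := by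
          rw [contains_snoc_desc cs h2, h4']; exact h5
        refine ⟨by linarith [h7.1], ?_⟩
        constructor
        · intro _; exact h8
        · intro _; linarith [h7.1]
      · -- case 2R
        have h2' : ¬ cs.IsLeftDescent (ω⁻¹ * 1) q' := by
          rw [mul_one, cs.isLeftDescent_inv_iff]; exact h2
        rw [EE_skip' cs hob hC.1 h1 hyd h2']
        rw [contains_snoc_not_desc cs h2] at hc ⊢
        exact ih ho hob' hC.2 hd hc

end EE

section Poly

variable {B : Type*} [Fintype B] [DecidableEq B] {W : Type*} [Group W] {M : CoxeterMatrix B}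
  (cs : CoxeterSystem M W)

omit [DecidableEq B] in
theorem vdeg_C_smul {v : B → ℝ[X]} {c : ℝ} (hc : c ≠ 0) :
    vdeg ((C c : ℝ[X]) • v) = vdeg v := by
  unfold vdeg
  congr 1
  funext b
  rw [Pi.smul_apply, smul_eq_mul, natDegree_C_mul hc]

omit [DecidableEq B] in
/-- lower bound for the degree of a nonnegative combination -/
theorem vdeg_comb {G H : B → ℝ[X]} (hG : ∀ b, NN (G b)) (hH : ∀ b, NN (H b)) (hG0 : G ≠ 0)
    {c d : ℝ} (hc : 0 < c) (hd : 0 ≤ d) (i j : ℕ) :
    i + vdeg G ≤ vdeg ((X ^ i * C c : ℝ[X]) • G + (X ^ j * C d : ℝ[X]) • H) := by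
  have h1 : vdeg ((X ^ i * C c : ℝ[X]) • G) = i + vdeg G := by
    have h2 : (C c : ℝ[X]) • G ≠ 0 := by
      intro h
      apply hG0
      funext b
      have := congrFun h b
      rw [Pi.smul_apply, smul_eq_mul, Pi.zero_apply] at this
      rcases mul_eq_zero.mp this with h3 | h3
      · rw [C_eq_zero] at h3; exact absurd h3 hc.ne'
      · exact h3
    rw [mul_smul, vdeg_X_pow_smul h2, vdeg_C_smul hc.ne']
  rw [← h1]
  apply vdeg_le_of_coeff_le
  · intro b
    rw [Pi.smul_apply, smul_eq_mul]
    exact ((NN_X_pow i).mul (NN_C hc.le)).mul (hG b)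
  · intro b n
    rw [Pi.add_apply, coeff_add]
    have : 0 ≤ (((X ^ j * C d : ℝ[X]) • H) b).coeff n := by
      rw [Pi.smul_apply, smul_eq_mul]
      exact ((NN_X_pow j).mul (NN_C hd)).mul (hH b) n
    linarith

/-- degree of a normalised graded root -/
noncomputable def nd (o : B → B → Bool) (x : W) (a b c : B) : ℕ :=
  vdeg (tau cs o x (vf o a b c))

theorem nd_left (o : B → B → Bool) (x : W) (a b : B) :
    nd cs o x a b a = ne' o a b + vdeg (tau cs o x (al ℝ[X] a)) := by
  unfold nd
  rw [vf_left, map_smul, vdeg_X_pow_smul (tau_al_ne_zero cs o x a)]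

theorem nd_right (o : B → B → Bool) (x : W) {a b : B} (hab : a ≠ b) :
    nd cs o x a b b = ne' o b a + vdeg (tau cs o x (al ℝ[X] b)) := by
  unfold nd
  rw [vf_right o hab, map_smul, vdeg_X_pow_smul (tau_al_ne_zero cs o x b)]

theorem nd_swap (o : B → B → Bool) (x : W) {a b : B} (hab : a ≠ b) (c : B) (hc : c = a ∨ c = b) :
    nd cs o x b a c = nd cs o x a b c := by
  unfold nd
  rw [vf_swap o hab c hc]

theorem tau_vf_ne_zero (o : B → B → Bool) (x : W) (a b c : B) :
    tau cs o x (vf o a b c) ≠ 0 := by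
  unfold vf
  rw [map_smul]
  intro h
  apply tau_al_ne_zero cs o x c
  funext b
  have := congrFun h b
  rw [Pi.smul_apply, smul_eq_mul] at this
  rcases mul_eq_zero.mp this with h3 | h3
  · exact absurd h3 (pow_ne_zero _ X_ne_zero)
  · exact h3

theorem tau_vf_NN {o : B → B → Bool} (ho : Anti o) {x : W} {a b c : B}
    (hc : ¬ cs.IsRightDescent x c) (d : B) : NN (tau cs o x (vf o a b c) d) := by
  unfold vf
  rw [map_smul, Pi.smul_apply, smul_eq_mul]
  exact (NN_X_pow _).mul (tau_NN cs ho hc d)

theorem tau_alt_eq {o : B → B → Bool} (ho : Anti o) {x : W} {a b : B} (hab : a ≠ b)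
    (ha : ¬ cs.IsRightDescent x a) (hb : ¬ cs.IsRightDescent x b) (k : ℕ)
    (hk : M a b = 0 ∨ k + 1 ≤ M a b) :
    tau cs o (x * cs.wordProd (altw a b (k + 1))) (vf o a b (nxt a b (k + 1)))
      = (X ^ (k + 1) * C (Uc (kc (M a b)) (k + 2))) • tau cs o x (vf o a b a)
        + (X ^ k * C (Uc (kc (M a b)) (k + 1))) • tau cs o x (vf o a b b) := by
  have hred := isReduced_altw cs hab (k + 1) hk
  have hl : cs.length (x * cs.wordProd (altw a b (k + 1)))
      = cs.length x + cs.length (cs.wordProd (altw a b (k + 1))) := by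
    rw [length_mul_altw cs hab ha hb _ hk, hred.eq, length_altw]
  rw [tau_mul cs ho hl, tau_altw cs ho (k + 1) hred, Module.End.mul_apply,
    Tg_alt_formula ho hab k, map_add, map_smul, map_smul]

theorem nd_lower1 {o : B → B → Bool} (ho : Anti o) {x : W} {a b : B} (hab : a ≠ b)
    (ha : ¬ cs.IsRightDescent x a) (hb : ¬ cs.IsRightDescent x b) (k : ℕ) (hk1 : 1 ≤ k)
    (hk : M a b = 0 ∨ k + 1 ≤ M a b) :
    k - 1 + nd cs o x a b b ≤ nd cs o (x * cs.wordProd (altw a b k)) a b (nxt a b k) := by
  obtain ⟨k, rfl⟩ : ∃ k', k = k' + 1 := ⟨k - 1, by omega⟩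
  unfold nd
  rw [tau_alt_eq cs ho hab ha hb k (by omega), add_comm ((X ^ (k + 1) * _ : ℝ[X]) • _)]
  have h1 : k + 1 - 1 = k := rfl
  rw [h1]
  apply vdeg_comb
  · exact tau_vf_NN cs ho hb
  · exact tau_vf_NN cs ho ha
  · exact tau_vf_ne_zero cs o x a b b
  · exact Uc_kc_pos (M_ne_one hab) (by omega) (by omega)
  · exact Uc_kc_nonneg (M_ne_one hab) (by omega)

theorem nd_lower2 {o : B → B → Bool} (ho : Anti o) {x : W} {a b : B} (hab : a ≠ b)
    (ha : ¬ cs.IsRightDescent x a) (hb : ¬ cs.IsRightDescent x b) (k : ℕ)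
    (hk : M a b = 0 ∨ k + 2 ≤ M a b) :
    k + nd cs o x a b a ≤ nd cs o (x * cs.wordProd (altw a b k)) a b (nxt a b k) := by
  cases k with
  | zero => simp [nxt_zero]
  | succ k =>
    unfold nd
    rw [tau_alt_eq cs ho hab ha hb k (by omega)]
    apply vdeg_comb
    · exact tau_vf_NN cs ho ha
    · exact tau_vf_NN cs ho hb
    · exact tau_vf_ne_zero cs o x a b a
    · exact Uc_kc_pos (M_ne_one hab) (by omega) (by omega)
    · exact Uc_kc_nonneg (M_ne_one hab) (by omega)

theorem nd_top {o : B → B → Bool} (ho : Anti o) {x : W} {a b : B} (hab : a ≠ b)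
    (ha : ¬ cs.IsRightDescent x a) (hb : ¬ cs.IsRightDescent x b) (k : ℕ)
    (hk : M a b = k + 2) :
    nd cs o (x * cs.wordProd (altw a b (k + 1))) a b (nxt a b (k + 1)) = k + nd cs o x a b b := by
  unfold nd
  have h1 : Uc (kc (M a b)) (k + 2) = 0 := by
    rw [← hk]; exact Uc_kc_self (by omega)
  have h2 : Uc (kc (M a b)) (k + 1) = 1 := by
    have : k + 1 = M a b - 1 := by omega
    rw [this]; exact Uc_kc_pred (by omega)
  rw [tau_alt_eq cs ho hab ha hb k (by omega), h1, h2, C_0, C_1, mul_zero, mul_one, zero_smul,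
    zero_add, vdeg_X_pow_smul (tau_vf_ne_zero cs o x a b b)]

omit [Fintype B] [DecidableEq B] in
/-- going back along an alternating word -/
theorem altw_back (a b : B) (n j : ℕ) :
    cs.wordProd (altw a b (n + j + 1))
      * cs.wordProd (altw (nxt a b (n + j)) (nxt b a (n + j)) j)
      = cs.wordProd (altw a b (n + 1)) := by
  induction j with
  | zero => simp
  | succ j ih =>
    have e : n + (j + 1) + 1 = (n + j + 1) + 1 := by ring
    have e2 : n + (j + 1) = n + j + 1 := by ring
    rw [e, e2, altw_concat a b (n + j + 1), cs.wordProd_append, cs.wordProd_singleton,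
      altw_succ (nxt a b (n + j + 1)) (nxt b a (n + j + 1)) j,
      cs.wordProd_cons, mul_assoc, cs.simple_mul_simple_cancel_left]
    rw [nxt_succ b a (n + j), nxt_succ a b (n + j)]
    exact ih

omit [Fintype B] [DecidableEq B] in
theorem nxt_back (a b : B) (n j : ℕ) :
    nxt (nxt a b (n + j)) (nxt b a (n + j)) j = nxt a b n := by
  induction j with
  | zero => rfl
  | succ j ih =>
    have e2 : n + (j + 1) = n + j + 1 := by ring
    rw [e2, nxt_succ, nxt_succ, nxt_succ]
    exact ih

/-- the polygon property -/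
theorem polyP_EE {Q : List B} {o ob : B → B → Bool} {ω : W} (ho : Anti o) (hob : Anti ob)
    (hC : Comp M o Q ob) : PolyP cs (fun x s => EE cs Q o ob ω x s < 4) ω := by
  intro x s t hst hs ht hsω htω hlt k hk1 hkm
  obtain ⟨hM, hp⟩ := polygon_wle cs hst hs ht hsω htω
  obtain ⟨m, hm⟩ : ∃ m, M s t = m + 2 := ⟨M s t - 2, by have := M_ne_one (M := M) hst; omega⟩
  have hMts : M t s = m + 2 := by rw [M.symmetric]; exact hm
  -- the top of the polygon
  obtain ⟨p, hpdef⟩ : ∃ p, p = x * cs.wordProd (altw s t (m + 2)) := ⟨_, rfl⟩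
  have hp2 : p = x * cs.wordProd (altw t s (m + 2)) := by
    rw [hpdef, ← hm, wordProd_altw_braid]
  rw [hm, ← hpdef] at hp
  obtain ⟨y0, hy0⟩ : ∃ y0, y0 = ω⁻¹ * p := ⟨_, rfl⟩
  -- `e1` is the last letter of the `t`-chain, `e2` the other one
  obtain ⟨e1, he1⟩ : ∃ e1, e1 = nxt t s (m + 1) := ⟨_, rfl⟩
  obtain ⟨e2, he2⟩ : ∃ e2, e2 = nxt s t (m + 1) := ⟨_, rfl⟩
  have he12 : e1 ≠ e2 := by
    rw [he1, he2]
    rcases nxt_cases t s (m + 1) with h | h
    · rw [h.1, h.2]; exact Ne.symm hst
    · rw [h.1, h.2]; exact hst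
  have hpl : cs.length p = cs.length x + (m + 2) := by
    rw [hpdef, length_mul_altw cs hst hs ht _ (by omega)]
  have hy0l : cs.length y0 + cs.length p = cs.length ω := by
    unfold wle at hp
    rw [hp, hy0, ← cs.length_inv (ω⁻¹ * p), mul_inv_rev, inv_inv]
    ring
  -- both letters are not right descents of `y0`
  have hnd1 : ¬ cs.IsRightDescent y0 e1 := by
    have h1 : p * cs.simple e1 = x * cs.wordProd (altw t s (m + 1)) := by
      rw [hp2, altw_concat t s (m + 1), cs.wordProd_append, ← he1, cs.wordProd_singleton,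
        ← mul_assoc, cs.simple_mul_simple_cancel_right]
    have h2 : cs.length (p * cs.simple e1) = cs.length x + (m + 1) := by
      rw [h1, length_mul_altw cs (Ne.symm hst) ht hs _ (by omega)]
    rw [cs.not_isRightDescent_iff]
    have h3 := cs.length_mul_le (p * cs.simple e1) ((y0 * cs.simple e1)⁻¹)
    have h4 : p * cs.simple e1 * (y0 * cs.simple e1)⁻¹ = ω := by
      rw [hy0]; simp [mul_assoc]
    rw [h4, cs.length_inv] at h3
    rcases cs.length_mul_simple y0 e1 with h5 | h5
    · exact h5
    · omega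
  have hnd2 : ¬ cs.IsRightDescent y0 e2 := by
    have h1 : p * cs.simple e2 = x * cs.wordProd (altw s t (m + 1)) := by
      rw [hpdef, altw_concat s t (m + 1), cs.wordProd_append, ← he2, cs.wordProd_singleton,
        ← mul_assoc, cs.simple_mul_simple_cancel_right]
    have h2 : cs.length (p * cs.simple e2) = cs.length x + (m + 1) := by
      rw [h1, length_mul_altw cs hst hs ht _ (by omega)]
    rw [cs.not_isRightDescent_iff]
    have h3 := cs.length_mul_le (p * cs.simple e2) ((y0 * cs.simple e2)⁻¹)
    have h4 : p * cs.simple e2 * (y0 * cs.simple e2)⁻¹ = ω := by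
      rw [hy0]; simp [mul_assoc]
    rw [h4, cs.length_inv] at h3
    rcases cs.length_mul_simple y0 e2 with h5 | h5
    · exact h5
    · omega
  have hMe : M e1 e2 = m + 2 := by
    rw [he1, he2]
    rcases nxt_cases t s (m + 1) with h | h
    · rw [h.1, h.2]; exact hMts
    · rw [h.1, h.2]; exact hm
  have hMe' : M e2 e1 = m + 2 := by rw [M.symmetric]; exact hMe
  -- positions in the `t`-chain
  have hyk : ω⁻¹ * (x * cs.wordProd (altw t s k)) * cs.simple (nxt t s k)
      = y0 * cs.wordProd (altw e1 e2 (m + 1 - k)) := by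
    have h1 := altw_back cs t s k (m + 1 - k)
    have h2 : k + (m + 1 - k) = m + 1 := by omega
    rw [h2, ← he1, ← he2] at h1
    rw [hy0, hp2]
    have h3 : ω⁻¹ * (x * cs.wordProd (altw t s (m + 2))) * cs.wordProd (altw e1 e2 (m + 1 - k))
        = ω⁻¹ * (x * (cs.wordProd (altw t s (m + 1 + 1)) * cs.wordProd (altw e1 e2 (m + 1 - k))))
        := by simp only [mul_assoc]
    rw [h3, h1, altw_concat t s k, cs.wordProd_append, cs.wordProd_singleton]
    simp only [mul_assoc]
  have hnk : nxt e1 e2 (m + 1 - k) = nxt t s k := by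
    have h1 := nxt_back t s k (m + 1 - k)
    have h2 : k + (m + 1 - k) = m + 1 := by omega
    rw [h2, ← he1, ← he2] at h1
    exact h1
  -- the bottom `s`-edge
  have hys : ω⁻¹ * x * cs.simple s = y0 * cs.wordProd (altw e2 e1 (m + 1)) := by
    have h1 := altw_back cs s t 0 (m + 1)
    rw [zero_add, ← he1, ← he2] at h1
    rw [hy0, hpdef]
    have h3 : ω⁻¹ * (x * cs.wordProd (altw s t (m + 2))) * cs.wordProd (altw e2 e1 (m + 1))
        = ω⁻¹ * (x * (cs.wordProd (altw s t (m + 1 + 1)) * cs.wordProd (altw e2 e1 (m + 1))))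
        := by simp only [mul_assoc]
    rw [h3, h1]
    simp [altw_succ, mul_assoc]
  have hns : nxt e2 e1 (m + 1) = s := by
    have h1 := nxt_back s t 0 (m + 1)
    rw [zero_add, ← he1, ← he2] at h1
    exact h1
  -- degrees
  have hl : nxt t s k = s ∨ nxt t s k = t := by
    rcases nxt_cases t s k with h | h
    · right; exact h.1
    · left; exact h.1
  have d1 : nd cs o x s t s = ne' o s t + vdeg (tau cs o x (al ℝ[X] s)) := nd_left cs o x s t
  have d2 := nd_lower1 cs ho (Ne.symm hst) ht hs k hk1 (by omega)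
  rw [nd_swap cs o x hst s (Or.inl rfl)] at d2
  have d3 := nd_top cs hob (Ne.symm he12) hnd2 hnd1 m hMe'
  rw [hns, ← hys] at d3
  rw [nd_swap cs ob y0 he12 e1 (Or.inl rfl)] at d3
  have d4 := nd_lower2 cs hob he12 hnd1 hnd2 (m + 1 - k) (by omega)
  rw [hnk, ← hyk] at d4
  -- relations between the two normalisations
  have key : ∀ (oo : B → B → Bool) (z : W) (c : B), (c = s ∨ c = t) →
      nd cs oo z e1 e2 c = nd cs oo z s t c := by
    intro oo z c hc
    rw [he1, he2]
    rcases nxt_cases t s (m + 1) with h | h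
    · rw [h.1, h.2]; exact nd_swap cs oo z hst c hc
    · rw [h.1, h.2]
  have hse : s = e1 ∨ s = e2 := by
    rw [he1, he2]
    rcases nxt_cases t s (m + 1) with h | h
    · rw [h.1, h.2]; right; rfl
    · rw [h.1, h.2]; left; rfl
  rw [nd_swap cs ob _ he12 s hse, key ob _ s (Or.inl rfl), nd_left] at d3
  rw [nd_swap cs o _ hst _ hl] at d2
  rw [key ob _ _ hl] at d4
  show EE cs Q o ob ω (x * cs.wordProd (altw t s k)) (nxt t s k) < 4
  have hlt' : EE cs Q o ob ω x s < 4 := hlt
  unfold EE at hlt' ⊢
  by_cases hls : nxt t s k = s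
  · rw [hls] at d2 d4 ⊢
    have q1 := nd_left cs o (x * cs.wordProd (altw t s k)) s t
    have q2 := nd_left cs ob (ω⁻¹ * (x * cs.wordProd (altw t s k)) * cs.simple s) s t
    omega
  · have hlt2 : nxt t s k = t := hl.resolve_left hls
    have hm1 : M s t ≠ 2 := by
      intro h2
      have hk' : k = 1 := by omega
      rw [hk'] at hls
      exact hls rfl
    have hcount := Comp_count hst hm1 ho hob hC
    rw [hlt2] at d2 d4 ⊢
    have q1 := nd_right cs o (x * cs.wordProd (altw t s k)) hst
    have q2 := nd_right cs ob (ω⁻¹ * (x * cs.wordProd (altw t s k)) * cs.simple t) hst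
    omega

end Poly

end CxA
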