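import Mathlib
import Pool.Agent.helper52.Cox.Excess

/-!
The main theorem: an edge is closed if and only if its two ends have the same facet.
-/

namespace CxA

open CoxeterSystem

variable {B : Type*} [Fintype B] [DecidableEq B] {W : Type*} [Group W] {M : CoxeterMatrix B}
  (cs : CoxeterSystem M W)

theorem simple_inj {s t : B} (h : cs.simple s = cs.simple t) : s = t := by
  by_contra hne
  have h1 := sig_al_self (M := M) s
  rw [← rho_simple cs s, h, rho_simple, sig_al] at h1
  have h2 := congrFun h1 s
  simp [al, hne] at h2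
  norm_num at h2

/-- the statement for one edge -/
def Goal (Q : List B) (o ob : B → B → Bool) (ω x : W) (s : B) : Prop :=
  EE cs Q o ob ω x s < 4 ↔ ∃ c, Fac cs Q ω x c ∧ Fac cs Q ω (x * cs.simple s) c

/-- the statement for one word -/
def MainFor (Q : List B) : Prop :=
  ∀ (o ob : B → B → Bool) (ω : W), Anti o → Anti ob → Comp M o Q ob → Contains cs Q ω →
    ∀ (x : W) (s : B), ¬ cs.IsRightDescent x s → wle cs (x * cs.simple s) ω →
      Goal cs Q o ob ω x s

theorem goal_rev {Q : List B} {o ob : B → B → Bool} {ω x : W} {s : B}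
    (h : Goal cs Q.reverse ob o ω⁻¹ (ω⁻¹ * x * cs.simple s) s) : Goal cs Q o ob ω x s := by
  unfold Goal at *
  rw [EE_rev, cs.simple_mul_simple_cancel_right] at h
  rw [h]
  constructor
  · rintro ⟨c, h1, h2⟩
    rw [← List.reverse_reverse c, mul_assoc, Fac_reverse] at h1
    rw [← List.reverse_reverse c, Fac_reverse] at h2
    exact ⟨_, h2, h1⟩
  · rintro ⟨c, h1, h2⟩
    refine ⟨c.reverse, ?_, ?_⟩
    · rw [mul_assoc, Fac_reverse]; exact h2
    · rw [Fac_reverse]; exact h1

/-- edges after firing the first letter -/
theorem left_fire {q : B} {Q : List B} (hQ : MainFor cs Q) {o ob : B → B → Bool} {ω x : W} {s : B}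
    (ho : Anti o) (hob : Anti ob) (hC : Comp M o (q :: Q) ob) (hc : Contains cs (q :: Q) ω)
    (hs : ¬ cs.IsRightDescent x s) (hsω : wle cs (x * cs.simple s) ω)
    (hq : cs.IsLeftDescent x q) : Goal cs (q :: Q) o ob ω x s := by
  rw [Comp_cons] at hC
  have hqs : cs.IsLeftDescent (x * cs.simple s) q := leftDescent_mono cs (wle_simple cs hs) hq
  have hqω : cs.IsLeftDescent ω q := leftDescent_mono cs hsω hqs
  rw [contains_cons_desc cs hqω] at hc
  have h1 : ¬ cs.IsRightDescent (cs.simple q * x) s := by
    rw [cs.not_isRightDescent_iff, mul_assoc]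
    have a1 := cs.isLeftDescent_iff.mp hq
    have a2 := cs.isLeftDescent_iff.mp hqs
    have a3 := cs.not_isRightDescent_iff.mp hs
    omega
  have h2 : wle cs (cs.simple q * x * cs.simple s) (cs.simple q * ω) := by
    rw [mul_assoc]
    exact (wle_fire cs hqs hqω).mpr hsω
  have h3 := hQ (flip q o) ob (cs.simple q * ω) (ho.flip q) hob hC.2 hc (cs.simple q * x) s h1 h2
  unfold Goal at *
  rw [EE_fire cs ho hC.1 hq, h3]
  constructor
  · rintro ⟨c, c1, c2⟩
    refine ⟨true :: c, ?_, ?_⟩
    · rw [Fac_true]; exact ⟨hqω, c1⟩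
    · rw [Fac_true, ← mul_assoc]; exact ⟨hqω, c2⟩
  · rintro ⟨c, c1, c2⟩
    cases c with
    | nil =>
      have := c1.length
      simp at this
    | cons b c =>
      cases b with
      | false =>
        rw [Fac_false] at c1
        exact absurd hq c1.1
      | true =>
        rw [Fac_true] at c1 c2
        rw [← mul_assoc] at c2
        exact ⟨c, c1.2, c2.2⟩

/-- edges skipping the first letter -/
theorem left_skip {q : B} {Q : List B} (hQ : MainFor cs Q) {o ob : B → B → Bool} {ω x : W} {s : B}
    (ho : Anti o) (hob : Anti ob) (hC : Comp M o (q :: Q) ob) (hc : Contains cs Q ω)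
    (hs : ¬ cs.IsRightDescent x s) (hsω : wle cs (x * cs.simple s) ω)
    (hq : ¬ cs.IsLeftDescent (x * cs.simple s) q) : Goal cs (q :: Q) o ob ω x s := by
  rw [Comp_cons] at hC
  have hqx : ¬ cs.IsLeftDescent x q := fun h => hq (leftDescent_mono cs (wle_simple cs hs) h)
  have h3 := hQ (flip q o) ob ω (ho.flip q) hob hC.2 hc x s hs hsω
  unfold Goal at *
  rw [EE_skip cs ho hC.1 hqx hs hq, h3]
  constructor
  · rintro ⟨c, c1, c2⟩
    refine ⟨false :: c, ?_, ?_⟩
    · rw [Fac_false]; exact ⟨hqx, c1⟩
    · rw [Fac_false]; exact ⟨hq, c2⟩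
  · rintro ⟨c, c1, c2⟩
    obtain ⟨d, hd⟩ := fac_exists cs hc (wle_trans cs (wle_simple cs hs) hsω)
    have h4 : Fac cs (q :: Q) ω x (false :: d) := by
      rw [Fac_false]; exact ⟨hqx, hd⟩
    rw [fac_unique cs c1 h4, Fac_false] at c2
    exact ⟨d, hd, c2.2⟩

omit [Fintype B] [DecidableEq B] in
/-- extraction of an edge from a chain -/
theorem chain_edge {C : W → B → Prop} {x : W} {s : B}
    (hinj : ∀ s t : B, cs.simple s = cs.simple t → s = t) (hs : ¬ cs.IsRightDescent x s)
    (h : Ch cs C x (x * cs.simple s)) : C x s := by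
  rcases Relation.ReflTransGen.cases_head h with h1 | ⟨y, h1, h2⟩
  · exfalso
    have h2 := cs.not_isRightDescent_iff.mp hs
    rw [← h1] at h2
    omega
  · obtain ⟨t, rfl, ht, hC⟩ := h1
    have h3 := Ch.wle cs h2
    have h4 : x * cs.simple t = x * cs.simple s := by
      have a1 := cs.not_isRightDescent_iff.mp hs
      have a2 := cs.not_isRightDescent_iff.mp ht
      unfold wle at h3
      have h5 : cs.length ((x * cs.simple t)⁻¹ * (x * cs.simple s)) = 0 := by omega
      rw [cs.length_eq_zero_iff] at h5
      exact inv_mul_eq_one.mp h5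
    rw [← hinj t s (mul_left_cancel h4)]
    exact hC

omit [Fintype B] [DecidableEq B] in
theorem isM_one {x : W} {q : B} (hq : ¬ cs.IsLeftDescent x q) : IsM cs (cs.simple q) x 1 := by
  refine ⟨one_wle cs _, one_wle cs _, ?_⟩
  intro h h1 h2
  have h3 : h = 1 := by
    by_contra hne
    have h4 : h = cs.simple q := by
      have a1 : cs.length h ≠ 0 := by rwa [ne_eq, cs.length_eq_zero_iff]
      have a2 := wle_length cs h1
      rw [cs.length_simple] at a2
      unfold wle at h1
      rw [cs.length_simple] at h1
      have h5 : cs.length (h⁻¹ * cs.simple q) = 0 := by omega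
      rw [cs.length_eq_zero_iff] at h5
      exact inv_mul_eq_one.mp h5
    rw [h4, simple_wle_iff] at h2
    exact hq h2
  rw [h3]
  exact wle_refl cs 1

/-- polygon property for the reversed closed set -/
theorem polyP_rev {Q : List B} {o ob : B → B → Bool} {ω : W} (ho : Anti o) (hob : Anti ob)
    (hC : Comp M o Q ob) :
    PolyP cs (revC cs ω (fun x s => EE cs Q o ob ω x s < 4)) ω⁻¹ := by
  have h1 := polyP_EE cs (ω := ω⁻¹) hob ho ((Comp_reverse ho hob).mpr hC)
  have h2 : revC cs ω (fun x s => EE cs Q o ob ω x s < 4)
      = fun x s => EE cs Q.reverse ob o ω⁻¹ x s < 4 := by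
    funext y s
    unfold revC
    simp only
    rw [← EE_rev cs Q o ob ω (ω * y * cs.simple s) s]
    congr 2
    simp [mul_assoc]
  rw [h2]
  exact h1

/-- a closed crossing edge forces the bottom edge to be closed -/
theorem bottom_of_cross {Q : List B} {o ob : B → B → Bool} {ω x : W} {s q : B}
    (ho : Anti o) (hob : Anti ob) (hC : Comp M o Q ob)
    (hs : ¬ cs.IsRightDescent x s) (hsω : wle cs (x * cs.simple s) ω)
    (hq : ¬ cs.IsLeftDescent x q) (hqs : cs.IsLeftDescent (x * cs.simple s) q)
    (h : EE cs Q o ob ω x s < 4) : EE cs Q o ob ω 1 q < 4 := by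
  have h1 := meet_chain cs (polyP_rev cs ho hob hC) hs hsω h (z := cs.simple q)
    ((simple_wle_iff cs).mpr hqs) (isM_one cs hq)
  have h2 : Ch cs (fun x s => EE cs Q o ob ω x s < 4) 1 (1 * cs.simple q) := by
    rw [one_mul]; exact h1
  exact chain_edge cs (fun _ _ => simple_inj cs) (cs.not_isRightDescent_one q) h2

/-- the case where the first letter may be skipped -/
theorem case_skip {q : B} {Q : List B} (hQ : MainFor cs Q) {o ob : B → B → Bool} {ω x : W} {s : B}
    (ho : Anti o) (hob : Anti ob) (hC : Comp M o (q :: Q) ob) (hc : Contains cs Q ω)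
    (hs : ¬ cs.IsRightDescent x s) (hsω : wle cs (x * cs.simple s) ω) :
    Goal cs (q :: Q) o ob ω x s := by
  by_cases h1 : cs.IsLeftDescent x q
  · exact left_fire cs hQ ho hob hC (Contains.cons cs hc) hs hsω h1
  by_cases h2 : cs.IsLeftDescent (x * cs.simple s) q
  · -- crossing edge
    unfold Goal
    constructor
    · intro h
      exfalso
      have h3 := bottom_of_cross cs ho hob hC hs hsω h1 h2 h
      have h4 := (EE_bottom cs ho hob hC (leftDescent_mono cs hsω h2)
        (Contains.cons cs hc)).2.mpr hc
      linarith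
    · rintro ⟨c, c1, c2⟩
      exfalso
      obtain ⟨d, hd⟩ := fac_exists cs hc (wle_trans cs (wle_simple cs hs) hsω)
      have h4 : Fac cs (q :: Q) ω x (false :: d) := by
        rw [Fac_false]; exact ⟨h1, hd⟩
      rw [fac_unique cs c1 h4, Fac_false] at c2
      exact c2.1 h2
  · exact left_skip cs hQ ho hob hC hc hs hsω h2

omit [Fintype B] [DecidableEq B] in
theorem rev_edge {ω x : W} {s : B} (hs : ¬ cs.IsRightDescent x s)
    (hsω : wle cs (x * cs.simple s) ω) :
    ¬ cs.IsRightDescent (ω⁻¹ * x * cs.simple s) s ∧
      wle cs (ω⁻¹ * x * cs.simple s * cs.simple s) ω⁻¹ := by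
  have hxω := wle_trans cs (wle_simple cs hs) hsω
  constructor
  · rw [cs.not_isRightDescent_iff, cs.simple_mul_simple_cancel_right]
    have h5 := (wle_rev cs hxω hsω).mpr (wle_simple cs hs)
    unfold wle at h5
    have h6 : (ω⁻¹ * (x * cs.simple s))⁻¹ * (ω⁻¹ * x) = cs.simple s := by
      rw [mul_inv_rev, mul_assoc, inv_mul_cancel_left, mul_inv_rev, mul_assoc, inv_mul_cancel,
        mul_one, cs.inv_simple]
    rw [h6, cs.length_simple, ← mul_assoc] at h5
    exact h5
  · rw [cs.simple_mul_simple_cancel_right]
    exact wle_rev_top cs hxω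

/-- crossing edges when the first letter cannot be skipped -/
theorem cross_iii {q : B} {Q : List B} {o ob : B → B → Bool} {ω x : W} {s : B}
    (ho : Anti o) (hob : Anti ob) (hC : Comp M o (q :: Q) ob) (hc : Contains cs (q :: Q) ω)
    (hc2 : ¬ Contains cs Q ω)
    (hs : ¬ cs.IsRightDescent x s) (hsω : wle cs (x * cs.simple s) ω)
    (hq : ¬ cs.IsLeftDescent x q) (hqs : cs.IsLeftDescent (x * cs.simple s) q) :
    Goal cs (q :: Q) o ob ω x s := by
  have hqω := leftDescent_mono cs hsω hqs
  have hxω := wle_trans cs (wle_simple cs hs) hsω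
  have hex := exch_left cs hq hqs
  have hbot : EE cs (q :: Q) o ob ω 1 q < 4 := by
    by_contra h
    push Not at h
    exact hc2 ((EE_bottom cs ho hob hC hqω hc).2.mp h)
  have hcl : EE cs (q :: Q) o ob ω x s < 4 := by
    have h1 := join_chain cs (polyP_EE cs (ω := ω) ho hob hC) (z := 1) (x := x)
      (j := x * cs.simple s) (s := q) (cs.not_isRightDescent_one q)
      (by rw [one_mul, simple_wle_iff]; exact hqω) hbot (one_wle cs x) hxω (by
        rw [one_mul]
        refine ⟨wle_simple cs hs, (simple_wle_iff cs).mpr hqs, ?_⟩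
        intro h h1 h2
        rw [wle_simple_iff cs h1 hs, ← transport_left cs hex hq, mul_inv_cancel_left]
        exact (simple_wle_iff cs).mp h2)
    exact chain_edge cs (fun _ _ => simple_inj cs) hs h1
  have hsame : ∃ c, Fac cs (q :: Q) ω x c ∧ Fac cs (q :: Q) ω (x * cs.simple s) c := by
    obtain ⟨c, hc1⟩ := fac_exists cs hc hsω
    refine ⟨c, ?_, hc1⟩
    cases c with
    | nil =>
      have := hc1.length
      simp at this
    | cons b c =>
      cases b with
      | false =>
        rw [Fac_false] at hc1
        exact absurd hqs hc1.1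
      | true =>
        rw [Fac_true] at hc1 ⊢
        refine ⟨hc1.1, ?_⟩
        have h2 := hc1.2
        have e1 : cs.simple q * (x * cs.simple s) = x := by
          rw [← hex, cs.simple_mul_simple_cancel_left]
        rw [e1] at h2
        rw [hex]
        refine ⟨?_, h2.2⟩
        by_contra hn
        apply hc2
        have h3 : ¬ cs.IsRightDescent ((cs.wordProd (fired Q c))⁻¹ * x) s := by
          rw [h2.2.2, mul_inv_rev, cs.inv_simple, mul_assoc, hex, ← mul_assoc]
          exact (rev_edge cs hs hsω).1
        obtain ⟨u, hu1, hu2, hu3, hu4⟩ := refire cs h2.1 h2.2.1 hs h3 hn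
        have h4 : cs.wordProd (fired Q u) = ω := by
          rw [hu3, h2.2.2, ← hex]
          simp
        refine ⟨fired Q u, ?_, ?_, h4⟩
        · clear hu1 hu2 hu3 hu4 h4 hn h3 e1 h2 hc1 hcl hbot hc hC hc2
          induction Q generalizing u with
          | nil => simp
          | cons p Q ih =>
            cases u with
            | nil => simp
            | cons b u => cases b with
              | false => rw [fired_false]; exact (ih u).cons p
              | true => rw [fired_true]; exact (ih u).cons_cons p
        · unfold CoxeterSystem.IsReduced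
          rw [h4, hu4, ← h2.2.1.eq, h2.2.2]
          have := cs.isLeftDescent_iff.mp hqω
          omega
  unfold Goal
  exact ⟨fun _ => hsame, fun _ => hcl⟩

/-- facets are constant along chains whose edges satisfy the statement -/
theorem chain_same {Q : List B} {ω : W} {C : W → B → Prop} {a b : W} (h : Ch cs C a b)
    (hG : ∀ (u : W) (s : B), wle cs a u → wle cs (u * cs.simple s) b → ¬ cs.IsRightDescent u s →
      C u s → ∃ c, Fac cs Q ω u c ∧ Fac cs Q ω (u * cs.simple s) c)
    {f : List Bool} (hf : Fac cs Q ω a f) : Fac cs Q ω b f := by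
  unfold Ch at h
  induction h with
  | refl => exact hf
  | @tail b c h1 h2 ih =>
    obtain ⟨s, rfl, hs, hC⟩ := h2
    have h3 := ih (fun u t hu1 hu2 hu3 hu4 => hG u t hu1 (wle_trans cs hu2 (wle_simple cs hs))
      hu3 hu4)
    obtain ⟨c, hc1, hc2⟩ := hG b s (Ch.wle cs h1) (wle_refl cs _) hs hC
    rw [fac_unique cs h3 hc1]
    exact hc2

/-- chains of same-facet edges are closed -/
theorem same_chain {Q : List B} {ω : W} {C : W → B → Prop} {a b : W} (hab : wle cs a b)
    (hG : ∀ (u : W) (s : B), wle cs a u → wle cs (u * cs.simple s) b → ¬ cs.IsRightDescent u s →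
      (∃ c, Fac cs Q ω u c ∧ Fac cs Q ω (u * cs.simple s) c) → C u s)
    {f : List Bool} (hfa : Fac cs Q ω a f) (hfb : Fac cs Q ω b f) : Ch cs C a b := by
  obtain ⟨n, hn⟩ : ∃ n, n = cs.length b - cs.length a := ⟨_, rfl⟩
  induction n generalizing a with
  | zero =>
    have h3 : cs.length (a⁻¹ * b) = 0 := by
      unfold wle at hab
      omega
    rw [cs.length_eq_zero_iff] at h3
    rw [inv_mul_eq_one.mp h3]
    exact Relation.ReflTransGen.refl
  | succ n ih =>
    have hne : a ≠ b := by
      rintro rfl
      omega
    obtain ⟨s, hs, hsb⟩ := exists_step cs hab hne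
    have hfs := fac_convex cs (wle_simple cs hs) hsb hfa hfb
    have hl := cs.not_isRightDescent_iff.mp hs
    refine Relation.ReflTransGen.head ⟨s, rfl, hs, ?_⟩ ?_
    · exact hG a s (wle_refl cs a) hsb hs ⟨f, hfa, hfs⟩
    · exact ih hsb (fun u t hu1 hu2 hu3 hu4 => hG u t (wle_trans cs (wle_simple cs hs) hu1) hu2
        hu3 hu4) hfs (by omega)

/-- Main theorem -/
theorem main_aux (n : ℕ) : ∀ Q : List B, Q.length = n → MainFor cs Q := by
  induction n using Nat.strong_induction_on with
  | _ n IH =>
    intro Q hQn o ob ω ho hob hC hc x s hs hsω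
    have hxω := wle_trans cs (wle_simple cs hs) hsω
    cases Q with
    | nil =>
      exfalso
      rw [contains_nil_iff] at hc
      rw [hc] at hsω
      have h1 := wle_length cs hsω
      have h2 := cs.not_isRightDescent_iff.mp hs
      rw [cs.length_one] at h1
      omega
    | cons q Q2 =>
      have hQ2 : MainFor cs Q2 := IH Q2.length (by rw [← hQn]; simp) Q2 rfl
      by_cases hc2 : Contains cs Q2 ω
      · exact case_skip cs hQ2 ho hob hC hc2 hs hsω
      -- decompose from the right
      rcases List.eq_nil_or_concat (q :: Q2) with h | ⟨Q', q', h⟩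
      · simp at h
      have hQ : q :: Q2 = Q' ++ [q'] := by simpa using h
      have hQ'len : Q'.reverse.length < n := by
        rw [← hQn, hQ]; simp
      have hQ' : MainFor cs Q'.reverse := IH _ hQ'len _ rfl
      have hrev : (q :: Q2).reverse = q' :: Q'.reverse := by rw [hQ]; simp
      have hCr : Comp M ob (q' :: Q'.reverse) o := by
        rw [← hrev]; exact (Comp_reverse ho hob).mpr hC
      have hcr : Contains cs (q' :: Q'.reverse) ω⁻¹ := by
        rw [← hrev]; exact hc.reverse
      by_cases hc3 : Contains cs Q' ω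
      · apply goal_rev
        rw [hrev]
        obtain ⟨r1, r2⟩ := rev_edge cs hs hsω
        exact case_skip cs hQ' hob ho hCr hc3.reverse r1 r2
      have hc3r : ¬ Contains cs Q'.reverse ω⁻¹ := by
        rwa [contains_reverse_iff]
      have hqω : cs.IsLeftDescent ω q := by
        by_contra h1
        exact hc2 ((contains_cons_not_desc cs h1).mp hc)
      have hqω' : cs.IsRightDescent ω q' := by
        by_contra h1
        rw [hQ] at hc
        exact hc3 ((contains_snoc_not_desc cs h1).mp hc)
      -- left and right statements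
      have hleft : ∀ (u : W) (t : B), ¬ cs.IsRightDescent u t → wle cs (u * cs.simple t) ω →
          cs.IsLeftDescent u q → Goal cs (q :: Q2) o ob ω u t := fun u t h1 h2 h3 =>
        left_fire cs hQ2 ho hob hC hc h1 h2 h3
      have hright : ∀ (u : W) (t : B), ¬ cs.IsRightDescent u t → wle cs (u * cs.simple t) ω →
          cs.IsLeftDescent (ω⁻¹ * u * cs.simple t) q' → Goal cs (q :: Q2) o ob ω u t := by
        intro u t h1 h2 h3
        apply goal_rev
        rw [hrev]
        obtain ⟨r1, r2⟩ := rev_edge cs h1 h2
        exact left_fire cs hQ' hob ho hCr hcr r1 r2 h3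
      by_cases h1 : cs.IsLeftDescent x q
      · exact hleft x s hs hsω h1
      by_cases h2 : cs.IsLeftDescent (x * cs.simple s) q
      · exact cross_iii cs ho hob hC hc hc2 hs hsω h1 h2
      by_cases h3 : cs.IsLeftDescent (ω⁻¹ * x * cs.simple s) q'
      · exact hright x s hs hsω h3
      by_cases h4 : cs.IsLeftDescent (ω⁻¹ * x * cs.simple s * cs.simple s) q'
      · apply goal_rev
        rw [hrev]
        obtain ⟨r1, r2⟩ := rev_edge cs hs hsω
        exact cross_iii cs hob ho hCr hcr hc3r r1 r2 h3 h4
      -- main case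
      have hbot : EE cs (q :: Q2) o ob ω 1 q < 4 := by
        by_contra h
        push Not at h
        exact hc2 ((EE_bottom cs ho hob hC hqω hc).2.mp h)
      have hqω'i : cs.IsLeftDescent ω⁻¹ q' := cs.isLeftDescent_inv_iff.mpr hqω'
      have htop : EE cs (q :: Q2) o ob ω (ω * cs.simple q') q' < 4 := by
        rw [← EE_rev, hrev]
        have e : ω⁻¹ * (ω * cs.simple q') * cs.simple q' = 1 := by simp
        rw [e]
        by_contra h
        push Not at h
        exact hc3r ((EE_bottom cs hob ho hCr hqω'i hcr).2.mp h)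
      obtain ⟨ω', hω'⟩ : ∃ ω', ω' = ω * cs.simple q' := ⟨_, rfl⟩
      have hω's : ω' * cs.simple q' = ω := by rw [hω']; simp
      have hω'd : ¬ cs.IsRightDescent ω' q' := by
        rw [hω']; exact cs.isRightDescent_iff_not_isRightDescent_mul.mp hqω'
      have hω'ω : wle cs ω' ω := by
        have := wle_simple cs hω'd
        rwa [hω's] at this
      -- elements below `ω'`
      have hbelow : ∀ z, wle cs z ω → (wle cs z ω' ↔ cs.IsLeftDescent (ω⁻¹ * z) q') := by
        intro z hz
        rw [← wle_rev cs hz hω'ω, hω', inv_mul_cancel_left, simple_wle_iff]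
      -- the case of a word with one letter
      have hqω'2 : cs.IsLeftDescent ω' q := by
        by_contra hcon
        have e1 : cs.simple q * ω' = ω' * cs.simple q' :=
          exch_left cs hcon (by rw [hω's]; exact hqω)
        rw [hω's] at e1
        have e2 : cs.simple q * ω = ω' := by
          rw [← e1, cs.simple_mul_simple_cancel_left]
        have hc4 := (contains_cons_desc cs hqω).mp hc
        rw [e2] at hc4
        rcases List.eq_nil_or_concat Q2 with h5 | ⟨Q3, q3, h5⟩
        · -- `ω = q`
          rw [h5, contains_nil_iff] at hc4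
          have e3 : ω = cs.simple q := by
            rw [hc4] at e2
            have := congrArg (fun z => cs.simple q * z) e2
            simpa using this
          rw [e3] at hsω
          apply h2
          have h6 : x * cs.simple s = cs.simple q := by
            by_contra hne
            obtain ⟨t, ht, htq⟩ := exists_step cs hsω hne
            have a1 := wle_length cs htq
            have a2 := cs.not_isRightDescent_iff.mp ht
            have a3 := cs.not_isRightDescent_iff.mp hs
            rw [cs.length_simple] at a1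
            omega
          rw [h6]
          rw [cs.isLeftDescent_iff]
          simp
        · have h5' : Q2 = Q3 ++ [q3] := by simpa using h5
          have h6 : q3 = q' := by
            rw [h5', ← List.cons_append] at hQ
            have := List.append_inj_right' hQ rfl
            simpa using this
          rw [h5', h6] at hc4 hc2
          apply hc2
          rw [contains_snoc_desc cs hqω', ← hω']
          exact (contains_snoc_not_desc cs hω'd).mp hc4
      have hPoly := polyP_EE cs (ω := ω) ho hob hC
      have hPolyr := polyP_rev cs (ω := ω) ho hob hC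
      have h1w : wle cs (1 * cs.simple q) ω := by
        rw [one_mul, simple_wle_iff]; exact hqω
      -- common facet of `z` and `z ∨ q`
      have hkey : ∀ z b, wle cs z ω → IsJ cs z (1 * cs.simple q) b →
          ∃ f, Fac cs (q :: Q2) ω z f ∧ Fac cs (q :: Q2) ω b f := by
        intro z b hz hb
        have hbω : wle cs b ω := hb.2.2 ω hz h1w
        obtain ⟨a, ha⟩ := exists_meet cs hz hω'ω
        obtain ⟨c, hcm⟩ := exists_meet cs hbω hω'ω
        have ch1 := meet_chain cs hPolyr hω'd (by rw [hω's]; exact wle_refl cs ω)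
          (by rw [hω']; exact htop) (z := z) (by rw [hω's]; exact hz) ha
        have ch2 := join_chain cs hPoly (cs.not_isRightDescent_one q) h1w hbot (one_wle cs z) hz hb
        have ch3 := meet_closed_chain cs hPolyr (Relation.ReflTransGen.trans ch1 ch2) hbω hω'ω
          a c (isM_of_wle cs ha.2.1) hcm
        have ch4 := meet_chain cs hPolyr hω'd (by rw [hω's]; exact wle_refl cs ω)
          (by rw [hω']; exact htop) (z := b) (by rw [hω's]; exact hbω) hcm
        have haω : wle cs a ω := wle_trans cs ha.1 hz
        obtain ⟨f, hf⟩ := fac_exists cs hc haω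
        have hfc : Fac cs (q :: Q2) ω c f := by
          apply chain_same cs ch3 _ hf
          intro u t hu1 hu2 hu3 hu4
          have hut : wle cs (u * cs.simple t) ω' := wle_trans cs hu2 hcm.2.1
          have hutω := wle_trans cs hut hω'ω
          refine (hright u t hu3 hutω ?_).mp hu4
          rw [mul_assoc]
          exact (hbelow _ hutω).mp hut
        have hqc : cs.IsLeftDescent c q := by
          rw [← simple_wle_iff]
          apply hcm.2.2
          · have := hb.2.1
            rwa [one_mul] at this
          · rwa [simple_wle_iff]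
        have hfb : Fac cs (q :: Q2) ω b f := by
          apply chain_same cs ch4 _ hfc
          intro u t hu1 hu2 hu3 hu4
          exact (hleft u t hu3 (wle_trans cs hu2 hbω) (leftDescent_mono cs hu1 hqc)).mp hu4
        exact ⟨f, fac_convex cs ha.1 hb.1 hf hfb, hfb⟩
      obtain ⟨bx, hbx⟩ := exists_join cs hxω h1w
      obtain ⟨bs, hbs⟩ := exists_join cs hsω h1w
      have hbxω : wle cs bx ω := hbx.2.2 ω hxω h1w
      have hbsω : wle cs bs ω := hbs.2.2 ω hsω h1w
      obtain ⟨fx, hfx, hfbx⟩ := hkey x bx hxω hbx
      obtain ⟨fs, hfs, hfbs⟩ := hkey (x * cs.simple s) bs hsω hbs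
      have hbxbs : wle cs bx bs := hbx.2.2 bs (wle_trans cs (wle_simple cs hs) hbs.1) hbs.2.1
      have hqbx : cs.IsLeftDescent bx q := by
        have := hbx.2.1
        rwa [one_mul, simple_wle_iff] at this
      have hchx := join_chain cs hPoly (cs.not_isRightDescent_one q) h1w hbot (one_wle cs x) hxω hbx
      unfold Goal
      constructor
      · intro hcl
        have hj : IsJ cs bx (x * cs.simple s) bs := by
          refine ⟨hbxbs, hbs.1, ?_⟩
          intro h k1 k2
          exact hbs.2.2 h k2 (wle_trans cs hbx.2.1 k1)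
        have ch := join_chain cs hPoly hs hsω hcl hbx.1 hbxω hj
        have hf2 : Fac cs (q :: Q2) ω bs fx := by
          apply chain_same cs ch _ hfbx
          intro u t hu1 hu2 hu3 hu4
          exact (hleft u t hu3 (wle_trans cs hu2 hbsω) (leftDescent_mono cs hu1 hqbx)).mp hu4
        have hff : fx = fs := fac_unique cs hf2 hfbs
        exact ⟨fx, hfx, hff ▸ hfs⟩
      · rintro ⟨c, c1, c2⟩
        have e1 : fx = c := fac_unique cs hfx c1
        have e2 : fs = c := fac_unique cs hfs c2
        rw [e1] at hfbx
        rw [e2] at hfbs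
        have ch : Ch cs (fun x s => EE cs (q :: Q2) o ob ω x s < 4) bx bs := by
          apply same_chain cs hbxbs _ hfbx hfbs
          intro u t hu1 hu2 hu3 hu4
          exact (hleft u t hu3 (wle_trans cs hu2 hbsω) (leftDescent_mono cs hu1 hqbx)).mpr hu4
        have ch2 := meet_closed_chain cs hPolyr (Relation.ReflTransGen.trans hchx ch) hbsω hsω
          x (x * cs.simple s) (isM_of_wle cs (wle_simple cs hs)) (isM_of_wle cs hbs.1).symm
        exact chain_edge cs (fun _ _ => simple_inj cs) hs ch2

theorem main_thm (Q : List B) : MainFor cs Q := main_aux cs _ Q rfl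

end CxA
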