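import Mathlib
import Pool.Agent.helper52.Cox.MainThm

/-!
Orientations attached to alternating words.
-/

namespace CxA

open CoxeterSystem

section

variable {B : Type*} [DecidableEq B] {M : CoxeterMatrix B}

/-- letters of `Q` equal to `s` or `t` -/
def pairWord (Q : List B) (s t : B) : List B := Q.filter (fun u => u = s ∨ u = t)

/-- invariant linking an orientation and an alternating word -/
def OriP (M : CoxeterMatrix B) (o : B → B → Bool) (Q : List B) : Prop :=
  ∀ s t, s ≠ t → M s t ≠ 2 → (pairWord Q s t).IsChain (· ≠ ·) ∧
    ((pairWord Q s t).head? = some s → o s t = true) ∧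
    ((pairWord Q s t).head? = some t → o t s = true)

theorem pairWord_cons_self_left (Q : List B) (s t : B) :
    pairWord (s :: Q) s t = s :: pairWord Q s t := by simp [pairWord]

theorem pairWord_cons_self_right (Q : List B) (s t : B) :
    pairWord (t :: Q) s t = t :: pairWord Q s t := by simp [pairWord]

theorem pairWord_cons_ne (Q : List B) {q s t : B} (h1 : q ≠ s) (h2 : q ≠ t) :
    pairWord (q :: Q) s t = pairWord Q s t := by simp [pairWord, h1, h2]

theorem mem_pairWord {Q : List B} {s t u : B} (h : u ∈ pairWord Q s t) : u = s ∨ u = t := by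
  simp [pairWord] at h
  exact h.2

theorem OriP_cons {o : B → B → Bool} {q : B} {Q : List B} (h : OriP M o (q :: Q)) :
    Src M o q ∧ OriP M (flip q o) Q := by
  refine ⟨?_, ?_⟩
  · intro t ht hM
    obtain ⟨_, h2, _⟩ := h q t (Ne.symm ht) hM
    apply h2
    rw [pairWord_cons_self_left]
    rfl
  · intro s t hst hM
    obtain ⟨h1, h2, h3⟩ := h s t hst hM
    by_cases hs : q = s
    · subst hs
      rw [pairWord_cons_self_left] at h1 h2 h3
      refine ⟨h1.tail, ?_, ?_⟩
      · intro h4
        exfalso
        cases hL : pairWord Q q t with
        | nil => rw [hL] at h4; simp at h4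
        | cons a L =>
          rw [hL] at h4 h1
          simp only [List.head?_cons, Option.some.injEq] at h4
          rw [List.isChain_cons_cons] at h1
          exact h1.1 h4.symm
      · intro _
        simp [flip, Ne.symm hst]
    · by_cases ht : q = t
      · subst ht
        rw [pairWord_cons_self_right] at h1 h2 h3
        refine ⟨h1.tail, ?_, ?_⟩
        · intro _
          simp [flip, hst]
        · intro h4
          exfalso
          cases hL : pairWord Q s q with
          | nil => rw [hL] at h4; simp at h4
          | cons a L =>
            rw [hL] at h4 h1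
            simp only [List.head?_cons, Option.some.injEq] at h4
            rw [List.isChain_cons_cons] at h1
            exact h1.1 h4.symm
      · rw [pairWord_cons_ne Q hs ht] at h1 h2 h3
        refine ⟨h1, ?_, ?_⟩
        · intro h4
          have := h2 h4
          simp [flip, Ne.symm hs, Ne.symm ht, this]
        · intro h4
          have := h3 h4
          simp [flip, Ne.symm hs, Ne.symm ht, this]

theorem exists_Comp_of_OriP {Q : List B} : ∀ {o : B → B → Bool} (_ : Anti o) (_ : OriP M o Q),
    ∃ ob, Anti ob ∧ Comp M o Q ob := by
  induction Q with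
  | nil =>
    intro o ho _
    refine ⟨fun s t => o t s, ?_, ?_⟩
    · intro s t hst
      exact ho t s hst.symm
    · intro s t _ _
      rfl
  | cons q Q ih =>
    intro o ho h
    obtain ⟨h1, h2⟩ := OriP_cons h
    obtain ⟨ob, h3, h4⟩ := ih (ho.flip q) h2
    exact ⟨ob, h3, h1, h4⟩

/-- orientation by first occurrence -/
noncomputable def firstOri [Fintype B] (Q : List B) (s t : B) : Bool :=
  match (pairWord Q s t).head? with
  | some u => decide (u = s)
  | none => decide ((Fintype.equivFin B) s < (Fintype.equivFin B) t)

theorem firstOri_anti [Fintype B] (Q : List B) : Anti (firstOri Q) := by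
  intro s t hst
  unfold firstOri
  have e : pairWord Q t s = pairWord Q s t := by
    unfold pairWord
    congr 1
    funext u
    simp [or_comm]
  rw [e]
  cases hL : pairWord Q s t with
  | nil =>
    simp only [List.head?_nil]
    have hne : (Fintype.equivFin B) s ≠ (Fintype.equivFin B) t :=
      fun h => hst ((Fintype.equivFin B).injective h)
    rcases lt_or_gt_of_ne hne with h | h
    · simp [h, not_lt.mpr h.le]
    · simp [h, not_lt.mpr h.le]
  | cons a L =>
    simp only [List.head?_cons]
    have : a = s ∨ a = t := mem_pairWord (Q := Q) (by rw [hL]; exact List.mem_cons_self)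
    rcases this with rfl | rfl
    · simp [hst]
    · simp [Ne.symm hst]

theorem exists_Comp [Fintype B] {Q : List B}
    (h : ∀ s t, s ≠ t → M s t ≠ 2 → (pairWord Q s t).IsChain (· ≠ ·)) :
    ∃ o ob, Anti o ∧ Anti ob ∧ Comp M o Q ob := by
  obtain ⟨ob, h1, h2⟩ := exists_Comp_of_OriP (M := M) (Q := Q) (firstOri_anti Q) (by
    intro s t hst hM
    refine ⟨h s t hst hM, ?_, ?_⟩
    · intro h1
      unfold firstOri
      rw [h1]
      simp
    · intro h1
      unfold firstOri
      have e : pairWord Q t s = pairWord Q s t := by
        unfold pairWord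
        congr 1
        funext u
        simp [or_comm]
      rw [e, h1]
      simp)
  exact ⟨_, ob, firstOri_anti Q, h1, h2⟩

end

section

variable {B : Type*} [Fintype B] [DecidableEq B] {W : Type*} [Group W] {M : CoxeterMatrix B}
  (cs : CoxeterSystem M W)

/-- commuting generators have `m = 2` -/
theorem M_eq_two_of_comm {s t : B} (hst : s ≠ t)
    (h : cs.simple s * cs.simple t = cs.simple t * cs.simple s) : M s t = 2 := by
  by_contra hM
  have hd : ¬ cs.IsRightDescent (cs.simple t) s := by
    intro hd
    have h1 := cs.isRightDescent_iff.mp hd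
    rw [cs.length_simple] at h1
    have h2 : cs.length (cs.simple t * cs.simple s) = 0 := by omega
    rw [cs.length_eq_zero_iff] at h2
    have h3 : cs.simple t = cs.simple s := by
      have := congrArg (fun z => z * cs.simple s) h2
      simpa using this
    exact hst (simple_inj cs h3).symm
  have h1 := root_transport cs h hd
  rw [rho_simple, sig_al] at h1
  have h2 := congrFun h1 t
  have h3 : (al ℝ s : B → ℝ) t = 0 := by simp [al, Ne.symm hst]
  have h4 : (al ℝ t : B → ℝ) t = 1 := by simp [al]
  rw [Pi.add_apply, Pi.smul_apply, h3, h4] at h2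
  have h5 : Kre M t s = 0 := by simpa using h2
  have h6 : 0 < Kre M t s := by
    unfold Kre
    exact kc_pos (M_ne_one (Ne.symm hst)) (by rwa [M.symmetric])
  linarith

end

end CxA
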