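import Mathlib
import Pool.Agent.helper52.Cox.Defs
import Pool.Agent.helper52.Cox.Orient

/-!
Translation between the definitions of the statement and the working definitions.
-/

namespace CxA

open CoxeterSystem SubwordLattice

section Words

variable {B : Type*}

/-- list of booleans attached to a predicate on positions -/
def cl (n : ℕ) (p : ℕ → Bool) : List Bool := (List.range n).map p

theorem cl_zero (p : ℕ → Bool) : cl 0 p = [] := rfl

theorem cl_succ (n : ℕ) (p : ℕ → Bool) : cl (n + 1) p = p 0 :: cl n (fun k => p (k + 1)) := by
  unfold cl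
  rw [List.range_succ_eq_map, List.map_cons, List.map_map]
  rfl

@[simp] theorem cl_length (n : ℕ) (p : ℕ → Bool) : (cl n p).length = n := by simp [cl]

theorem fired_cl (Q : List B) (p : ℕ → Bool) :
    fired Q (cl Q.length p)
      = ((List.finRange Q.length).filter fun x : Fin Q.length => p x.val).map Q.get := by
  induction Q generalizing p with
  | nil => simp [cl_zero]
  | cons q Q ih =>
    have e1 : cl (q :: Q).length p = p 0 :: cl Q.length (fun k => p (k + 1)) := cl_succ _ _
    rw [e1]
    have e2 : List.finRange (Q.length + 1)
        = 0 :: (List.finRange Q.length).map Fin.succ := List.finRange_succ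
    have e3 : (((List.finRange Q.length).map Fin.succ).filter
          fun x : Fin (Q.length + 1) => p x.val).map (q :: Q).get
        = fired Q (cl Q.length fun k => p (k + 1)) := by
      rw [ih, List.filter_map, List.map_map]
      rfl
    have e4 : (List.finRange (q :: Q).length).filter (fun x => p x.val)
        = if p 0 then (0 : Fin (Q.length + 1)) :: ((List.finRange Q.length).map Fin.succ).filter
            (fun x : Fin (Q.length + 1) => p x.val)
          else ((List.finRange Q.length).map Fin.succ).filter
            (fun x : Fin (Q.length + 1) => p x.val) := by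
      show (List.finRange (Q.length + 1)).filter (fun x : Fin (Q.length + 1) => p x.val) = _
      rw [e2, List.filter_cons]
      rfl
    rw [e4]
    cases hp : p 0 with
    | true =>
      rw [if_pos rfl, List.map_cons, e3]
      rfl
    | false =>
      rw [if_neg (by simp), e3]
      rfl

/-- predicate attached to a set of positions -/
noncomputable def pI (Q : List B) (I : Finset (Fin Q.length)) (k : ℕ) : Bool :=
  open Classical in decide (∀ h : k < Q.length, (⟨k, h⟩ : Fin Q.length) ∉ I)

/-- list of booleans attached to a set of positions -/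
noncomputable def toC (Q : List B) (I : Finset (Fin Q.length)) : List Bool :=
  cl Q.length (pI Q I)

theorem pI_val (Q : List B) (I : Finset (Fin Q.length)) (k : Fin Q.length) :
    pI Q I k = decide (k ∉ I) := by
  unfold pI
  apply Bool.eq_iff_iff.mpr
  simp

theorem toC_length (Q : List B) (I : Finset (Fin Q.length)) : (toC Q I).length = Q.length := by
  simp [toC]

theorem complementWord_eq [DecidableEq B] (Q : List B) (I : Finset (Fin Q.length)) :
    complementWord Q I = fired Q (toC Q I) := by
  unfold toC complementWord
  rw [fired_cl]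
  congr 1
  apply List.filter_congr
  intro x _
  rw [pI_val]

theorem beforeWord_eq [DecidableEq B] (Q : List B) (I : Finset (Fin Q.length))
    (k : Fin Q.length) :
    beforeWord Q I k = fired Q (cl Q.length (fun x => decide (x < k.val) && pI Q I x)) := by
  unfold beforeWord
  rw [fired_cl]
  congr 1
  apply List.filter_congr
  intro x _
  rw [pI_val]
  rw [Bool.eq_iff_iff]
  simp

end Words

section Sk

variable {B : Type*} {W : Type*} [Group W] {M : CoxeterMatrix B} (cs : CoxeterSystem M W)

theorem fired_cl_false (Q : List B) (p : ℕ → Bool) (hp : ∀ k, p k = false) :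
    fired Q (cl Q.length p) = [] := by
  rw [fired_cl]
  simp [hp]

theorem Sk_cl (Q : List B) (p : ℕ → Bool) (y : W) :
    Sk cs Q (cl Q.length p) y ↔ ∀ (k : ℕ) (h : k < Q.length), p k = false →
      ¬ cs.IsLeftDescent
        ((cs.wordProd (fired Q (cl Q.length (fun x => decide (x < k) && p x))))⁻¹ * y) Q[k] := by
  induction Q generalizing p y with
  | nil => simp [cl_zero]
  | cons q Q ih =>
    have key : ∀ (k : ℕ), fired (q :: Q) (cl (q :: Q).length (fun x => decide (x < k + 1) && p x))
        = if p 0 then q :: fired Q (cl Q.length (fun x => decide (x < k) && p (x + 1)))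
          else fired Q (cl Q.length (fun x => decide (x < k) && p (x + 1))) := by
      intro k
      have e1 : ∀ p', cl (q :: Q).length p' = p' 0 :: cl Q.length (fun k => p' (k + 1)) :=
        fun p' => cl_succ _ _
      rw [e1]
      have e2 : (fun x => decide (x + 1 < k + 1) && p (x + 1))
          = fun x => decide (x < k) && p (x + 1) := by
        funext x
        simp
      rw [e2]
      cases hp : p 0 with
      | true => simp
      | false => simp
    have key0 : fired (q :: Q) (cl (q :: Q).length (fun x => decide (x < 0) && p x)) = [] :=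
      fired_cl_false (q :: Q) (fun x => decide (x < 0) && p x) (by simp)
    have e3 : cl (q :: Q).length p = p 0 :: cl Q.length (fun k => p (k + 1)) := cl_succ _ _
    rw [e3]
    cases hp : p 0 with
    | true =>
      rw [Sk_true, ih]
      constructor
      · intro H k hk hpk
        cases k with
        | zero => rw [hp] at hpk; exact absurd hpk (by simp)
        | succ k =>
          have := H k (by simpa using hk) hpk
          rw [key, hp, if_pos rfl, cs.wordProd_cons, mul_inv_rev, cs.inv_simple, mul_assoc]
          exact this
      · intro H k hk hpk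
        have := H (k + 1) (by simpa using hk) hpk
        rw [key, hp, if_pos rfl, cs.wordProd_cons, mul_inv_rev, cs.inv_simple, mul_assoc] at this
        exact this
    | false =>
      rw [Sk_false, ih]
      constructor
      · rintro ⟨H0, H⟩ k hk hpk
        cases k with
        | zero =>
          rw [key0, cs.wordProd_nil, inv_one, one_mul]
          exact H0
        | succ k =>
          have := H k (by simpa using hk) hpk
          rw [key, hp, if_neg (by simp)]
          exact this
      · intro H
        refine ⟨?_, ?_⟩
        · have := H 0 (by simp) hp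
          rw [key0, cs.wordProd_nil, inv_one, one_mul] at this
          exact this
        · intro k hk hpk
          have := H (k + 1) (by simpa using hk) hpk
          rw [key, hp, if_neg (by simp)] at this
          exact this

end Sk

section Rep

variable {B : Type*} [Fintype B] [DecidableEq B] {W : Type*} [Group W] {M : CoxeterMatrix B}
  (cs : CoxeterSystem M W)

theorem geomRep_eq : geomRep cs = rho cs := by
  apply cs.ext_simple
  intro s
  rw [rho_simple]
  unfold geomRep
  rw [cs.lift_apply_simple, reflection_eq_sig]

omit [Fintype B] in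
theorem simpleRoot_eq (s : B) : simpleRoot s = al ℝ s := rfl

theorem mem_image_posRoots {w π : W} {q : B} :
    rho cs w (al ℝ q) ∈ (geomRep cs π) '' posRoots cs ↔ ¬ cs.IsLeftDescent (w⁻¹ * π) q := by
  have h0 : ¬ cs.IsLeftDescent (w⁻¹ * π) q ↔ ∀ b, 0 ≤ rho cs (π⁻¹ * w) (al ℝ q) b := by
    rw [← not_descent_iff_nonneg, ← cs.isLeftDescent_inv_iff, mul_inv_rev, inv_inv]
  rw [h0]
  constructor
  · rintro ⟨γ, ⟨_, h2⟩, h3⟩
    intro b
    rw [geomRep_eq] at h3
    rw [rho_mul_apply, ← h3, rho_inv_apply]
    exact h2 b
  · intro h
    refine ⟨rho cs (π⁻¹ * w) (al ℝ q), ⟨⟨π⁻¹ * w, q, ?_⟩, h⟩, ?_⟩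
    · rw [geomRep_eq]; rfl
    · rw [geomRep_eq, ← rho_mul_apply, mul_inv_cancel_left]

theorem mem_linearExtensions {Q : List B} {I : Finset (Fin Q.length)} {π : W} :
    π ∈ linearExtensions cs Q I ↔ Sk cs Q (toC Q I) π := by
  unfold toC
  rw [Sk_cl]
  unfold linearExtensions rootConfiguration rootFunction
  simp only [Set.mem_ofPred_eq, Multiset.mem_map, Finset.mem_val]
  constructor
  · intro H k hk hpk
    have h1 : (⟨k, hk⟩ : Fin Q.length) ∈ I := by
      have := pI_val Q I ⟨k, hk⟩
      simp only at this
      rw [hpk] at this
      simpa using this.symm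
    have h2 := H _ ⟨⟨k, hk⟩, h1, rfl⟩
    rw [beforeWord_eq, geomRep_eq cs, simpleRoot_eq, ← geomRep_eq cs] at h2
    rw [← mem_image_posRoots cs]
    rw [geomRep_eq] at h2 ⊢
    exact h2
  · rintro H β ⟨k, hk, rfl⟩
    have h1 : pI Q I k = false := by
      rw [pI_val]; simp [hk]
    have h2 := H k k.isLt h1
    rw [← mem_image_posRoots cs] at h2
    rw [beforeWord_eq, geomRep_eq cs, simpleRoot_eq]
    rw [geomRep_eq] at h2
    exact h2

theorem facet_iff {Q : List B} {ω π : W} {I : Finset (Fin Q.length)} :
    (IsFacet cs Q ω I ∧ π ∈ linearExtensions cs Q I) ↔ Fac cs Q ω π (toC Q I) := by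
  rw [mem_linearExtensions]
  unfold IsFacet Fac
  rw [complementWord_eq]
  tauto

end Rep

section Inj

variable {B : Type*}

theorem toC_getElem (Q : List B) (I : Finset (Fin Q.length)) (k : ℕ) (hk : k < Q.length) :
    (toC Q I)[k]'(by rw [toC_length]; exact hk) = decide ((⟨k, hk⟩ : Fin Q.length) ∉ I) := by
  have : (toC Q I)[k]'(by rw [toC_length]; exact hk) = pI Q I k := by
    simp [toC, cl]
  rw [this, ← pI_val Q I ⟨k, hk⟩]

theorem toC_injective (Q : List B) : Function.Injective (toC Q) := by
  intro I J h
  ext k
  have h1 := toC_getElem Q I k k.isLt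
  have h2 := toC_getElem Q J k k.isLt
  have h3 : (toC Q I)[(k : ℕ)]'(by rw [toC_length]; exact k.isLt)
      = (toC Q J)[(k : ℕ)]'(by rw [toC_length]; exact k.isLt) := by
    simp only [h]
  rw [h1, h2] at h3
  simpa using h3

theorem exists_toC (Q : List B) (d : List Bool) (hc : d.length = Q.length) :
    ∃ I, toC Q I = d := by
  refine ⟨Finset.univ.filter fun k : Fin Q.length =>
    (d[(k : ℕ)]'(by rw [hc]; exact k.isLt)) = false, ?_⟩
  apply List.ext_getElem
  · rw [toC_length, hc]
  · intro k h1 h2
    rw [toC_getElem Q _ k (by rw [← hc]; exact h2)]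
    simp

end Inj

end CxA
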