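import Mathlib
import Pool.Agent.helper52.Cox.Orient

/-!
Flips between facets of adjacent elements, combinatorial part.
-/

namespace CxA

open CoxeterSystem

variable {B : Type*} [Fintype B] [DecidableEq B] {W : Type*} [Group W] {M : CoxeterMatrix B}
  (cs : CoxeterSystem M W)

omit [Fintype B] [DecidableEq B] in
theorem UF.split {Q : List B} {y : W} {t : B} {c c' : List Bool} (h : UF cs Q y t c c')
    (hc : c.length = Q.length) :
    ∃ (A : List B) (q : B) (D : List B) (a d : List Bool), Q = A ++ q :: D ∧
      c = a ++ true :: d ∧ c' = a ++ false :: d ∧ a.length = A.length ∧ d.length = D.length := by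
  induction h with
  | @skip q Q y t c c' _ ih =>
    obtain ⟨A, q1, D, a, d, h1, h2, h3, h4, h5⟩ := ih (by simpa using hc)
    exact ⟨q :: A, q1, D, false :: a, d, by rw [h1]; rfl, by rw [h2]; rfl, by rw [h3]; rfl,
      by simp [h4], h5⟩
  | @fire q Q y t c c' _ _ ih =>
    obtain ⟨A, q1, D, a, d, h1, h2, h3, h4, h5⟩ := ih (by simpa using hc)
    exact ⟨q :: A, q1, D, true :: a, d, by rw [h1]; rfl, by rw [h2]; rfl, by rw [h3]; rfl,
      by simp [h4], h5⟩
  | @unf q Q y t c _ =>
    exact ⟨[], q, Q, [], c, rfl, rfl, rfl, rfl, by simpa using hc⟩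

/-- positions and root of a toggle -/
theorem TU.split {Q : List B} {y : W} {t : B} {c c' : List Bool} (h : TU cs Q y t c c')
    (hS : Sk cs Q c y) (ht : ¬ cs.IsRightDescent y t) :
    ∃ (A : List B) (q : B) (P : List B) (q' : B) (D : List B) (a m d : List Bool),
      Q = A ++ q :: (P ++ q' :: D) ∧
      c = a ++ false :: (m ++ true :: d) ∧ c' = a ++ true :: (m ++ false :: d) ∧
      a.length = A.length ∧ m.length = P.length ∧ d.length = D.length ∧
      rho cs (cs.wordProd (fired A a)) (al ℝ q) = rho cs y (al ℝ t) := by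
  induction h with
  | @skip q Q y t c c' h1 _ ih =>
    obtain ⟨A, q1, P, q', D, a, m, d, e1, e2, e3, e4, e5, e6, e7⟩ := ih hS.2 ht
    exact ⟨q :: A, q1, P, q', D, false :: a, m, d, by rw [e1]; rfl, by rw [e2]; rfl,
      by rw [e3]; rfl, by simp [e4], e5, e6, by simpa using e7⟩
  | @fire q Q y t c c' h1 _ ih =>
    obtain ⟨A, q1, P, q', D, a, m, d, e1, e2, e3, e4, e5, e6, e7⟩ := ih hS h1
    refine ⟨q :: A, q1, P, q', D, true :: a, m, d, by rw [e1]; rfl, by rw [e2]; rfl,
      by rw [e3]; rfl, by simp [e4], e5, e6, ?_⟩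
    rw [fired_true, cs.wordProd_cons, rho_mul_apply, e7, ← rho_mul_apply,
      cs.simple_mul_simple_cancel_left]
  | @tog q Q y t c c' h1 h2 =>
    have hl := hS.length
    obtain ⟨A, q1, D, a, d, e1, e2, e3, e4, e5⟩ := h2.split cs (by simpa using hl)
    have hex := exch_left cs hS.1 h1
    refine ⟨[], q, A, q1, D, [], a, d, by rw [e1]; rfl, by rw [e2]; rfl,
      by rw [e3]; rfl, rfl, e4, e5, ?_⟩
    rw [fired_nil, cs.wordProd_nil, rho_one_apply, root_transport cs hex ht]

/-- a violated skip gives the root -/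
theorem violation {A : List B} {a : List Bool} {x : W} {s : B} (hS : Sk cs A a x)
    (hr : cs.IsReduced (fired A a))
    (h2 : ¬ cs.IsRightDescent ((cs.wordProd (fired A a))⁻¹ * x) s)
    (hn : ¬ Sk cs A a (x * cs.simple s)) (hs : ¬ cs.IsRightDescent x s) :
    ∃ (A1 : List B) (p : B) (A2 : List B) (a1 a2 : List Bool), A = A1 ++ p :: A2 ∧
      a = a1 ++ false :: a2 ∧ a1.length = A1.length ∧
      rho cs (cs.wordProd (fired A1 a1)) (al ℝ p) = rho cs x (al ℝ s) := by
  induction A generalizing a x with
  | nil => cases a with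
    | nil => exact absurd trivial hn
    | cons b c => exact absurd hS (by simp)
  | cons q A ih => cases a with
    | nil => exact absurd hS (by simp)
    | cons b a =>
      cases b with
      | false =>
        rw [Sk_false] at hS hn
        rw [fired_false] at hr h2
        by_cases h1 : cs.IsLeftDescent (x * cs.simple s) q
        · have hex := exch_left cs hS.1 h1
          refine ⟨[], q, A, [], a, rfl, rfl, rfl, ?_⟩
          rw [fired_nil, cs.wordProd_nil, rho_one_apply, root_transport cs hex hs]
        · obtain ⟨A1, p, A2, a1, a2, e1, e2, e3, e4⟩ := ih hS.2 hr h2 (fun h => hn ⟨h1, h⟩) hs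
          exact ⟨q :: A1, p, A2, false :: a1, a2, by rw [e1]; rfl, by rw [e2]; rfl,
            by simp [e3], by simpa using e4⟩
      | true =>
        rw [Sk_true] at hS hn
        rw [fired_true] at hr h2
        rw [← mul_assoc] at hn
        have hr' : cs.IsReduced (fired A a) := by simpa using hr.drop 1
        have e : (cs.wordProd (q :: fired A a))⁻¹ * x
            = (cs.wordProd (fired A a))⁻¹ * (cs.simple q * x) := by
          rw [cs.wordProd_cons, mul_inv_rev, cs.inv_simple, mul_assoc]
        by_cases h1 : cs.IsRightDescent (cs.simple q * x) s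
        · exfalso
          have hex := exch_right cs hs h1
          rw [transport cs hex hs, cs.isRightDescent_inv_iff] at h2
          apply h2
          unfold CoxeterSystem.IsLeftDescent
          rw [hr.eq, cs.wordProd_cons, cs.simple_mul_simple_cancel_left]
          have := cs.length_wordProd_le (fired A a)
          simp; omega
        · rw [e] at h2
          obtain ⟨A1, p, A2, a1, a2, e1, e2, e3, e4⟩ := ih hS hr' h2 hn h1
          refine ⟨q :: A1, p, A2, true :: a1, a2, by rw [e1]; rfl, by rw [e2]; rfl,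
            by simp [e3], ?_⟩
          rw [fired_true, cs.wordProd_cons, rho_mul_apply, e4, ← rho_mul_apply,
            cs.simple_mul_simple_cancel_left]

/-- the partner of a flip contains the neighbour. -/
theorem flip_adjacent {A P D : List B} {q q' : B} {a m d : List Bool} {ω x π' : W} {s : B}
    (ha : a.length = A.length) (hm : m.length = P.length)
    (hI : Fac cs (A ++ q :: (P ++ q' :: D)) ω x (a ++ false :: (m ++ true :: d)))
    (hJr : cs.IsReduced (fired (A ++ q :: (P ++ q' :: D)) (a ++ true :: (m ++ false :: d))))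
    (hJp : cs.wordProd (fired (A ++ q :: (P ++ q' :: D)) (a ++ true :: (m ++ false :: d))) = ω)
    (hJ : Sk cs (A ++ q :: (P ++ q' :: D)) (a ++ true :: (m ++ false :: d)) π')
    (hβ : rho cs (cs.wordProd (fired A a)) (al ℝ q) = rho cs x (al ℝ s)) :
    ¬ cs.IsRightDescent x s ∧
      Fac cs (A ++ q :: (P ++ q' :: D)) ω (x * cs.simple s) (a ++ true :: (m ++ false :: d)) := by
  obtain ⟨hS, hr, hp⟩ := hI
  rw [fired_append _ _ _ _ ha, fired_false, fired_append _ _ _ _ hm, fired_true] at hr hp
  rw [fired_append _ _ _ _ ha, fired_true, fired_append _ _ _ _ hm, fired_false] at hJr hJp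
  rw [Sk_append _ _ _ _ _ _ ha, Sk_false, Sk_append _ _ _ _ _ _ hm, Sk_true] at hS
  rw [Sk_append _ _ _ _ _ _ ha, Sk_true, Sk_append _ _ _ _ _ _ hm, Sk_false] at hJ
  obtain ⟨w, hw⟩ : ∃ w, w = cs.wordProd (fired A a) := ⟨_, rfl⟩
  obtain ⟨u, hu⟩ : ∃ u, u = cs.wordProd (fired P m) := ⟨_, rfl⟩
  obtain ⟨v, hv⟩ : ∃ v, v = cs.wordProd (fired D d) := ⟨_, rfl⟩
  obtain ⟨y, hy⟩ : ∃ y, y = w⁻¹ * x := ⟨_, rfl⟩
  -- products
  have hp' : w * (u * (cs.simple q' * v)) = ω := by
    rw [← hp, cs.wordProd_append, cs.wordProd_append, cs.wordProd_cons, hw, hu, hv]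
  have hJp' : w * (cs.simple q * (u * v)) = ω := by
    rw [← hJp, cs.wordProd_append, cs.wordProd_cons, cs.wordProd_append, hw, hu, hv]
  have huq : cs.simple q * u = u * cs.simple q' := by
    have h1 := mul_left_cancel (hJp'.trans hp'.symm)
    rw [← mul_assoc, ← mul_assoc] at h1
    exact mul_right_cancel h1
  -- reducedness
  have hr1 : cs.IsReduced (fired A a ++ [q]) := by
    have h1 := hJr.take ((fired A a).length + 1)
    have e : List.take ((fired A a).length + 1) (fired A a ++ q :: (fired P m ++ fired D d))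
        = fired A a ++ [q] := by
      rw [List.take_append]
      simp
    rwa [e] at h1
  have hr2 : cs.IsReduced (q :: fired P m) := by
    have h1 := (hJr.drop (fired A a).length).take ((fired P m).length + 1)
    rw [List.drop_left] at h1
    have e : List.take ((fired P m).length + 1) (q :: (fired P m ++ fired D d))
        = q :: fired P m := by simp
    rwa [e] at h1
  have hr3 : cs.IsReduced (q' :: fired D d) := by
    have h1 := (hr.drop (fired A a).length)
    rw [List.drop_left] at h1
    have h2 := h1.drop (fired P m).length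
    rwa [List.drop_left] at h2
  have hrA : cs.IsReduced (fired A a) := by
    have h1 := hr1.take (fired A a).length
    rwa [List.take_left] at h1
  have hrP : cs.IsReduced (fired P m) := by simpa using hr2.drop 1
  have hrD : cs.IsReduced (fired D d) := by simpa using hr3.drop 1
  have hwq : ¬ cs.IsRightDescent w q := by
    rw [cs.not_isRightDescent_iff, hw, ← cs.wordProd_concat, hrA.eq]
    rw [List.concat_eq_append, hr1.eq]
    simp
  have huq' : ¬ cs.IsRightDescent u q' := by
    rw [cs.not_isRightDescent_iff, ← huq, hu, ← cs.wordProd_cons, hr2.eq, hrP.eq]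
    simp
  have hvq' : ¬ cs.IsLeftDescent v q' := by
    rw [cs.not_isLeftDescent_iff, hv, ← cs.wordProd_cons, hr3.eq, hrD.eq]
    simp
  -- signs
  have hs : ¬ cs.IsRightDescent x s := by
    rw [not_descent_iff_nonneg, ← hβ, ← hw, ← not_descent_iff_nonneg]
    exact hwq
  rw [← hw] at hβ hS hJ
  have hyα : rho cs y (al ℝ s) = al ℝ q := by
    rw [hy, rho_mul_apply, ← hβ, rho_inv_apply]
  have hys : ¬ cs.IsRightDescent y s := by
    rw [not_descent_iff_nonneg, hyα]
    intro b
    unfold al
    by_cases hb : b = q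
    · subst hb; simp
    · simp [hb]
  have hyq : cs.simple q * y = y * cs.simple s := by
    have h1 : rho cs y (al ℝ s) = rho cs 1 (al ℝ q) := by rw [hyα, rho_one_apply]
    have h2 := rho_simple_of_root_eq cs (Or.inl h1)
    rw [one_mul, inv_one, mul_one] at h2
    rw [← h2, inv_mul_cancel_right]
  rw [← hy] at hS
  rw [← hu] at hS hJ
  have huα : rho cs u (al ℝ q') = al ℝ q := root_transport cs huq huq'
  obtain ⟨z, hz⟩ : ∃ z, z = u⁻¹ * y := ⟨_, rfl⟩
  have hzα : rho cs z (al ℝ s) = al ℝ q' := by
    rw [hz, rho_mul_apply, hyα, ← huα, rho_inv_apply]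
  have hzs : ¬ cs.IsRightDescent z s := by
    rw [not_descent_iff_nonneg, hzα]
    intro b
    unfold al
    by_cases hb : b = q'
    · subst hb; simp
    · simp [hb]
  have hzq : cs.simple q' * z = z * cs.simple s := by
    have h1 : rho cs z (al ℝ s) = rho cs 1 (al ℝ q') := by rw [hzα, rho_one_apply]
    have h2 := rho_simple_of_root_eq cs (Or.inl h1)
    rw [one_mul, inv_one, mul_one] at h2
    rw [← h2, inv_mul_cancel_right]
  rw [← hz] at hS
  obtain ⟨hSA, hSq, hSP, hSD⟩ := hS
  refine ⟨hs, ?_, ?_, ?_⟩
  · rw [Sk_append _ _ _ _ _ _ ha, Sk_true, Sk_append _ _ _ _ _ _ hm, Sk_false, ← hw, ← hu]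
    have e1 : cs.simple q * (w⁻¹ * (x * cs.simple s)) = y := by
      rw [← mul_assoc w⁻¹, ← hy, ← hyq, cs.simple_mul_simple_cancel_left]
    rw [e1, ← hz]
    refine ⟨?_, hSP, ?_, ?_⟩
    · -- no earlier node with the same root
      by_contra hn
      obtain ⟨A1, p, A2, a1, a2, f1, f2, f3, f4⟩ := violation cs hSA hrA (by rw [← hw, ← hy]; exact hys)
        hn hs
      have hJA := hJ.1
      rw [f1, f2, Sk_append _ _ _ _ _ _ f3, Sk_false] at hJA
      have g1 := hJA.2.1
      have g2 := hJ.2.2.1
      rw [← cs.isRightDescent_inv_iff, not_descent_iff_nonneg, mul_inv_rev, inv_inv,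
        rho_mul_apply] at g1 g2
      rw [f4, ← hβ] at g1
      have g3 : ∀ b, 0 ≤ -rho cs π'⁻¹ (rho cs w (al ℝ q)) b := by
        intro b
        have := g2 b
        rw [huα, mul_inv_rev, mul_inv_rev, inv_inv, cs.inv_simple, rho_mul_apply, rho_mul_apply,
          rho_simple, sig_al_self, map_neg, map_neg, Pi.neg_apply] at this
        exact this
      apply rho_al_ne_zero cs (π'⁻¹ * w) q
      funext b
      rw [rho_mul_apply]
      exact le_antisymm (neg_nonneg.mp (g3 b)) (g1 b)
    · exact not_ld_of_eq cs hzs hzq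
    · have h1 := after_toggle cs (z := z * cs.simple s) (t := s) (by rw [← hzq]; exact hSD) hrD
        (not_rd_mul cs hzs) (by
          rw [← hv, ← mul_assoc]
          apply not_rd_mul cs
          rw [not_descent_iff_nonneg, rho_mul_apply, hzα, ← not_descent_iff_nonneg,
            cs.isRightDescent_inv_iff]
          exact hvq')
      rwa [cs.simple_mul_simple_cancel_right] at h1
  · rw [fired_append _ _ _ _ ha, fired_true, fired_append _ _ _ _ hm, fired_false]
    exact hJr
  · rw [fired_append _ _ _ _ ha, fired_true, fired_append _ _ _ _ hm, fired_false]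
    exact hJp

end CxA
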