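import Mathlib
import Pool.Agent.helper52.Cox.Orient

/-!
Rays of root cones and chambers.
-/

namespace CxA

open CoxeterSystem

section Cone

variable {B : Type*}

theorem smul_mem_hull {S : Set (B → ℝ)} {v : B → ℝ} (hv : v ∈ PointedCone.hull ℝ S) {a : ℝ}
    (ha : 0 ≤ a) : a • v ∈ PointedCone.hull ℝ S :=
  (PointedCone.hull ℝ S).smul_mem ha hv

theorem mem_hull_singleton {β v : B → ℝ} :
    v ∈ PointedCone.hull ℝ {β} ↔ ∃ a : ℝ, 0 ≤ a ∧ v = a • β := by
  unfold PointedCone.hull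
  rw [Submodule.mem_span_singleton]
  constructor
  · rintro ⟨⟨a, ha⟩, h⟩
    exact ⟨a, ha, h.symm⟩
  · rintro ⟨a, ha, rfl⟩
    exact ⟨⟨a, ha⟩, rfl⟩

/-- a linear form nonnegative on the generators is nonnegative on the cone -/
theorem nonneg_on_hull {S : Set (B → ℝ)} (f : (B → ℝ) →ₗ[ℝ] ℝ) (h : ∀ r ∈ S, 0 ≤ f r)
    {v : B → ℝ} (hv : v ∈ PointedCone.hull ℝ S) : 0 ≤ f v := by
  induction hv using Submodule.span_induction with
  | mem x hx => exact h x hx
  | zero => simp
  | add x y _ _ hx hy => rw [map_add]; exact add_nonneg hx hy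
  | smul a x _ hx =>
    have : f (a • x) = (a : ℝ) * f x := by
      show f ((a : ℝ) • x) = _
      rw [map_smul]; rfl
    rw [this]
    exact mul_nonneg a.2 hx

end Cone

section

variable {B : Type*} [Fintype B] [DecidableEq B] {W : Type*} [Group W] {M : CoxeterMatrix B}
  (cs : CoxeterSystem M W)

/-- sum of coordinates after acting by `g` -/
noncomputable def hsum (g : W) : (B → ℝ) →ₗ[ℝ] ℝ :=
  (∑ b, LinearMap.proj b : (B → ℝ) →ₗ[ℝ] ℝ) ∘ₗ (rho cs g)

theorem hsum_apply (g : W) (v : B → ℝ) : hsum cs g v = ∑ b, rho cs g v b := by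
  unfold hsum
  simp

/-- coordinate after acting by `g` -/
noncomputable def hco (g : W) (b : B) : (B → ℝ) →ₗ[ℝ] ℝ :=
  (LinearMap.proj b : (B → ℝ) →ₗ[ℝ] ℝ) ∘ₗ (rho cs g)

theorem hco_apply (g : W) (b : B) (v : B → ℝ) : hco cs g b v = rho cs g v b := rfl

omit [Fintype B] in
theorem al_self (s : B) : (al ℝ s : B → ℝ) s = 1 := by simp [al]
omit [Fintype B] in
theorem al_ne {s b : B} (h : b ≠ s) : (al ℝ s : B → ℝ) b = 0 := by simp [al, h]
omit [Fintype B] in
theorem al_nonneg (s b : B) : 0 ≤ (al ℝ s : B → ℝ) b := by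
  by_cases h : b = s
  · subst h; rw [al_self]; norm_num
  · rw [al_ne h]

theorem expand (v : B → ℝ) : v = ∑ u, v u • al ℝ u := by
  funext b
  rw [Finset.sum_apply, Finset.sum_eq_single b]
  · rw [Pi.smul_apply, al_self]; simp
  · intro c _ hc
    rw [Pi.smul_apply, al_ne (Ne.symm hc)]; simp
  · simp

/-- simple roots of a chamber containing all roots span rays. -/
theorem face_of_simple {R : Set (B → ℝ)} {x : W} {s : B}
    (hR : ∀ r ∈ R, ∀ b, 0 ≤ rho cs x⁻¹ r b) (hβ : rho cs x (al ℝ s) ∈ R) :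
    (PointedCone.hull ℝ {rho cs x (al ℝ s)}).IsFaceOf (PointedCone.hull ℝ R) := by
  constructor
  · apply Submodule.span_mono
    simpa using hβ
  · intro u v a hu hv ha h
    rw [mem_hull_singleton] at h ⊢
    obtain ⟨c, hc, hcv⟩ := h
    have hu' : ∀ b, 0 ≤ rho cs x⁻¹ u b := fun b =>
      nonneg_on_hull (hco cs x⁻¹ b) (fun r hr => hR r hr b) hu
    have hv' : ∀ b, 0 ≤ rho cs x⁻¹ v b := fun b =>
      nonneg_on_hull (hco cs x⁻¹ b) (fun r hr => hR r hr b) hv
    have h0 : ∀ b, b ≠ s → rho cs x⁻¹ u b = 0 := by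
      intro b hb
      have h1 := congrArg (fun z => rho cs x⁻¹ z b) hcv
      simp only [map_add, map_smul, rho_inv_apply, Pi.add_apply, Pi.smul_apply, smul_eq_mul,
        al_ne hb, mul_zero] at h1
      have h2 := hu' b
      have h3 := hv' b
      have h4 : 0 ≤ a * rho cs x⁻¹ u b := mul_nonneg ha.le h2
      have h5 : a * rho cs x⁻¹ u b = 0 := by linarith
      rcases mul_eq_zero.mp h5 with h6 | h6
      · exact absurd h6 ha.ne'
      · exact h6
    refine ⟨rho cs x⁻¹ u s, hu' s, ?_⟩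
    have h1 : rho cs x⁻¹ u = rho cs x⁻¹ u s • al ℝ s := by
      funext b
      by_cases hb : b = s
      · subst hb; rw [Pi.smul_apply, al_self]; simp
      · rw [h0 b hb, Pi.smul_apply, al_ne hb]; simp
    calc u = rho cs x (rho cs x⁻¹ u) := (rho_apply_inv cs x u).symm
      _ = rho cs x⁻¹ u s • rho cs x (al ℝ s) := by
        conv_lhs => rw [h1]
        rw [map_smul]

theorem root_norm {r : B → ℝ} (hr : ∃ (w : W) (t : B), r = rho cs w (al ℝ t)) :
    bil M r r = 2 := by
  obtain ⟨w, t, rfl⟩ := hr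
  rw [bil_rho, bil_al_self]

theorem hsum_pos {π : W} {r : B → ℝ} (hr : ∃ (w : W) (t : B), r = rho cs w (al ℝ t))
    (h : ∀ b, 0 ≤ rho cs π⁻¹ r b) : 0 < hsum cs π⁻¹ r := by
  rw [hsum_apply]
  obtain ⟨w, t, rfl⟩ := hr
  have h1 : rho cs π⁻¹ (rho cs w (al ℝ t)) ≠ 0 := by
    rw [← rho_mul_apply]; exact rho_al_ne_zero cs _ _
  obtain ⟨b, hb⟩ : ∃ b, rho cs π⁻¹ (rho cs w (al ℝ t)) b ≠ 0 := by
    by_contra hcon
    push Not at hcon
    exact h1 (funext hcon)
  apply Finset.sum_pos' (fun b _ => h b)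
  exact ⟨b, Finset.mem_univ b, lt_of_le_of_ne (h b) (Ne.symm hb)⟩

/-- the supporting linear form of a ray -/
theorem exists_support {R : Set (B → ℝ)} (hfin : R.Finite)
    (hroot : ∀ r ∈ R, ∃ (w : W) (t : B), r = rho cs w (al ℝ t))
    {π : W} (hπ : ∀ r ∈ R, ∀ b, 0 ≤ rho cs π⁻¹ r b) {β : B → ℝ} (hβ : β ∈ R)
    (hface : (PointedCone.hull ℝ {β}).IsFaceOf (PointedCone.hull ℝ R)) :
    ∃ f : (B → ℝ) →ₗ[ℝ] ℝ, f β = 0 ∧ ∀ r ∈ R, r ≠ β → 0 < f r := by
  have hβpos := hsum_pos cs (hroot β hβ) (hπ β hβ)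
  -- the complement of the ray in the cone is convex
  obtain ⟨C, hC⟩ : ∃ C : Set (B → ℝ), C = {v | v ∈ PointedCone.hull ℝ R ∧
      v ∉ PointedCone.hull ℝ {β}} := ⟨_, rfl⟩
  have hCconv : Convex ℝ C := by
    intro u hu v hv a b ha hb hab
    rw [hC] at hu hv ⊢
    refine ⟨Submodule.add_mem _ (smul_mem_hull hu.1 ha) (smul_mem_hull hv.1 hb), ?_⟩
    intro hcon
    rcases ha.eq_or_lt with h0 | h0
    · rw [← h0, zero_smul, zero_add] at hcon
      rw [← h0, zero_add] at hab
      rw [hab, one_smul] at hcon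
      exact hv.2 hcon
    · exact hu.2 (hface.mem_of_smul_add_mem hu.1 (smul_mem_hull hv.1 hb) h0 hcon)
  have hsub : R \ {β} ⊆ C := by
    intro r hr
    rw [hC]
    refine ⟨PointedCone.subset_hull hr.1, ?_⟩
    rw [mem_hull_singleton]
    rintro ⟨a, ha, h⟩
    apply hr.2
    have h1 := root_norm cs (hroot r hr.1)
    have h2 := root_norm cs (hroot β hβ)
    rw [h, bil_smul_left, bil_smul_right, h2] at h1
    have h3 : (a - 1) * (a + 1) = 0 := by linarith
    have h4 : a = 1 := by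
      rcases mul_eq_zero.mp h3 with h5 | h5
      · linarith
      · linarith
    rw [h, h4, one_smul]
    rfl
  have hhull : convexHull ℝ (R \ {β}) ⊆ C := convexHull_min hsub hCconv
  have hdisj : Disjoint (convexHull ℝ (R \ {β})) (Submodule.span ℝ {β} : Set (B → ℝ)) := by
    rw [Set.disjoint_left]
    intro v hv hv2
    have h1 := hhull hv
    rw [hC] at h1
    rw [SetLike.mem_coe, Submodule.mem_span_singleton] at hv2
    obtain ⟨a, ha⟩ := hv2
    rcases le_or_gt 0 a with h2 | h2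
    · exact h1.2 (mem_hull_singleton.mpr ⟨a, h2, ha.symm⟩)
    · have h3 := nonneg_on_hull (hsum cs π⁻¹)
        (fun r hr => (hsum_pos cs (hroot r hr) (hπ r hr)).le) h1.1
      rw [← ha, map_smul, smul_eq_mul] at h3
      nlinarith
  obtain ⟨f, u, v, h1, h2, h3⟩ := geometric_hahn_banach_compact_closed
    (convex_convexHull ℝ (R \ {β}))
    ((hfin.subset Set.sdiff_subset).isCompact_convexHull ℝ)
    (Submodule.convex _)
    (Submodule.closed_of_finiteDimensional (Submodule.span ℝ {β})) hdisj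
  have hf0 : f β = 0 := by
    by_contra hne
    have h4 := h3 (((v - 1) / f β) • β)
      (Submodule.smul_mem _ _ (Submodule.mem_span_singleton_self β))
    rw [map_smul, smul_eq_mul, div_mul_cancel₀ _ hne] at h4
    linarith
  have hv0 : v < 0 := by
    have := h3 0 (Submodule.zero_mem _)
    simpa using this
  refine ⟨-(f : (B → ℝ) →ₗ[ℝ] ℝ), by simp [hf0], ?_⟩
  intro r hr hrβ
  have h4 := h1 r (subset_convexHull ℝ _ ⟨hr, hrβ⟩)
  have : (-(f : (B → ℝ) →ₗ[ℝ] ℝ)) r = -(f r) := rfl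
  rw [this]
  linarith

/-- evaluation of a linear form through a chamber -/
theorem form_expand (f : (B → ℝ) →ₗ[ℝ] ℝ) (x : W) (v : B → ℝ) :
    f v = ∑ u, rho cs x⁻¹ v u * f (rho cs x (al ℝ u)) := by
  conv_lhs => rw [← rho_apply_inv cs x v, expand (rho cs x⁻¹ v), map_sum, map_sum]
  apply Finset.sum_congr rfl
  intro u _
  rw [map_smul, map_smul, smul_eq_mul]

/-- number of positive roots (with multiplicity) of the chamber of `x` on which `f` is
negative -/
noncomputable def pot [Fintype W] (f : (B → ℝ) →ₗ[ℝ] ℝ) (x : W) : ℕ :=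
  open Classical in
  (Finset.univ.filter fun p : W × B =>
    ¬ cs.IsRightDescent p.1 p.2 ∧ f (rho cs (x * p.1) (al ℝ p.2)) < 0).card

theorem pot_lt [Fintype W] (f : (B → ℝ) →ₗ[ℝ] ℝ) {x : W} {u : B}
    (h : f (rho cs x (al ℝ u)) < 0) : pot cs f (x * cs.simple u) < pot cs f x := by
  classical
  unfold pot
  rw [← Finset.card_image_of_injective _ (f := fun p : W × B => (cs.simple u * p.1, p.2)) (by
    rintro ⟨a, b⟩ ⟨a', b'⟩ hab
    simp only [Prod.mk.injEq, mul_right_inj] at hab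
    exact Prod.ext hab.1 hab.2)]
  apply Finset.card_lt_card
  rw [Finset.ssubset_iff_of_subset]
  · refine ⟨(1, u), ?_, ?_⟩
    · simp only [Finset.mem_filter, Finset.mem_univ, true_and, mul_one]
      exact ⟨cs.not_isRightDescent_one u, h⟩
    · intro hmem
      simp only [Finset.mem_image, Finset.mem_filter, Finset.mem_univ, true_and, Prod.mk.injEq]
        at hmem
      obtain ⟨⟨g, t⟩, ⟨h1, _⟩, h3, h4⟩ := hmem
      simp only at h1 h3 h4
      subst h4
      apply h1
      have : g = cs.simple t := by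
        have := congrArg (fun z => cs.simple t * z) h3
        simpa using this
      rw [this, cs.isRightDescent_iff]
      simp
  · intro p hp
    simp only [Finset.mem_image, Finset.mem_filter, Finset.mem_univ, true_and] at hp ⊢
    obtain ⟨⟨g, t⟩, ⟨h1, h2⟩, rfl⟩ := hp
    simp only at h1 h2 ⊢
    refine ⟨?_, by rwa [← mul_assoc]⟩
    intro h3
    have h4 := root_eq_of_cross cs h1 h3
    rw [rho_mul_apply, h4, rho_mul_apply, rho_simple, sig_al_self, map_neg, map_neg] at h2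
    linarith

/-- a chamber having the ray as a wall -/
theorem exists_wall [Finite W] {R : Set (B → ℝ)} (hfin : R.Finite)
    (hroot : ∀ r ∈ R, ∃ (w : W) (t : B), r = rho cs w (al ℝ t))
    {π : W} (hπ : ∀ r ∈ R, ∀ b, 0 ≤ rho cs π⁻¹ r b) {β : B → ℝ} (hβ : β ∈ R)
    (hface : (PointedCone.hull ℝ {β}).IsFaceOf (PointedCone.hull ℝ R)) :
    ∃ (x : W) (s : B), rho cs x (al ℝ s) = β ∧ ∀ r ∈ R, ∀ b, 0 ≤ rho cs x⁻¹ r b := by
  have := Fintype.ofFinite W
  obtain ⟨f, hfβ, hf⟩ := exists_support cs hfin hroot hπ hβ hface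
  -- first minimisation
  obtain ⟨x1, hx1, hx1min⟩ := Set.exists_min_image {x : W | ∀ b, 0 ≤ rho cs x⁻¹ β b}
    (pot cs f) (Set.toFinite _) ⟨π, hπ β hβ⟩
  obtain ⟨g, t, hgt⟩ := hroot β hβ
  -- moving across a wall which is not `β`
  have hmove : ∀ (x : W) (u : B), (∀ b, 0 ≤ rho cs x⁻¹ β b) → rho cs x⁻¹ β ≠ al ℝ u →
      ∀ b, 0 ≤ rho cs (x * cs.simple u)⁻¹ β b := by
    intro x u hx hne
    have e : rho cs x⁻¹ β = rho cs (x⁻¹ * g) (al ℝ t) := by rw [hgt, rho_mul_apply]
    have e2 : rho cs (x * cs.simple u)⁻¹ β = rho cs (cs.simple u * (x⁻¹ * g)) (al ℝ t) := by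
      rw [mul_inv_rev, cs.inv_simple, hgt, ← rho_mul_apply, mul_assoc]
    rw [e] at hx hne
    rw [e2, ← not_descent_iff_nonneg]
    intro h
    exact hne (root_eq_of_cross cs ((not_descent_iff_nonneg cs).mpr hx) h)
  have hdom : ∀ u, 0 ≤ f (rho cs x1 (al ℝ u)) := by
    intro u
    by_contra hneg
    push Not at hneg
    have h1 : rho cs x1⁻¹ β ≠ al ℝ u := by
      intro h
      rw [← h, rho_apply_inv, hfβ] at hneg
      exact lt_irrefl _ hneg
    have h2 := hx1min (x1 * cs.simple u) (hmove x1 u hx1 h1)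
    have h3 := pot_lt cs f hneg
    omega
  -- second minimisation
  obtain ⟨x, hx, hxmin⟩ := Set.exists_min_image
    {x : W | (∀ b, 0 ≤ rho cs x⁻¹ β b) ∧ ∀ u, 0 ≤ f (rho cs x (al ℝ u))}
    (fun x => hsum cs x⁻¹ β) (Set.toFinite _) ⟨x1, hx1, hdom⟩
  obtain ⟨hx0, hxd⟩ := hx
  have hsimple : ∃ s, rho cs x⁻¹ β = al ℝ s := by
    by_contra hcon
    push Not at hcon
    obtain ⟨γ, hγ⟩ : ∃ γ, γ = rho cs x⁻¹ β := ⟨_, rfl⟩
    rw [← hγ] at hcon hx0
    have hnorm : bil M γ γ = 2 := by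
      rw [hγ, bil_rho, root_norm cs ⟨g, t, hgt⟩]
    have h1 : bil M γ γ = ∑ u, γ u * bil M (al ℝ u) γ := by
      unfold bil
      rw [← Finset.sum_neg_distrib]
      apply Finset.sum_congr rfl
      intro u _
      have := bil_al_left (M := M) u γ
      unfold bil at this
      rw [this]
      ring
    obtain ⟨u, hu⟩ : ∃ u, 0 < γ u * bil M (al ℝ u) γ := by
      by_contra hcon2
      push Not at hcon2
      have : ∑ u, γ u * bil M (al ℝ u) γ ≤ 0 := Finset.sum_nonpos fun u _ => hcon2 u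
      linarith
    have hγu : 0 < γ u := by
      rcases (hx0 u).eq_or_lt with h2 | h2
      · rw [← h2, zero_mul] at hu; exact absurd hu (lt_irrefl _)
      · exact h2
    have hbu : 0 < bil M (al ℝ u) γ := (pos_iff_pos_of_mul_pos hu).mp hγu
    have hfu : f (rho cs x (al ℝ u)) = 0 := by
      have h2 := form_expand cs f x β
      rw [hfβ, ← hγ] at h2
      have h3 := (Finset.sum_eq_zero_iff_of_nonneg (fun u _ => mul_nonneg (hx0 u) (hxd u))).mp
        h2.symm u (Finset.mem_univ u)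
      rcases mul_eq_zero.mp h3 with h4 | h4
      · exact absurd h4 hγu.ne'
      · exact h4
    have hne : rho cs x⁻¹ β ≠ al ℝ u := by rw [← hγ]; exact hcon u
    have h4 := hxmin (x * cs.simple u) ⟨hmove x u (by rw [← hγ]; exact hx0) hne, by
      intro v
      rw [rho_mul_apply, rho_simple, sig_al, map_add, map_smul, map_add, map_smul, hfu,
        smul_zero, add_zero]
      exact hxd v⟩
    have h5 : hsum cs (x * cs.simple u)⁻¹ β = hsum cs x⁻¹ β - bil M (al ℝ u) γ := by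
      rw [hsum_apply, hsum_apply, mul_inv_rev, cs.inv_simple, rho_mul_apply, rho_simple, ← hγ,
        sig_eq]
      simp only [Pi.add_apply, Pi.smul_apply, smul_eq_mul, Finset.sum_add_distrib]
      rw [Finset.sum_eq_single u (f := fun b => -bil M (al ℝ u) γ * (al ℝ u : B → ℝ) b)]
      · rw [al_self]; ring
      · intro b _ hb; rw [al_ne hb, mul_zero]
      · simp
    rw [h5] at h4
    linarith
  obtain ⟨s, hs⟩ := hsimple
  refine ⟨x, s, by rw [← hs, rho_apply_inv], ?_⟩
  intro r hr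
  by_cases hrβ : r = β
  · rw [hrβ]; exact hx0
  · obtain ⟨w, t', rfl⟩ := hroot r hr
    rw [← rho_mul_apply]
    by_contra hcon
    have h1 : cs.IsRightDescent (x⁻¹ * w) t' := by
      by_contra h2
      exact hcon ((not_descent_iff_nonneg cs).mp h2)
    have h2 := rho_nonpos cs h1
    have h3 := hf _ hr hrβ
    rw [form_expand cs f x] at h3
    have h4 : ∑ u, rho cs x⁻¹ (rho cs w (al ℝ t')) u * f (rho cs x (al ℝ u)) ≤ 0 := by
      apply Finset.sum_nonpos
      intro u _
      rw [← rho_mul_apply]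
      exact mul_nonpos_of_nonpos_of_nonneg (h2 u) (hxd u)
    linarith

end

end CxA
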