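import Mathlib
import Pool.Agent.helper52.Cox.Bridge
import Pool.Agent.helper52.Cox.FlipComb
import Pool.Agent.helper52.Cox.RayGeom

/-!
The lattice congruence.
-/

namespace CxA

open CoxeterSystem SubwordLattice

section

variable {B : Type*} [Fintype B] [DecidableEq B] {W : Type*} [Group W] {M : CoxeterMatrix B}
  (cs : CoxeterSystem M W)

omit [Fintype B] [DecidableEq B] in
theorem weakLE_iff {u v : W} : WeakLE cs u v ↔ wle cs u v := by
  unfold WeakLE wle
  exact eq_comm

/-- every element is below the longest one -/
theorem wle_longest {z : W} (hz : ∀ w, cs.length w ≤ cs.length z) : ∀ u, wle cs u z := by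
  have hdesc : ∀ t, cs.IsLeftDescent z t := by
    intro t
    by_contra h
    have h1 := cs.not_isLeftDescent_iff.mp h
    have h2 := hz (cs.simple t * z)
    omega
  have key : ∀ n (u : W), cs.length u = n → wle cs u z := by
    intro n
    induction n with
    | zero =>
      intro u hu
      rw [cs.length_eq_zero_iff] at hu
      subst hu
      exact one_wle cs z
    | succ n ih =>
      intro u hu
      have hu1 : 1 ≠ u := by
        rintro rfl
        simp at hu
      obtain ⟨s, y, rfl, hys, -⟩ := exists_step_down cs (one_wle cs u) hu1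
      have hyn : cs.length y = n := by
        have := cs.not_isRightDescent_iff.mp hys
        omega
      have hyz := ih y hyn
      rw [wle_simple_iff cs hyz hys, ← cs.isRightDescent_inv_iff, mul_inv_rev, inv_inv,
        descent_iff_nonpos]
      intro b
      rw [rho_mul_apply, expand (rho cs y (al ℝ s)), map_sum, Finset.sum_apply]
      apply Finset.sum_nonpos
      intro t _
      rw [map_smul, Pi.smul_apply, smul_eq_mul]
      apply mul_nonpos_of_nonneg_of_nonpos (rho_nonneg cs hys t)
      exact rho_nonpos cs (by rw [cs.isRightDescent_inv_iff]; exact hdesc t) b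
  exact fun u => key _ u rfl

/-- a sorting word contains every element -/
theorem contains_of_sorting {Q : List B} (h : IsSorting cs Q) : ∀ v, Contains cs Q v := by
  obtain ⟨w0, h0, hc⟩ := h
  have hz : ∀ w, cs.length w ≤ cs.length w0⁻¹ := by
    intro w; rw [cs.length_inv]; exact h0 w
  have key : ∀ n (v : W), cs.length w0 - cs.length v = n → Contains cs Q v := by
    intro n
    induction n with
    | zero =>
      intro v hv
      have h1 := wle_longest cs hz v⁻¹
      have h2 := h0 v
      unfold wle at h1
      rw [cs.length_inv, cs.length_inv, inv_inv] at h1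
      have h3 : cs.length (v * w0⁻¹) = 0 := by omega
      rw [cs.length_eq_zero_iff] at h3
      have h4 : v = w0 := by
        have := congrArg (fun z => z * w0) h3
        simpa using this
      rw [h4]
      exact hc
    | succ n ih =>
      intro v hv
      have h1 := wle_longest cs hz v⁻¹
      have hne : v⁻¹ ≠ w0⁻¹ := by
        intro h2
        rw [inv_inj] at h2
        rw [h2] at hv
        omega
      obtain ⟨s, hs, _⟩ := exists_step cs h1 hne
      have h2 := cs.not_isRightDescent_iff.mp hs
      have h3 : cs.length (cs.simple s * v) = cs.length v + 1 := by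
        rw [← cs.length_inv (cs.simple s * v), mul_inv_rev, cs.inv_simple, h2, cs.length_inv]
      have h4 := ih (cs.simple s * v) (by omega)
      have h5 : cs.IsLeftDescent (cs.simple s * v) s := by
        rw [cs.isLeftDescent_iff, cs.simple_mul_simple_cancel_left, h3]
      have h6 := Contains.down cs h4 h5
      rwa [cs.simple_mul_simple_cancel_left] at h6
  exact fun v => key _ v rfl

/-- skip conditions propagate towards another element. -/
theorem Sk_between {Q : List B} {c : List Bool} {x y : W} {s : B}
    (hs : cs.IsLeftDescent (x⁻¹ * y) s) (g : W) (hx : Sk cs Q c (g * x))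
    (hy : Sk cs Q c (g * y)) : Sk cs Q c (g * (x * cs.simple s)) := by
  induction Q generalizing c g with
  | nil => cases c with
    | nil => trivial
    | cons b c => exact absurd hx (by simp)
  | cons q Q ih => cases c with
    | nil => exact absurd hx (by simp)
    | cons b c =>
      cases b with
      | false =>
        rw [Sk_false] at *
        refine ⟨?_, ih g hx.2 hy.2⟩
        intro h
        rw [← mul_assoc] at h
        have hex := exch_left cs hx.1 h
        have h1 := (transport_left cs hex hx.1 (x⁻¹ * y)).mpr hs
        apply hy.1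
        have e : g * x * (x⁻¹ * y) = g * y := by group
        rwa [e] at h1
      | true =>
        rw [Sk_true, ← mul_assoc] at *
        exact ih _ hx hy

/-- staying below `ω` while moving towards another element of the interval. -/
theorem wle_between {ω x y : W} {s : B} (hx : wle cs x ω) (hy : wle cs y ω)
    (hs : cs.IsLeftDescent (x⁻¹ * y) s) (hxs : ¬ cs.IsRightDescent x s) :
    wle cs (x * cs.simple s) ω := by
  rw [wle_simple_iff cs hx hxs]
  by_contra hn
  obtain ⟨u, s', h1, h2, h3, h4, h5⟩ := exists_cross' cs hy hs hn
  have e : x⁻¹ * (u * cs.simple s') * cs.simple s' = x⁻¹ * u := by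
    rw [← mul_assoc, cs.simple_mul_simple_cancel_right]
  have hex := exch_left cs h5 (t := s') (by rw [e]; exact h4)
  have h6 : ¬ cs.IsRightDescent (x⁻¹ * (u * cs.simple s')) s' := by
    rw [cs.not_isRightDescent_iff, ← hex, cs.not_isLeftDescent_iff.mp h5]
  have h7 := (transport cs hex h6 x).mp (by
    rw [mul_inv_cancel_left]
    exact not_rd_mul cs h2)
  exact hxs h7

/-- invariance principle along galleries of the same facet -/
theorem gallery_induction {Q : List B} {ω : W} {α : Sort*} (p : W → α)
    (hp : ∀ (u : W) (s : B) (f : List Bool), ¬ cs.IsRightDescent u s →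
      wle cs (u * cs.simple s) ω → Fac cs Q ω u f → Fac cs Q ω (u * cs.simple s) f →
      p u = p (u * cs.simple s))
    {f : List Bool} (n : ℕ) : ∀ (x y : W), cs.length (x⁻¹ * y) = n → wle cs x ω → wle cs y ω →
      Fac cs Q ω x f → Fac cs Q ω y f → p x = p y := by
  induction n with
  | zero =>
    intro x y hn _ _ _ _
    rw [cs.length_eq_zero_iff] at hn
    rw [inv_mul_eq_one.mp hn]
  | succ n ih =>
    intro x y hn hx hy hfx hfy
    have hne : x⁻¹ * y ≠ 1 := by
      intro h
      rw [h] at hn
      simp at hn
    obtain ⟨s, hs⟩ := cs.exists_leftDescent_of_ne_one hne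
    have hS : Fac cs Q ω (x * cs.simple s) f := by
      refine ⟨?_, hfx.2⟩
      have := Sk_between cs hs 1 (by simpa using hfx.1) (by simpa using hfy.1)
      simpa using this
    have hl : cs.length ((x * cs.simple s)⁻¹ * y) = n := by
      have h1 := cs.isLeftDescent_iff.mp hs
      rw [mul_inv_rev, cs.inv_simple, mul_assoc]
      omega
    by_cases hxs : cs.IsRightDescent x s
    · have h1 := cs.isRightDescent_iff_not_isRightDescent_mul.mp hxs
      have hle : wle cs (x * cs.simple s) x := by
        have := wle_simple cs h1
        rwa [cs.simple_mul_simple_cancel_right] at this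
      have h2 := wle_trans cs hle hx
      have h3 := hp (x * cs.simple s) s f h1 (by
        rw [cs.simple_mul_simple_cancel_right]; exact hx) hS (by
        rw [cs.simple_mul_simple_cancel_right]; exact hfx)
      rw [cs.simple_mul_simple_cancel_right] at h3
      rw [← h3]
      exact ih _ _ hl h2 hy hS hfy
    · have h2 := wle_between cs hx hy hs hxs
      rw [hp x s f hxs h2 hfx hS]
      exact ih _ _ hl h2 hy hS hfy

/-- facets of joins with the two ends of a same-facet edge. -/
theorem join_same {Q : List B} {o ob : B → B → Bool} {ω : W} (ho : Anti o) (hob : Anti ob)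
    (hC : Comp M o Q ob) (hc : Contains cs Q ω) {u z j j' : W} {s : B} {f : List Bool}
    (hs : ¬ cs.IsRightDescent u s) (hus : wle cs (u * cs.simple s) ω) (hz : wle cs z ω)
    (hf : Fac cs Q ω u f) (hf' : Fac cs Q ω (u * cs.simple s) f)
    (hj : IsJ cs u z j) (hj' : IsJ cs (u * cs.simple s) z j') {g : List Bool}
    (hg : Fac cs Q ω j g) : Fac cs Q ω j' g := by
  have hcl := (main_thm cs Q o ob ω ho hob hC hc u s hs hus).mpr ⟨f, hf, hf'⟩
  have huω := wle_trans cs (wle_simple cs hs) hus
  have hjω : wle cs j ω := hj.2.2 ω huω hz
  have hj'ω : wle cs j' ω := hj'.2.2 ω hus hz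
  have hJ : IsJ cs j (u * cs.simple s) j' := by
    refine ⟨?_, hj'.1, ?_⟩
    · exact hj.2.2 _ (wle_trans cs (wle_simple cs hs) hj'.1) hj'.2.1
    · intro h h1 h2
      exact hj'.2.2 h h2 (wle_trans cs hj.2.1 h1)
  have ch := join_chain cs (polyP_EE cs ho hob hC) hs hus hcl hj.1 hjω hJ
  apply chain_same cs ch _ hg
  intro v t h1 h2 h3 h4
  exact (main_thm cs Q o ob ω ho hob hC hc v t h3 (wle_trans cs h2 hj'ω)).mp h4

/-- facets of meets with the two ends of a same-facet edge. -/
theorem meet_same {Q : List B} {o ob : B → B → Bool} {ω : W} (ho : Anti o) (hob : Anti ob)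
    (hC : Comp M o Q ob) (hc : Contains cs Q ω) {u z j j' : W} {s : B} {f : List Bool}
    (hs : ¬ cs.IsRightDescent u s) (hus : wle cs (u * cs.simple s) ω)
    (hf : Fac cs Q ω u f) (hf' : Fac cs Q ω (u * cs.simple s) f)
    (hj : IsM cs u z j) (hj' : IsM cs (u * cs.simple s) z j') {g : List Bool}
    (hg : Fac cs Q ω j g) : Fac cs Q ω j' g := by
  have hcl := (main_thm cs Q o ob ω ho hob hC hc u s hs hus).mpr ⟨f, hf, hf'⟩
  have hM : IsM cs j' u j := by
    refine ⟨?_, hj.1, ?_⟩
    · exact hj'.2.2 _ (wle_trans cs hj.1 (wle_simple cs hs)) hj.2.1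
    · intro h h1 h2
      exact hj.2.2 h h2 (wle_trans cs h1 hj'.2.1)
  have ch := meet_chain cs (polyP_rev cs ho hob hC) hs hus hcl hj'.1 hM
  apply chain_same cs ch _ hg
  intro v t h1 h2 h3 h4
  exact (main_thm cs Q o ob ω ho hob hC hc v t h3
    (wle_trans cs (wle_trans cs h2 hj'.1) hus)).mp h4

end

end CxA
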