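import Mathlib
import Pool.Agent.helper52.Cox.Cong

/-!
Assembly: the lattice, the congruence, the quotient and its cover relations.
-/

namespace CxA

open CoxeterSystem SubwordLattice

section Lat

variable {B : Type*} [Fintype B] [DecidableEq B] {W : Type*} [Group W] {M : CoxeterMatrix B}
  (cs : CoxeterSystem M W)

/-- the weak order lattice structure on `[e, ω]` -/
@[reducible] noncomputable def weakLattice (ω : W) : Lattice (WeakInterval cs ω) :=
  have hx : ∀ x : WeakInterval cs ω, wle cs x.1 ω := fun x => (weakLE_iff cs).mp x.2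
  { le := fun x y => WeakLE cs x.1 y.1
    lt := fun x y => WeakLE cs x.1 y.1 ∧ ¬ WeakLE cs y.1 x.1
    lt_iff_le_not_ge := fun _ _ => Iff.rfl
    le_refl := fun x => (weakLE_iff cs).mpr (wle_refl cs x.1)
    le_trans := fun _ _ _ h1 h2 => (weakLE_iff cs).mpr
      (wle_trans cs ((weakLE_iff cs).mp h1) ((weakLE_iff cs).mp h2))
    le_antisymm := fun _ _ h1 h2 => Subtype.ext
      (wle_antisymm cs ((weakLE_iff cs).mp h1) ((weakLE_iff cs).mp h2))
    sup := fun x y => ⟨(exists_join cs (hx x) (hx y)).choose,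
      (weakLE_iff cs).mpr ((exists_join cs (hx x) (hx y)).choose_spec.2.2 ω (hx x) (hx y))⟩
    le_sup_left := fun x y =>
      (weakLE_iff cs).mpr (exists_join cs (hx x) (hx y)).choose_spec.1
    le_sup_right := fun x y =>
      (weakLE_iff cs).mpr (exists_join cs (hx x) (hx y)).choose_spec.2.1
    sup_le := fun x y z h1 h2 => (weakLE_iff cs).mpr
      ((exists_join cs (hx x) (hx y)).choose_spec.2.2 z.1 ((weakLE_iff cs).mp h1)
        ((weakLE_iff cs).mp h2))
    inf := fun x y => ⟨(exists_meet cs (hx x) (hx y)).choose,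
      (weakLE_iff cs).mpr (wle_trans cs (exists_meet cs (hx x) (hx y)).choose_spec.1 (hx x))⟩
    inf_le_left := fun x y =>
      (weakLE_iff cs).mpr (exists_meet cs (hx x) (hx y)).choose_spec.1
    inf_le_right := fun x y =>
      (weakLE_iff cs).mpr (exists_meet cs (hx x) (hx y)).choose_spec.2.1
    le_inf := fun x y z h1 h2 => (weakLE_iff cs).mpr
      ((exists_meet cs (hx y) (hx z)).choose_spec.2.2 x.1 ((weakLE_iff cs).mp h1)
        ((weakLE_iff cs).mp h2)) }

theorem weakLattice_le (ω : W) (x y : WeakInterval cs ω) :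
    (weakLattice cs ω).le x y ↔ WeakLE cs x.1 y.1 := Iff.rfl

theorem isJ_sup (ω : W) (x y : WeakInterval cs ω) :
    IsJ cs x.1 y.1 ((weakLattice cs ω).sup x y).1 :=
  (exists_join cs ((weakLE_iff cs).mp x.2) ((weakLE_iff cs).mp y.2)).choose_spec

theorem isM_inf (ω : W) (x y : WeakInterval cs ω) :
    IsM cs x.1 y.1 ((weakLattice cs ω).inf x y).1 :=
  (exists_meet cs ((weakLE_iff cs).mp x.2) ((weakLE_iff cs).mp y.2)).choose_spec

end Lat

section Quot

variable {α : Type*} [Lattice α] (c : LatticeCon α)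

theorem classOf_eq_iff {x y : α} : classOf c x = classOf c y ↔ c.r x y := Quotient.eq

theorem quot_le_iff (x y : α) : classOf c x ≤ classOf c y ↔ c.r (x ⊔ y) y :=
  classOf_eq_iff c

theorem quot_le_of_le {x y : α} (h : x ≤ y) : classOf c x ≤ classOf c y := by
  rw [quot_le_iff, sup_eq_right.mpr h]

/-- covers descend to the quotient -/
theorem quot_covBy_of_covBy {x y : α} (h : x ⋖ y) (hne : ¬ c.r x y) :
    classOf c x ⋖ classOf c y := by
  have hle : classOf c x ≤ classOf c y := quot_le_of_le c h.le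
  refine ⟨lt_of_le_of_ne hle (fun he => hne ((classOf_eq_iff c).mp he)), ?_⟩
  rintro ⟨z⟩ h1 h2
  have h1' : c.r (x ⊔ z) z := (quot_le_iff c x z).mp h1.le
  have h2' : c.r (z ⊔ y) y := (quot_le_iff c z y).mp h2.le
  -- `(z ⊔ x) ⊓ y` is equivalent to `z`
  have e1 : c.r ((x ⊔ z) ⊓ y) (z ⊓ y) := c.inf h1' (c.refl y)
  have e2 : c.r (z ⊓ (z ⊔ y)) (z ⊓ y) := c.inf (c.refl z) h2'
  rw [inf_sup_self] at e2
  have e3 : c.r ((x ⊔ z) ⊓ y) z := c.trans e1 (c.symm e2)
  have h3 : x ≤ (x ⊔ z) ⊓ y := le_inf le_sup_left h.le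
  have h4 : (x ⊔ z) ⊓ y ≤ y := inf_le_right
  rcases h3.eq_or_lt with h5 | h5
  · apply h1.ne
    apply (classOf_eq_iff c).mpr
    rw [← h5] at e3
    exact e3
  · rcases h4.eq_or_lt with h6 | h6
    · apply h2.ne
      apply (classOf_eq_iff c).mpr
      rw [h6] at e3
      exact c.symm e3
    · exact h.2 h5 h6

end Quot

section Cov

variable {B : Type*} [Fintype B] [DecidableEq B] {W : Type*} [Group W] {M : CoxeterMatrix B}
  (cs : CoxeterSystem M W)

theorem covBy_step {ω u : W} {s : B} (hs : ¬ cs.IsRightDescent u s)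
    (hu : WeakLE cs u ω) (hus : WeakLE cs (u * cs.simple s) ω) :
    @CovBy _ (weakLattice cs ω).toLT (⟨u, hu⟩ : WeakInterval cs ω)
      (⟨u * cs.simple s, hus⟩ : WeakInterval cs ω) := by
  let _ := weakLattice cs ω
  have hl := cs.not_isRightDescent_iff.mp hs
  constructor
  · apply lt_of_le_of_ne
    · exact (weakLE_iff cs).mpr (wle_simple cs hs)
    · intro h
      have h1 := congrArg (fun z : WeakInterval cs ω => cs.length z.1) h
      simp only at h1
      omega
  · intro z h1 h2
    have a1 : wle cs u z.1 := (weakLE_iff cs).mp h1.le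
    have a2 : wle cs z.1 (u * cs.simple s) := (weakLE_iff cs).mp h2.le
    have b1 : cs.length u ≠ cs.length z.1 := by
      intro h3
      unfold wle at a1
      have h4 : cs.length (u⁻¹ * z.1) = 0 := by omega
      rw [cs.length_eq_zero_iff] at h4
      exact h1.ne (Subtype.ext (inv_mul_eq_one.mp h4))
    have b2 : cs.length z.1 ≠ cs.length (u * cs.simple s) := by
      intro h3
      unfold wle at a2
      have h4 : cs.length (z.1⁻¹ * (u * cs.simple s)) = 0 := by omega
      rw [cs.length_eq_zero_iff] at h4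
      exact h2.ne (Subtype.ext (inv_mul_eq_one.mp h4))
    have c1 := wle_length cs a1
    have c2 := wle_length cs a2
    omega

/-- covers of the quotient come from edges -/
theorem edge_of_quot_covBy {ω : W} (c : @LatticeCon (WeakInterval cs ω) (weakLattice cs ω))
    {X Y : @CongruenceClasses _ (weakLattice cs ω) c}
    (h : @CovBy _ (@quotientLattice _ (weakLattice cs ω) c).toLT X Y) :
    ∃ (u : W) (s : B) (_ : ¬ cs.IsRightDescent u s) (hu : WeakLE cs u ω)
      (hus : WeakLE cs (u * cs.simple s) ω),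
      @classOf _ (weakLattice cs ω) c (⟨u, hu⟩ : WeakInterval cs ω) = X ∧
      @classOf _ (weakLattice cs ω) c (⟨u * cs.simple s, hus⟩ : WeakInterval cs ω) = Y := by
  let _ := weakLattice cs ω
  have key : ∀ n (x y : WeakInterval cs ω), cs.length y.1 - cs.length x.1 = n → x ≤ y →
      classOf c x = X → classOf c y = Y →
      ∃ (u : W) (s : B) (_ : ¬ cs.IsRightDescent u s) (hu : WeakLE cs u ω)
      (hus : WeakLE cs (u * cs.simple s) ω),
      classOf c (⟨u, hu⟩ : WeakInterval cs ω) = X ∧
      classOf c (⟨u * cs.simple s, hus⟩ : WeakInterval cs ω) = Y := by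
    intro n
    induction n with
    | zero =>
      intro x y hn hxy hX hY
      exfalso
      have h1 : wle cs x.1 y.1 := (weakLE_iff cs).mp hxy
      have h2 := wle_length cs h1
      unfold wle at h1
      have h4 : cs.length (x.1⁻¹ * y.1) = 0 := by omega
      rw [cs.length_eq_zero_iff] at h4
      have h5 : x = y := Subtype.ext (inv_mul_eq_one.mp h4)
      rw [h5, hY] at hX
      exact h.ne hX.symm
    | succ n ih =>
      intro x y hn hxy hX hY
      have h1 : wle cs x.1 y.1 := (weakLE_iff cs).mp hxy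
      have hne : x.1 ≠ y.1 := by
        intro h2
        rw [h2] at hn
        omega
      obtain ⟨s, hs, hsy⟩ := exists_step cs h1 hne
      have hl := cs.not_isRightDescent_iff.mp hs
      have hsω : WeakLE cs (x.1 * cs.simple s) ω :=
        (weakLE_iff cs).mpr (wle_trans cs hsy ((weakLE_iff cs).mp y.2))
      obtain ⟨v, hv⟩ : ∃ v : WeakInterval cs ω, v = ⟨x.1 * cs.simple s, hsω⟩ := ⟨_, rfl⟩
      have hxv : x ≤ v := by
        rw [hv]
        exact (weakLE_iff cs).mpr (wle_simple cs hs)
      have hvy : v ≤ y := by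
        rw [hv]
        exact (weakLE_iff cs).mpr hsy
      have h2 : X ≤ classOf c v := by
        rw [← hX]
        exact quot_le_of_le c hxv
      have h3 : classOf c v ≤ Y := by
        rw [← hY]
        exact quot_le_of_le c hvy
      by_cases h4 : classOf c v = Y
      · exact ⟨x.1, s, hs, x.2, hsω, hX, by rw [← hv]; exact h4⟩
      · have h5 : classOf c v = X := by
          by_contra h6
          exact h.2 (lt_of_le_of_ne h2 (Ne.symm h6)) (lt_of_le_of_ne h3 h4)
        refine ih v y ?_ hvy h5 hY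
        rw [hv]
        simp only
        omega
  obtain ⟨x, rfl⟩ : ∃ x, classOf c x = X := Quotient.exists_rep X
  obtain ⟨y, rfl⟩ : ∃ y, classOf c y = Y := Quotient.exists_rep Y
  have h1 : c.r (x ⊔ y) y := (quot_le_iff c x y).mp h.le
  exact key _ x (x ⊔ y) rfl le_sup_left rfl ((classOf_eq_iff c).mpr h1)

end Cov

end CxA
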