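import Mathlib
import Pool.Agent.helper52.Cox.Bridge

/-!
Positions of flips.
-/

namespace CxA

open CoxeterSystem SubwordLattice

section

variable {B : Type*}

theorem fired_replicate_false (Q : List B) (n : ℕ) : fired Q (List.replicate n false) = [] := by
  induction Q generalizing n with
  | nil => simp
  | cons q Q ih =>
    cases n with
    | zero => simp
    | succ n => rw [List.replicate_succ, fired_false, ih]

/-- the word before a position -/
theorem beforeWord_split [DecidableEq B] {Q : List B} {I : Finset (Fin Q.length)}
    {A : List B} {q : B} {R : List B} (hQ : Q = A ++ q :: R) {a r : List Bool}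
    (hc : toC Q I = a ++ r) (ha : a.length = A.length) (k : Fin Q.length)
    (hk : k.val = A.length) : beforeWord Q I k = fired A a := by
  rw [beforeWord_eq]
  have h1 : cl Q.length (fun x => decide (x < k.val) && pI Q I x)
      = a ++ List.replicate (R.length + 1) false := by
    apply List.ext_getElem
    · rw [cl_length, List.length_append, List.length_replicate, ha]
      conv_lhs => rw [hQ]
      simp
    · intro i h1 h2
      have h3 : (cl Q.length (fun x => decide (x < k.val) && pI Q I x))[i]
          = (decide (i < k.val) && pI Q I i) := by simp [cl]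
      rw [h3]
      by_cases hi : i < a.length
      · rw [List.getElem_append_left hi]
        have h4 : i < Q.length := by simpa using h1
        have h5 : (toC Q I)[i]'(by rw [toC_length]; exact h4) = pI Q I i := by simp [toC, cl]
        have h6 : (toC Q I)[i]'(by rw [toC_length]; exact h4) = a[i] := by
          simp only [hc]
          rw [List.getElem_append_left hi]
        rw [← h5, h6]
        have : i < k.val := by rw [hk, ← ha]; exact hi
        simp [this]
      · rw [List.getElem_append_right (by omega)]
        have : ¬ i < k.val := by rw [hk, ← ha]; exact hi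
        simp [this]
  rw [h1]
  conv_lhs => rw [hQ]
  rw [fired_append _ _ _ _ ha, fired_replicate_false, List.append_nil]

theorem mem_iff_toC (Q : List B) (I : Finset (Fin Q.length)) (k : Fin Q.length) :
    k ∈ I ↔ (toC Q I)[k.val]'(by rw [toC_length]; exact k.isLt) = false := by
  rw [toC_getElem Q I k.val k.isLt]
  simp

/-- from a splitting to positions -/
theorem flip_of_split {Q : List B} {I J : Finset (Fin Q.length)} {a m d : List Bool}
    (hI : toC Q I = a ++ false :: (m ++ true :: d))
    (hJ : toC Q J = a ++ true :: (m ++ false :: d)) :
    ∃ i j : Fin Q.length, i.val = a.length ∧ i ∈ I ∧ j ∈ J ∧ I.erase i = J.erase j ∧ i < j := by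
  have hlen : Q.length = a.length + (m.length + (d.length + 1) + 1) := by
    have := toC_length Q I
    rw [hI] at this
    rw [← this]
    simp
  refine ⟨⟨a.length, by omega⟩, ⟨a.length + 1 + m.length, by omega⟩, rfl, ?_, ?_, ?_, ?_⟩
  · rw [mem_iff_toC]
    simp only [hI]
    simp
  · rw [mem_iff_toC]
    simp only [hJ]
    rw [List.getElem_append_right (by omega)]
    simp only [show a.length + 1 + m.length - a.length = m.length + 1 by omega]
    simp
  · ext k
    rw [Finset.mem_erase, Finset.mem_erase, mem_iff_toC, mem_iff_toC]
    simp only [hI, hJ]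
    have hk := k.isLt
    obtain ⟨n, hn⟩ : ∃ n, n = k.val := ⟨_, rfl⟩
    have key : ∀ (n : ℕ) (h1 : n < (a ++ false :: (m ++ true :: d)).length)
        (h2 : n < (a ++ true :: (m ++ false :: d)).length),
        (n ≠ a.length ∧ (a ++ false :: (m ++ true :: d))[n] = false) ↔
        (n ≠ a.length + 1 + m.length ∧ (a ++ true :: (m ++ false :: d))[n] = false) := by
      intro n h1 h2
      rcases lt_trichotomy n a.length with h | h | h
      · rw [List.getElem_append_left h, List.getElem_append_left h]
        constructor
        · rintro ⟨_, h3⟩; exact ⟨by omega, h3⟩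
        · rintro ⟨_, h3⟩; exact ⟨by omega, h3⟩
      · subst h
        simp
      · obtain ⟨n', rfl⟩ : ∃ n', n = a.length + 1 + n' := ⟨n - a.length - 1, by omega⟩
        rw [List.getElem_append_right (by omega), List.getElem_append_right (by omega)]
        simp only [show a.length + 1 + n' - a.length = n' + 1 by omega,
          List.getElem_cons_succ]
        rcases lt_trichotomy n' m.length with h3 | h3 | h3
        · rw [List.getElem_append_left h3, List.getElem_append_left h3]
          constructor
          · rintro ⟨_, h3⟩; exact ⟨by omega, h3⟩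
          · rintro ⟨_, h3⟩; exact ⟨by omega, h3⟩
        · subst h3
          simp
        · obtain ⟨n'', rfl⟩ : ∃ n'', n' = m.length + 1 + n'' := ⟨n' - m.length - 1, by omega⟩
          rw [List.getElem_append_right (by omega), List.getElem_append_right (by omega)]
          simp only [show m.length + 1 + n'' - m.length = n'' + 1 by omega,
            List.getElem_cons_succ]
          constructor
          · rintro ⟨_, h3⟩; exact ⟨by omega, h3⟩
          · rintro ⟨_, h3⟩; exact ⟨by omega, h3⟩
    have hke := key k.val (by rw [← hI, toC_length]; exact hk) (by rw [← hJ, toC_length]; exact hk)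
    constructor
    · rintro ⟨h1, h2⟩
      have h3 := hke.mp ⟨fun h => h1 (Fin.ext h), h2⟩
      exact ⟨fun h => h3.1 (congrArg Fin.val h), h3.2⟩
    · rintro ⟨h1, h2⟩
      have h3 := hke.mpr ⟨fun h => h1 (Fin.ext h), h2⟩
      exact ⟨fun h => h3.1 (congrArg Fin.val h), h3.2⟩
  · show a.length < a.length + 1 + m.length
    omega

theorem split_two {γ : Type*} (l : List γ) (i j : ℕ) (hij : i < j) (hj : j < l.length) :
    l = l.take i ++ l[i] :: (((l.drop (i + 1)).take (j - i - 1)) ++ l[j] :: l.drop (j + 1)) := by
  have h1 : l = l.take i ++ l[i] :: l.drop (i + 1) := by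
    rw [List.getElem_cons_drop, List.take_append_drop]
  have h2 : l.drop (i + 1)
      = (l.drop (i + 1)).take (j - i - 1) ++ l[j] :: l.drop (j + 1) := by
    conv_lhs => rw [← List.take_append_drop (j - i - 1) (l.drop (i + 1))]
    rw [List.drop_drop, show i + 1 + (j - i - 1) = j by omega, List.drop_eq_getElem_cons hj]
  conv_lhs => rw [h1, h2]

/-- from positions to a splitting -/
theorem split_of_flip {Q : List B} {I J : Finset (Fin Q.length)} {i j : Fin Q.length}
    (hi : i ∈ I) (hj : j ∈ J) (he : I.erase i = J.erase j) (hij : i < j) :
    ∃ (A : List B) (q : B) (P : List B) (q' : B) (D : List B) (a m d : List Bool),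
      Q = A ++ q :: (P ++ q' :: D) ∧
      toC Q I = a ++ false :: (m ++ true :: d) ∧ toC Q J = a ++ true :: (m ++ false :: d) ∧
      a.length = A.length ∧ m.length = P.length ∧ i.val = A.length ∧ Q.get i = q := by
  have hij' : i.val < j.val := hij
  have hne : i ≠ j := ne_of_lt hij
  have hiJ : i ∉ J := by
    intro h
    have : i ∈ J.erase j := Finset.mem_erase.mpr ⟨hne, h⟩
    rw [← he] at this
    exact (Finset.notMem_erase i I) this
  have hjI : j ∉ I := by
    intro h
    have : j ∈ I.erase i := Finset.mem_erase.mpr ⟨hne.symm, h⟩
    rw [he] at this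
    exact (Finset.notMem_erase j J) this
  have hothers : ∀ k : Fin Q.length, k ≠ i → k ≠ j → (k ∈ I ↔ k ∈ J) := by
    intro k h1 h2
    have : k ∈ I.erase i ↔ k ∈ J.erase j := by rw [he]
    rw [Finset.mem_erase, Finset.mem_erase] at this
    tauto
  have hIl := toC_length Q I
  have hJl := toC_length Q J
  have hjl := j.isLt
  have hil := i.isLt
  have hent : ∀ (k : ℕ) (h1 : k < (toC Q I).length) (h2 : k < (toC Q J).length), k ≠ i.val →
      k ≠ j.val → (toC Q I)[k] = (toC Q J)[k] := by
    intro k h1 h2 h3 h4
    have hk : k < Q.length := by rw [← hIl]; exact h1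
    rw [toC_getElem Q I k hk, toC_getElem Q J k hk]
    have := hothers ⟨k, hk⟩ (fun h => h3 (congrArg Fin.val h)) (fun h => h4 (congrArg Fin.val h))
    simp [this]
  refine ⟨Q.take i.val, Q[i.val], (Q.drop (i.val + 1)).take (j.val - i.val - 1), Q[j.val],
    Q.drop (j.val + 1), (toC Q I).take i.val,
    ((toC Q I).drop (i.val + 1)).take (j.val - i.val - 1), (toC Q I).drop (j.val + 1),
    split_two Q i.val j.val hij' hjl, ?_, ?_, ?_, ?_, ?_, ?_⟩
  · have h1 := split_two (toC Q I) i.val j.val hij' (by omega)
    have h2 : (toC Q I)[i.val]'(by omega) = false := (mem_iff_toC Q I i).mp hi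
    have h3 : (toC Q I)[j.val]'(by omega) = true := by
      have := (mem_iff_toC Q I j).not.mp hjI
      simpa using this
    rw [h2, h3] at h1
    exact h1
  · have h1 := split_two (toC Q J) i.val j.val hij' (by omega)
    have h2 : (toC Q J)[i.val]'(by omega) = true := by
      have := (mem_iff_toC Q J i).not.mp hiJ
      simpa using this
    have h3 : (toC Q J)[j.val]'(by omega) = false := (mem_iff_toC Q J j).mp hj
    rw [h2, h3] at h1
    have e1 : (toC Q J).take i.val = (toC Q I).take i.val := by
      apply List.ext_getElem
      · simp [hIl, hJl]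
      · intro k h1 h2
        simp only [List.getElem_take]
        symm
        apply hent
        · simp at h1; omega
        · simp at h1; omega
    have e2 : ((toC Q J).drop (i.val + 1)).take (j.val - i.val - 1)
        = ((toC Q I).drop (i.val + 1)).take (j.val - i.val - 1) := by
      apply List.ext_getElem
      · simp [hIl, hJl]
      · intro k h1 h2
        simp only [List.getElem_take, List.getElem_drop]
        symm
        apply hent
        · simp at h1; omega
        · simp at h1; omega
    have e3 : (toC Q J).drop (j.val + 1) = (toC Q I).drop (j.val + 1) := by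
      apply List.ext_getElem
      · simp [hIl, hJl]
      · intro k h1 h2
        simp only [List.getElem_drop]
        symm
        apply hent
        · omega
        · omega
    rw [e1, e2, e3] at h1
    exact h1
  · simp [hIl]
  · simp [hIl]
  · simp
  · rfl

end

end CxA
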