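import Mathlib
import Pool.Agent.helper52.Cox.Assemble
import Pool.Agent.helper52.Cox.Posn

/-!
The final theorem.
-/

namespace CxA

open CoxeterSystem SubwordLattice

section

variable {B : Type*} [Fintype B] [DecidableEq B] {M : CoxeterMatrix B} {W : Type*} [Group W]
  (cs : CoxeterSystem M W)

/-- the alternating condition gives compatible orientations -/
theorem comp_of_alternating {Q : List B} (h : IsAlternating cs Q) :
    ∃ o ob, Anti o ∧ Anti ob ∧ Comp M o Q ob := by
  apply exists_Comp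
  intro s t hst hM
  exact h s t (fun hc => hM (M_eq_two_of_comm cs hst hc))

/-- vectors of the root configuration are roots -/
theorem root_of_mem {Q : List B} {I : Finset (Fin Q.length)} {β : B → ℝ}
    (h : β ∈ rootConfiguration cs Q I) : ∃ (w : W) (t : B), β = rho cs w (al ℝ t) := by
  unfold rootConfiguration at h
  rw [Multiset.mem_map] at h
  obtain ⟨k, _, rfl⟩ := h
  unfold rootFunction
  rw [geomRep_eq]
  exact ⟨_, _, rfl⟩

theorem rootFunction_mem {Q : List B} {I : Finset (Fin Q.length)} {i : Fin Q.length}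
    (h : i ∈ I) : rootFunction cs Q I i ∈ rootConfiguration cs Q I :=
  Multiset.mem_map_of_mem _ h

theorem linExt_nonneg {Q : List B} {I : Finset (Fin Q.length)} {x : W} :
    x ∈ linearExtensions cs Q I ↔
      ∀ β ∈ rootConfiguration cs Q I, ∀ b, 0 ≤ rho cs x⁻¹ β b := by
  unfold linearExtensions
  simp only [Set.mem_ofPred_eq]
  constructor
  · intro H β hβ b
    obtain ⟨γ, hγ, h⟩ := H β hβ
    rw [geomRep_eq] at h
    rw [← h, rho_inv_apply]
    exact hγ.2 b
  · intro H β hβ
    obtain ⟨w, t, rfl⟩ := root_of_mem cs hβ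
    refine ⟨rho cs x⁻¹ (rho cs w (al ℝ t)), ⟨⟨x⁻¹ * w, t, ?_⟩, H _ hβ⟩, ?_⟩
    · rw [geomRep_eq, ← rho_mul_apply]; rfl
    · rw [geomRep_eq, rho_apply_inv]

theorem rootFunction_split {Q : List B} {I : Finset (Fin Q.length)}
    {A : List B} {q : B} {R : List B} (hQ : Q = A ++ q :: R) {a r : List Bool}
    (hc : toC Q I = a ++ r) (ha : a.length = A.length) (k : Fin Q.length)
    (hk : k.val = A.length) (hq : Q.get k = q) :
    rootFunction cs Q I k = rho cs (cs.wordProd (fired A a)) (al ℝ q) := by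
  unfold rootFunction
  rw [beforeWord_split hQ hc ha k hk, hq, geomRep_eq]
  rfl

/-- the facet of an element of the interval -/
theorem exists_facet {Q : List B} {ω : W} (hc : Contains cs Q ω) (x : WeakInterval cs ω) :
    ∃ I : AcyclicFacet cs Q ω, x.1 ∈ linearExtensions cs Q I.1 := by
  obtain ⟨c, hcx⟩ := fac_exists cs hc ((weakLE_iff cs).mp x.2)
  obtain ⟨I, rfl⟩ := exists_toC Q c hcx.length
  rw [← facet_iff] at hcx
  exact ⟨⟨I, hcx.1, ⟨x.1, hcx.2⟩⟩, hcx.2⟩

/-- the facet of an element of the interval -/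
noncomputable def facetOf {Q : List B} {ω : W} (hc : Contains cs Q ω) (x : WeakInterval cs ω) :
    AcyclicFacet cs Q ω := (exists_facet cs hc x).choose

theorem facetOf_spec {Q : List B} {ω : W} (hc : Contains cs Q ω) (x : WeakInterval cs ω) :
    x.1 ∈ linearExtensions cs Q (facetOf cs hc x).1 := (exists_facet cs hc x).choose_spec

theorem facetOf_fac {Q : List B} {ω : W} (hc : Contains cs Q ω) (x : WeakInterval cs ω) :
    Fac cs Q ω x.1 (toC Q (facetOf cs hc x).1) :=
  (facet_iff cs).mp ⟨(facetOf cs hc x).2.1, facetOf_spec cs hc x⟩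

theorem facetOf_eq_iff {Q : List B} {ω : W} (hc : Contains cs Q ω) (x : WeakInterval cs ω)
    (I : AcyclicFacet cs Q ω) : facetOf cs hc x = I ↔ x.1 ∈ linearExtensions cs Q I.1 := by
  constructor
  · rintro rfl
    exact facetOf_spec cs hc x
  · intro h
    have h1 : Fac cs Q ω x.1 (toC Q I.1) := (facet_iff cs).mp ⟨I.2.1, h⟩
    exact Subtype.ext (toC_injective Q (fac_unique cs (facetOf_fac cs hc x) h1))

theorem facetOf_eq_of_fac {Q : List B} {ω : W} (hc : Contains cs Q ω) {x y : WeakInterval cs ω}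
    {g : List Bool} (hx : Fac cs Q ω x.1 g) (hy : Fac cs Q ω y.1 g) :
    facetOf cs hc x = facetOf cs hc y := by
  apply Subtype.ext
  apply toC_injective Q
  rw [fac_unique cs (facetOf_fac cs hc x) hx, fac_unique cs (facetOf_fac cs hc y) hy]

end

section

variable {B : Type*} [Fintype B] [DecidableEq B] {M : CoxeterMatrix B} {W : Type*} [Group W]
  (cs : CoxeterSystem M W)

/-- compatibility with joins -/
theorem sup_compat {Q : List B} {o ob : B → B → Bool} {ω : W} (ho : Anti o) (hob : Anti ob)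
    (hC : Comp M o Q ob) (hc : Contains cs Q ω) {x y z : WeakInterval cs ω}
    (hxy : facetOf cs hc x = facetOf cs hc y) :
    facetOf cs hc ((weakLattice cs ω).sup x z) = facetOf cs hc ((weakLattice cs ω).sup y z) := by
  classical
  have hz := (weakLE_iff cs).mp z.2
  obtain ⟨p, hp⟩ : ∃ p : W → AcyclicFacet cs Q ω, ∀ u : WeakInterval cs ω,
      p u.1 = facetOf cs hc ((weakLattice cs ω).sup u z) := by
    refine ⟨fun u => if h : WeakLE cs u ω then
      facetOf cs hc ((weakLattice cs ω).sup ⟨u, h⟩ z) else facetOf cs hc x, ?_⟩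
    intro u
    obtain ⟨u, hu⟩ := u
    exact dif_pos hu
  rw [← hp x, ← hp y]
  have hy := facetOf_fac cs hc y
  rw [← hxy] at hy
  apply gallery_induction cs (Q := Q) (ω := ω) p _ _ x.1 y.1 rfl ((weakLE_iff cs).mp x.2)
    ((weakLE_iff cs).mp y.2) (facetOf_fac cs hc x) hy
  intro u s f hs hus hf hf'
  have hu := wle_trans cs (wle_simple cs hs) hus
  obtain ⟨u', hu'⟩ : ∃ u' : WeakInterval cs ω, u'.1 = u := ⟨⟨u, (weakLE_iff cs).mpr hu⟩, rfl⟩
  obtain ⟨v', hv'⟩ : ∃ v' : WeakInterval cs ω, v'.1 = u * cs.simple s :=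
    ⟨⟨_, (weakLE_iff cs).mpr hus⟩, rfl⟩
  have hj := isJ_sup cs ω u' z
  have hj' := isJ_sup cs ω v' z
  rw [hu'] at hj
  rw [hv'] at hj'
  have h1 := hp u'
  have h2 := hp v'
  rw [hu'] at h1
  rw [hv'] at h2
  rw [h1, h2]
  have hg := facetOf_fac cs hc ((weakLattice cs ω).sup u' z)
  exact facetOf_eq_of_fac cs hc hg
    (join_same cs ho hob hC hc hs hus hz hf hf' hj hj' hg)

/-- compatibility with meets -/
theorem inf_compat {Q : List B} {o ob : B → B → Bool} {ω : W} (ho : Anti o) (hob : Anti ob)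
    (hC : Comp M o Q ob) (hc : Contains cs Q ω) {x y z : WeakInterval cs ω}
    (hxy : facetOf cs hc x = facetOf cs hc y) :
    facetOf cs hc ((weakLattice cs ω).inf x z) = facetOf cs hc ((weakLattice cs ω).inf y z) := by
  classical
  obtain ⟨p, hp⟩ : ∃ p : W → AcyclicFacet cs Q ω, ∀ u : WeakInterval cs ω,
      p u.1 = facetOf cs hc ((weakLattice cs ω).inf u z) := by
    refine ⟨fun u => if h : WeakLE cs u ω then
      facetOf cs hc ((weakLattice cs ω).inf ⟨u, h⟩ z) else facetOf cs hc x, ?_⟩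
    intro u
    obtain ⟨u, hu⟩ := u
    exact dif_pos hu
  rw [← hp x, ← hp y]
  have hy := facetOf_fac cs hc y
  rw [← hxy] at hy
  apply gallery_induction cs (Q := Q) (ω := ω) p _ _ x.1 y.1 rfl ((weakLE_iff cs).mp x.2)
    ((weakLE_iff cs).mp y.2) (facetOf_fac cs hc x) hy
  intro u s f hs hus hf hf'
  have hu := wle_trans cs (wle_simple cs hs) hus
  obtain ⟨u', hu'⟩ : ∃ u' : WeakInterval cs ω, u'.1 = u := ⟨⟨u, (weakLE_iff cs).mpr hu⟩, rfl⟩
  obtain ⟨v', hv'⟩ : ∃ v' : WeakInterval cs ω, v'.1 = u * cs.simple s :=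
    ⟨⟨_, (weakLE_iff cs).mpr hus⟩, rfl⟩
  have hj := isM_inf cs ω u' z
  have hj' := isM_inf cs ω v' z
  rw [hu'] at hj
  rw [hv'] at hj'
  have h1 := hp u'
  have h2 := hp v'
  rw [hu'] at h1
  rw [hv'] at h2
  rw [h1, h2]
  have hg := facetOf_fac cs hc ((weakLattice cs ω).inf u' z)
  exact facetOf_eq_of_fac cs hc hg
    (meet_same cs ho hob hC hc hs hus hf hf' hj hj' hg)

/-- the congruence -/
noncomputable def facetCon {Q : List B} {o ob : B → B → Bool} {ω : W} (ho : Anti o)
    (hob : Anti ob) (hC : Comp M o Q ob) (hc : Contains cs Q ω) :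
    @LatticeCon (WeakInterval cs ω) (weakLattice cs ω) :=
  letI := weakLattice cs ω
  { Setoid.ker (facetOf cs hc) with
    inf := by
      intro w x y z h1 h2
      have h1' : facetOf cs hc w = facetOf cs hc x := h1
      have h2' : facetOf cs hc y = facetOf cs hc z := h2
      show facetOf cs hc (w ⊓ y) = facetOf cs hc (x ⊓ z)
      have e1 : facetOf cs hc (w ⊓ y) = facetOf cs hc (x ⊓ y) := inf_compat cs ho hob hC hc h1'
      have e2 : facetOf cs hc (y ⊓ x) = facetOf cs hc (z ⊓ x) := inf_compat cs ho hob hC hc h2'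
      rw [e1, inf_comm x y, e2, inf_comm z x]
    sup := by
      intro w x y z h1 h2
      have h1' : facetOf cs hc w = facetOf cs hc x := h1
      have h2' : facetOf cs hc y = facetOf cs hc z := h2
      show facetOf cs hc (w ⊔ y) = facetOf cs hc (x ⊔ z)
      have e1 : facetOf cs hc (w ⊔ y) = facetOf cs hc (x ⊔ y) := sup_compat cs ho hob hC hc h1'
      have e2 : facetOf cs hc (y ⊔ x) = facetOf cs hc (z ⊔ x) := sup_compat cs ho hob hC hc h2'
      rw [e1, sup_comm x y, e2, sup_comm z x] }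

theorem facetCon_r {Q : List B} {o ob : B → B → Bool} {ω : W} (ho : Anti o)
    (hob : Anti ob) (hC : Comp M o Q ob) (hc : Contains cs Q ω) (x y : WeakInterval cs ω) :
    (@LatticeCon.toSetoid _ (weakLattice cs ω) (facetCon cs ho hob hC hc)).r x y
      ↔ facetOf cs hc x = facetOf cs hc y := Iff.rfl

end

section

variable {B : Type*} [Fintype B] [DecidableEq B] {M : CoxeterMatrix B} {W : Type*} [Group W]
  (cs : CoxeterSystem M W)

/-- Edges between different facets are extremal increasing flips. -/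
theorem flip_of_edge {Q : List B} {ω x : W} {s : B} {I J : Finset (Fin Q.length)}
    (hs : ¬ cs.IsRightDescent x s) (hI : Fac cs Q ω x (toC Q I))
    (hJ : Fac cs Q ω (x * cs.simple s) (toC Q J)) (hne : I ≠ J) :
    ExtremalIncreasingFlip cs Q I J := by
  have hTU := fac_TU cs hs hI hJ (fun h => hne (toC_injective Q h))
  obtain ⟨A, q, P, q', D, a, m, d, e1, e2, e3, e4, e5, e6, e7⟩ := hTU.split cs hI.1 hs
  obtain ⟨i, j, hi, hiI, hjJ, hIJ, hij⟩ := flip_of_split e2 e3
  refine ⟨i, hiI, j, hjJ, hIJ, hij, ?_⟩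
  have hget : Q.get i = q := by
    have h1 : i.val = A.length := by rw [hi, e4]
    have h2 : Q[i.val]? = some q := by
      rw [h1]
      clear * - e1
      have h3 : ∀ L : List B, L = A ++ q :: (P ++ q' :: D) → L[A.length]? = some q := by
        rintro L rfl
        simp
      exact h3 Q e1
    rw [List.get_eq_getElem]
    rw [List.getElem?_eq_getElem i.isLt] at h2
    exact Option.some.inj h2
  have hroot : rootFunction cs Q I i = rho cs x (al ℝ s) := by
    rw [rootFunction_split cs e1 e2 e4 i (by rw [hi, e4]) hget, e7]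
  have hlin : x ∈ linearExtensions cs Q I := (mem_linearExtensions cs).mpr hI.1
  rw [linExt_nonneg] at hlin
  have hmem := rootFunction_mem cs hiI
  rw [hroot] at hmem
  rw [hroot]
  exact face_of_simple cs hlin hmem

/-- Extremal increasing flips between acyclic facets come from edges. -/
theorem edge_of_flip [Finite W] {Q : List B} {ω : W} (hQ : ∀ v, Contains cs Q v)
    {I J : Finset (Fin Q.length)}
    (hI : IsFacet cs Q ω I) (hIa : (linearExtensions cs Q I).Nonempty)
    (hJ : IsFacet cs Q ω J) (hJa : (linearExtensions cs Q J).Nonempty)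
    (h : ExtremalIncreasingFlip cs Q I J) :
    ∃ (x : W) (s : B), ¬ cs.IsRightDescent x s ∧ wle cs x ω ∧ wle cs (x * cs.simple s) ω ∧
      x ∈ linearExtensions cs Q I ∧ x * cs.simple s ∈ linearExtensions cs Q J := by
  obtain ⟨i, hi, j, hj, hIJ, hij, hface⟩ := h
  obtain ⟨A, q, P, q', D, a, m, d, e1, e2, e3, e4, e5, e6, e7⟩ := split_of_flip hi hj hIJ hij
  obtain ⟨π, hπ⟩ := hIa
  obtain ⟨π', hπ'⟩ := hJa
  rw [linExt_nonneg] at hπ
  obtain ⟨x, s, hx1, hx2⟩ := exists_wall cs (R := {β | β ∈ rootConfiguration cs Q I})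
    (by
      have : {β | β ∈ rootConfiguration cs Q I} = ((rootConfiguration cs Q I).toFinset : Set _) := by
        ext β; simp
      rw [this]
      exact Finset.finite_toSet _)
    (fun r hr => root_of_mem cs hr) hπ (rootFunction_mem cs hi) hface
  have hxI : x ∈ linearExtensions cs Q I := (linExt_nonneg cs).mpr hx2
  have hFI : Fac cs Q ω x (toC Q I) := (facet_iff cs).mp ⟨hI, hxI⟩
  have hroot := rootFunction_split cs e1 e2 e4 i e6 e7
  rw [← hx1] at hroot
  have hJ1 := hJ.1
  have hJ2 := hJ.2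
  rw [complementWord_eq] at hJ1 hJ2
  rw [mem_linearExtensions] at hπ'
  have hQ' : ∀ (L : List B) (c : List Bool) (y : W), Q = L → Fac cs Q ω y c → Fac cs L ω y c := by
    rintro L c y rfl h; exact h
  have hflip := flip_adjacent cs (ω := ω) (x := x) (π' := π') (s := s) (q := q) (q' := q')
    (D := D) (d := d) e4 e5
    (by rw [← e1, ← e2]; exact hFI) (by rw [← e1, ← e3]; exact hJ1)
    (by rw [← e1, ← e3]; exact hJ2) (by rw [← e1, ← e3]; exact hπ') hroot.symm
  rw [← e1, ← e3] at hflip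
  refine ⟨x, s, hflip.1, fac_wle cs hQ hFI, fac_wle cs hQ hflip.2, hxI, ?_⟩
  exact (mem_linearExtensions cs).mpr hflip.2.1

/-- The final theorem. -/
theorem final [Finite W] (Q : List B) (ω : W) (hs : IsSorting cs Q) (ha : IsAlternating cs Q) :
    ∃ (L : Lattice (WeakInterval cs ω)) (c : LatticeCon (WeakInterval cs ω))
      (e : CongruenceClasses c ≃ AcyclicFacet cs Q ω),
      (∀ x y : WeakInterval cs ω, x ≤ y ↔ WeakLE cs x.1 y.1) ∧
      (∀ x y : WeakInterval cs ω, c.r x y ↔
        ∃ I : Finset (Fin Q.length), IsFacet cs Q ω I ∧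
          x.1 ∈ linearExtensions cs Q I ∧ y.1 ∈ linearExtensions cs Q I) ∧
      (∀ (x : WeakInterval cs ω) (I : AcyclicFacet cs Q ω),
        e (classOf c x) = I ↔ x.1 ∈ linearExtensions cs Q I.1) ∧
      (∀ X Y : CongruenceClasses c,
        X ⋖ Y ↔ ExtremalIncreasingFlip cs Q (e X).1 (e Y).1) := by
  obtain ⟨o, ob, ho, hob, hC⟩ := comp_of_alternating cs ha
  have hQ := contains_of_sorting cs hs
  have hc := hQ ω
  let _ := weakLattice cs ω
  obtain ⟨c, hcr⟩ : ∃ c : LatticeCon (WeakInterval cs ω), ∀ x y : WeakInterval cs ω,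
      c.r x y ↔ facetOf cs hc x = facetOf cs hc y :=
    ⟨facetCon cs ho hob hC hc, facetCon_r cs ho hob hC hc⟩
  obtain ⟨e, he⟩ : ∃ e : CongruenceClasses c ≃ AcyclicFacet cs Q ω,
      ∀ x, e (classOf c x) = facetOf cs hc x := by
    refine ⟨Equiv.ofBijective
      (Quotient.lift (facetOf cs hc) (fun x y h => (hcr x y).mp h)) ⟨?_, ?_⟩, fun x => rfl⟩
    · rintro ⟨x⟩ ⟨y⟩ h
      exact (classOf_eq_iff c).mpr ((hcr x y).mpr h)
    · intro I
      obtain ⟨π, hπ⟩ := I.2.2
      have h1 : Fac cs Q ω π (toC Q I.1) := (facet_iff cs).mp ⟨I.2.1, hπ⟩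
      have h2 := fac_wle cs hQ h1
      refine ⟨classOf c ⟨π, (weakLE_iff cs).mpr h2⟩, ?_⟩
      show facetOf cs hc _ = I
      rw [facetOf_eq_iff]
      exact hπ
  refine ⟨weakLattice cs ω, c, e, fun x y => Iff.rfl, ?_, ?_, ?_⟩
  · intro x y
    rw [hcr]
    constructor
    · intro h
      exact ⟨(facetOf cs hc x).1, (facetOf cs hc x).2.1, facetOf_spec cs hc x,
        h ▸ facetOf_spec cs hc y⟩
    · rintro ⟨I, hI, hx, hy⟩
      have h1 := (facetOf_eq_iff cs hc x ⟨I, hI, ⟨x.1, hx⟩⟩).mpr hx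
      have h2 := (facetOf_eq_iff cs hc y ⟨I, hI, ⟨x.1, hx⟩⟩).mpr hy
      rw [h1, h2]
  · intro x I
    rw [he, facetOf_eq_iff]
  · intro X Y
    constructor
    · intro h
      obtain ⟨u, s, hns, hu, hus, rfl, rfl⟩ := edge_of_quot_covBy cs c h
      rw [he, he]
      apply flip_of_edge cs hns (facetOf_fac cs hc ⟨u, hu⟩)
        (facetOf_fac cs hc ⟨u * cs.simple s, hus⟩)
      intro h2
      apply h.ne
      exact (classOf_eq_iff c).mpr ((hcr _ _).mpr (Subtype.ext h2))
    · intro h
      obtain ⟨x, s, hns, hx, hxs, hxI, hxJ⟩ := edge_of_flip cs hQ (e X).2.1 (e X).2.2 (e Y).2.1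
        (e Y).2.2 h
      have hX : classOf c (⟨x, (weakLE_iff cs).mpr hx⟩ : WeakInterval cs ω) = X := by
        apply e.injective
        rw [he, facetOf_eq_iff]
        exact hxI
      have hY : classOf c (⟨x * cs.simple s, (weakLE_iff cs).mpr hxs⟩ : WeakInterval cs ω) = Y := by
        apply e.injective
        rw [he, facetOf_eq_iff]
        exact hxJ
      rw [← hX, ← hY]
      apply quot_covBy_of_covBy c (covBy_step cs hns _ _)
      intro hr
      have h1 := (classOf_eq_iff c).mpr hr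
      rw [hX, hY] at h1
      rw [h1] at h
      obtain ⟨i, hi, j, hj, hIJ, hij, _⟩ := h
      have h2 : j ∈ ((e Y).1).erase i := Finset.mem_erase.mpr ⟨ne_of_gt hij, hj⟩
      rw [hIJ] at h2
      exact Finset.notMem_erase j _ h2

end

end CxA
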